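import Pool.Agent.W955.LT.Stm
import Pool.Agent.W976.LT.Kids

/-!
# Sorted codes of objects, first part
-/

namespace Pool.Agent.W955.LT

open Pool.Agent.W976.LT

/-- Words with letters at most 5. -/
def Lt6 (l : List (List ℕ)) : Prop := ∀ w ∈ l, ∀ d ∈ w, d < 6

theorem mem_ins {w : List ℕ} {l : List (List ℕ)} (hw : ∀ d ∈ w, d < 6) (hl : Lt6 l)
    (x : List ℕ) : x ∈ ins w l ↔ x = w ∨ x ∈ l := by
  simp only [ins, List.mem_append, List.mem_cons, List.mem_filter, decide_eq_true_eq]
  constructor
  · rintro (h | h | h)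
    · exact Or.inr h.1
    · exact Or.inl h
    · exact Or.inr h.1
  · rintro (h | h)
    · exact Or.inr (Or.inl h)
    · rcases lt_trichotomy (key x) (key w) with h1 | h1 | h1
      · exact Or.inl ⟨h, h1⟩
      · exact Or.inr (Or.inl (key_inj (hl x h) hw h1))
      · exact Or.inr (Or.inr ⟨h, h1⟩)

theorem sorted_ins {w : List ℕ} {l : List (List ℕ)}
    (hl : l.Pairwise (fun v w => key v < key w)) :
    (ins w l).Pairwise (fun v w => key v < key w) := by
  rw [ins, List.pairwise_append, List.pairwise_cons]
  refine ⟨hl.filter _, ⟨?_, hl.filter _⟩, ?_⟩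
  · intro a ha
    simp only [List.mem_filter, decide_eq_true_eq] at ha
    exact ha.2
  · intro a ha b hb
    simp only [List.mem_filter, List.mem_cons, decide_eq_true_eq] at ha hb
    rcases hb with rfl | hb
    · exact ha.2
    · exact ha.2.trans hb.2

theorem norm_spec : ∀ l : List (List ℕ), Lt6 l → (∀ x, x ∈ norm l ↔ x ∈ l) ∧
    (norm l).Pairwise (fun v w => key v < key w)
  | [], _ => ⟨fun x => Iff.rfl, List.Pairwise.nil⟩
  | w :: l, h => by
    have hl : Lt6 l := fun v hv => h v (List.mem_cons_of_mem _ hv)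
    obtain ⟨h1, h2⟩ := norm_spec l hl
    have e : norm (w :: l) = ins w (norm l) := rfl
    rw [e]
    refine ⟨fun x => ?_, sorted_ins h2⟩
    rw [mem_ins (h w (by simp)) (fun v hv => hl v ((h1 v).1 hv)), h1, List.mem_cons]

theorem sorted_ext {l l' : List (List ℕ)} (h : l.Pairwise (fun v w => key v < key w))
    (h' : l'.Pairwise (fun v w => key v < key w)) (e : ∀ x, x ∈ l ↔ x ∈ l') : l = l' := by
  have n1 : l.Nodup := h.imp (fun hab => by rintro rfl; exact lt_irrefl _ hab)
  have n2 : l'.Nodup := h'.imp (fun hab => by rintro rfl; exact lt_irrefl _ hab)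
  have hp : l.Perm l' := List.perm_of_nodup_nodup_toFinset_eq n1 n2 (by
    ext x; simp [e x])
  exact hp.eq_of_pairwise (fun a b _ _ h1 h2 => absurd (h1.trans h2) (lt_irrefl _)) h h'

theorem norm_congr {l l' : List (List ℕ)} (h : Lt6 l) (e : l.toFinset = l'.toFinset) :
    norm l = norm l' := by
  have e' : ∀ x, x ∈ l ↔ x ∈ l' := by
    intro x
    rw [← List.mem_toFinset, e, List.mem_toFinset]
  have h' : Lt6 l' := fun w hw => h w ((e' w).2 hw)
  refine sorted_ext (norm_spec l h).2 (norm_spec l' h').2 fun x => ?_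
  rw [(norm_spec l h).1, (norm_spec l' h').1, e']

theorem norm_toFinset {l : List (List ℕ)} (h : Lt6 l) : (norm l).toFinset = l.toFinset := by
  ext x
  rw [List.mem_toFinset, List.mem_toFinset, (norm_spec l h).1]

theorem norm_nodup {l : List (List ℕ)} (h : Lt6 l) : (norm l).Nodup :=
  (norm_spec l h).2.imp (fun hab => by rintro rfl; exact lt_irrefl _ hab)

theorem norm_norm {l : List (List ℕ)} (h : Lt6 l) : norm (norm l) = norm l :=
  norm_congr (fun w hw => h w (((norm_spec l h).1 w).1 hw)) (norm_toFinset h)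

theorem lt6_of_ok {k : Kind} {o : Obj} (h : Ok k o) : Lt6 o.1.toList ∧ Lt6 o.2.toList := by
  constructor
  · intro w hw d hd
    rw [Finset.mem_toList] at hw
    exact (letters h.tr hw d hd).trans_le (nd_le k)
  · intro w hw d hd
    rw [Finset.mem_toList] at hw
    exact (letters h.tr (h.sub hw) d hd).trans_le (nd_le k)

theorem enc_toFinset {k : Kind} {o : Obj} (h : Ok k o) :
    (enc o).1.toFinset = o.1 ∧ (enc o).2.toFinset = o.2 := by
  obtain ⟨h1, h2⟩ := lt6_of_ok h
  constructor
  · change (norm o.1.toList).toFinset = _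
    rw [norm_toFinset h1, Finset.toList_toFinset]
  · change (norm o.2.toList).toFinset = _
    rw [norm_toFinset h2, Finset.toList_toFinset]

theorem enc_length {k : Kind} {o : Obj} (h : Ok k o) :
    (enc o).1.length = o.1.card ∧ (enc o).2.length = o.2.card := by
  obtain ⟨h1, h2⟩ := lt6_of_ok h
  obtain ⟨h3, h4⟩ := enc_toFinset h
  constructor
  · rw [← h3]
    exact (List.toFinset_card_of_nodup (norm_nodup h1)).symm
  · rw [← h4]
    exact (List.toFinset_card_of_nodup (norm_nodup h2)).symm

theorem enc_inj {k : Kind} {o o' : Obj} (h : Ok k o) (h' : Ok k o') (e : enc o = enc o') :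
    o = o' := by
  obtain ⟨h1, h2⟩ := enc_toFinset h
  obtain ⟨h3, h4⟩ := enc_toFinset h'
  rw [e] at h1 h2
  exact Prod.ext (h1.symm.trans h3) (h2.symm.trans h4)

/-! ### Positions -/

theorem small (x : ℤ) (h : x = -1 ∨ x = 0 ∨ x = 1) :
    (((if x = 1 then 1 else 0 : ℕ) : ℤ) - ((if x = -1 then 1 else 0 : ℕ) : ℤ)) = x := by
  rcases h with rfl | rfl | rfl <;> simp

theorem stp_small (k : Kind) (d : ℕ) : ((stp k d).1 = -1 ∨ (stp k d).1 = 0 ∨ (stp k d).1 = 1) ∧
    ((stp k d).2 = -1 ∨ (stp k d).2 = 0 ∨ (stp k d).2 = 1) := by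
  by_cases h : d < 6
  · interval_cases d <;> cases k <;> simp [stp, dirs]
  · have : stp k d = (0, 0) := by
      unfold stp
      rw [List.getD_eq_default]
      cases k <;> simp [dirs] <;> omega
    rw [this]
    simp

theorem posZ_addC (k : Kind) (s : Bool) (d : ℕ) (p : ℕ × ℕ × ℕ × ℕ) :
    posZ (addC k s d p) = ((posZ p).1 + (if s then -1 else 1) * (stp k d).1,
      (posZ p).2 + (if s then -1 else 1) * (stp k d).2) := by
  obtain ⟨h1, h2⟩ := stp_small k d
  have e1 : (if s then -(stp k d).1 else (stp k d).1) = (if s then -1 else 1) * (stp k d).1 := by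
    cases s <;> simp
  have e2 : (if s then -(stp k d).2 else (stp k d).2) = (if s then -1 else 1) * (stp k d).2 := by
    cases s <;> simp
  have g1 : (if s then -(stp k d).1 else (stp k d).1) = -1 ∨
      (if s then -(stp k d).1 else (stp k d).1) = 0 ∨
      (if s then -(stp k d).1 else (stp k d).1) = 1 := by
    cases s
    · simpa using h1
    · simp; omega
  have g2 : (if s then -(stp k d).2 else (stp k d).2) = -1 ∨
      (if s then -(stp k d).2 else (stp k d).2) = 0 ∨
      (if s then -(stp k d).2 else (stp k d).2) = 1 := by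
    cases s
    · simpa using h2
    · simp; omega
  have f1 := small _ g1
  have f2 := small _ g2
  rw [← e1, ← e2]
  simp only [posZ, addC]
  refine Prod.ext ?_ ?_
  · simp only
    rw [Nat.cast_add, Nat.cast_add]
    linarith
  · simp only
    rw [Nat.cast_add, Nat.cast_add]
    linarith

theorem sgn_pos (k : Kind) : ∀ w : List ℕ, (∀ d ∈ w, d < nd k) →
    sgn k (pos k w) = if sgnC k w then -1 else 1
  | [], _ => by cases k <;> simp [sgn, pos, sgnC]
  | d :: w, h => by
    have ih := sgn_pos k w fun e he => h e (List.mem_cons_of_mem _ he)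
    have hd := h d (by simp)
    have e : sgn k (pos k (d :: w)) = sgn k (pos k w) * sgn k (stp k d) := sgn_mul k _ _
    rw [e, ih]
    cases k with
    | sq => simp [sgnC, sgn]
    | tri => simp [sgnC, sgn]
    | hex =>
      have hs : sgn .hex (stp .hex d) = -1 := by
        simp only [nd] at hd
        interval_cases d <;> simp [sgn, stp, dirs]
      rw [hs]
      simp only [sgnC, List.length_cons, decide_eq_true_eq]
      by_cases h1 : w.length % 2 = 1
      · rw [if_pos h1, if_neg (by omega)]; norm_num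
      · rw [if_neg h1, if_pos (by omega)]; norm_num

theorem posZ_posC (k : Kind) : ∀ w : List ℕ, (∀ d ∈ w, d < nd k) → posZ (posC k w) = pos k w
  | [], _ => by simp [posZ, posC, pos]
  | d :: w, h => by
    have hw : ∀ e ∈ w, e < nd k := fun e he => h e (List.mem_cons_of_mem _ he)
    rw [posC, posZ_addC, posZ_posC k w hw, pos, mul, sgn_pos k w hw]

theorem eqC_iff (p q : ℕ × ℕ × ℕ × ℕ) : eqC p q = true ↔ posZ p = posZ q := by
  simp only [eqC, Bool.and_eq_true, decide_eq_true_eq, posZ, Prod.mk.injEq]
  omega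

/-! ### Valid codes -/

theorem validC_iff (k : Kind) (c : Code) : validC k c = true ↔
    ([] ∈ c.1) ∧ (∀ w ∈ c.1, w = [] ∨ (w.tail ∈ c.1 ∧ w.headD 0 < nd k)) ∧
    (∀ v ∈ c.1, ∀ w ∈ c.1, v = w ∨ posZ (posC k v) ≠ posZ (posC k w)) ∧
    norm c.1 = c.1 ∧ norm c.2 = c.2 ∧ (∀ w ∈ c.2, w ∈ c.1) ∧ [] ∈ c.2 ∧ c.2.length ≤ 15 := by
  simp only [validC, Bool.and_eq_true, decide_eq_true_eq, List.all_eq_true, Bool.or_eq_true,
    Bool.not_eq_true', ← Bool.not_eq_true, eqC_iff, and_assoc, ne_eq]

theorem validC_main (k : Kind) (c : Code) :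
    validC k c = true ↔ ∃ o, Ok k o ∧ enc o = c := by
  rw [validC_iff]
  constructor
  · rintro ⟨h1, h2, h3, h4, h5, h6, h7, h8⟩
    have hlet : ∀ w : List ℕ, w ∈ c.1 → ∀ d ∈ w, d < nd k := by
      intro w
      induction w with
      | nil => intro _ d hd; simp at hd
      | cons e w ih =>
        intro hw d hd
        rcases h2 _ hw with h | ⟨h, h'⟩
        · simp at h
        · rcases List.mem_cons.1 hd with rfl | hd
          · exact h'
          · exact ih h d hd
    have hl6 : Lt6 c.1 := fun w hw d hd => (hlet w hw d hd).trans_le (nd_le k)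
    have hl6' : Lt6 c.2 := fun w hw => hl6 w (h6 w hw)
    refine ⟨(c.1.toFinset, c.2.toFinset), ⟨⟨by simpa using h1, ?_, ?_, ?_⟩, ?_, by simpa using h7,
      (List.toFinset_card_le _).trans h8⟩, ?_⟩
    · intro d w hw
      rw [List.mem_toFinset] at hw ⊢
      rcases h2 _ hw with h | ⟨h, _⟩
      · simp at h
      · exact h
    · intro d w hw
      rw [List.mem_toFinset] at hw
      exact hlet _ hw d (by simp)
    · intro v hv w hw e
      simp only [List.coe_toFinset] at hv hw
      rcases h3 v hv w hw with h | h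
      · exact h
      · rw [posZ_posC k v (hlet v hv), posZ_posC k w (hlet w hw)] at h
        exact absurd e h
    · intro w hw
      simp only [List.mem_toFinset] at hw ⊢
      exact h6 w hw
    · refine Prod.ext ?_ ?_
      · change norm c.1.toFinset.toList = c.1
        rw [← norm_congr hl6 (by rw [Finset.toList_toFinset]), h4]
      · change norm c.2.toFinset.toList = c.2
        rw [← norm_congr hl6' (by rw [Finset.toList_toFinset]), h5]
  · rintro ⟨o, ho, rfl⟩
    obtain ⟨h1, h2⟩ := enc_toFinset ho
    obtain ⟨h3, h4⟩ := enc_length ho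
    obtain ⟨h5, h6⟩ := lt6_of_ok ho
    have m1 : ∀ w, w ∈ (enc o).1 ↔ w ∈ o.1 := fun w => by rw [← List.mem_toFinset, h1]
    have m2 : ∀ w, w ∈ (enc o).2 ↔ w ∈ o.2 := fun w => by rw [← List.mem_toFinset, h2]
    refine ⟨(m1 _).2 ho.tr.nil, ?_, ?_, norm_norm h5, norm_norm h6, ?_, (m2 _).2 ho.nil,
      h4.trans_le ho.card⟩
    · intro w hw
      rw [m1] at hw
      cases w with
      | nil => exact Or.inl rfl
      | cons d w => exact Or.inr ⟨(m1 _).2 (ho.tr.tail d w hw), ho.tr.dir d w hw⟩
    · intro v hv w hw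
      rw [m1] at hv hw
      rw [posZ_posC k v (letters ho.tr hv), posZ_posC k w (letters ho.tr hw)]
      by_cases h : v = w
      · exact Or.inl h
      · exact Or.inr fun e => h (ho.tr.inj hv hw e)
    · intro w hw
      rw [m2] at hw
      exact (m1 _).2 (ho.sub hw)

/-! ### The horizontal path -/

theorem lineW_length (k : Kind) : ∀ i, (lineW k i).length = i
  | 0 => rfl
  | i + 1 => by simp [lineW, lineW_length k i]

theorem lineW_letters (k : Kind) : ∀ i, ∀ d ∈ lineW k i, d < nd k
  | 0 => by simp [lineW]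
  | i + 1 => by
    intro d hd
    simp only [lineW, List.mem_cons] at hd
    rcases hd with rfl | hd
    · cases k <;> simp [nd] <;> omega
    · exact lineW_letters k i d hd

theorem lineW_pos (k : Kind) : ∀ i : ℕ, pos k (lineW k i) = ((i : ℤ), 0)
  | 0 => by simp [lineW, pos]
  | i + 1 => by
    simp only [lineW, pos]
    rw [lineW_pos k i]
    cases k with
    | sq => simp [mul, sgn, stp, dirs]
    | tri => simp [mul, sgn, stp, dirs]
    | hex =>
      have h : i % 2 = 0 ∨ i % 2 = 1 := by omega
      rcases h with h | h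
      · have : ((i : ℤ) + 0) % 2 = 0 := by omega
        simp only [mul, sgn, this, if_true, stp, dirs, h]
        simp
      · have : ¬ ((i : ℤ) + 0) % 2 = 0 := by omega
        simp only [mul, sgn, this, if_false, stp, dirs, h]
        simp

theorem line_main (k : Kind) (n : ℕ) (hn : 1 ≤ n) :
    ∃ A, Tr k A ∧ A.card = n ∧ enc (A, {[]}) = lineC k n := by
  have hinj : Function.Injective (lineW k) := by
    intro i j h
    rw [← lineW_length k i, h, lineW_length]
  refine ⟨((List.range n).map (lineW k)).toFinset, ⟨?_, ?_, ?_, ?_⟩, ?_, ?_⟩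
  · rw [List.mem_toFinset, List.mem_map]
    exact ⟨0, List.mem_range.2 (by omega), rfl⟩
  · intro d w h
    rw [List.mem_toFinset, List.mem_map] at h ⊢
    obtain ⟨i, hi, he⟩ := h
    cases i with
    | zero => simp [lineW] at he
    | succ i =>
      simp only [lineW, List.cons.injEq] at he
      exact ⟨i, List.mem_range.2 (by have := List.mem_range.1 hi; omega), he.2⟩
  · intro d w h
    rw [List.mem_toFinset, List.mem_map] at h
    obtain ⟨i, hi, he⟩ := h
    exact lineW_letters k i d (by rw [he]; simp)
  · intro v hv w hw e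
    simp only [List.coe_toFinset, Set.mem_ofPred_eq, List.mem_map] at hv hw
    obtain ⟨i, _, rfl⟩ := hv
    obtain ⟨j, _, rfl⟩ := hw
    rw [lineW_pos, lineW_pos] at e
    simp only [Prod.mk.injEq, Nat.cast_inj, and_true] at e
    rw [e]
  · rw [List.toFinset_card_of_nodup (List.Nodup.map hinj List.nodup_range)]
    simp
  · refine Prod.ext ?_ ?_
    · change norm _ = norm _
      symm
      refine norm_congr ?_ (by rw [Finset.toList_toFinset])
      intro w hw d hd
      rw [List.mem_map] at hw
      obtain ⟨i, _, rfl⟩ := hw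
      exact (lineW_letters k i d hd).trans_le (nd_le k)
    · change norm (Finset.toList {[]}) = [[]]
      rw [Finset.toList_singleton]
      rfl

theorem code1_main : S_code1 := by
  refine ⟨fun l l' h e => norm_congr h e, fun l h => ⟨norm_toFinset h, (norm_spec l h).2⟩,
    validC_main, fun k o o' h h' e => enc_inj h h' e, ?_, fun k n hn => line_main k n hn, ?_, ?_⟩
  · intro k o h
    exact ⟨(enc_toFinset h).1, (enc_toFinset h).2, (enc_length h).1, (enc_length h).2⟩
  · refine Prod.ext ?_ ?_
    · change norm (Finset.toList {[]}) = [[]]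
      rw [Finset.toList_singleton]
      rfl
    · change norm (Finset.toList {[]}) = [[]]
      rw [Finset.toList_singleton]
      rfl
  · intro k o h
    constructor
    · intro e
      have := (enc_toFinset h).2
      rw [e] at this
      rw [← this]
      rfl
    · intro e
      change norm o.2.toList = [[]]
      rw [e, Finset.toList_singleton]
      rfl

end Pool.Agent.W955.LT
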