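import Pool.Agent.W955.LT.Code

/-!
# The pieces: statements

Every `S_xxx` is a proposition proved in a file of its own.
-/

namespace Pool.Agent.W955.LT

open Classical Prog

/-! ### Trees and objects -/

/-- Membership in the sets of trees and objects. -/
def S_trees : Prop :=
  (∀ k m A, A ∈ trees k m ↔ Tr k A ∧ A.card = m) ∧
  (∀ k m o, o ∈ objs k m ↔ Ok k o ∧ o.1.card = m)

/-- The parts of an object are objects. -/
def S_kids : Prop :=
  (∀ k a b c, mul k (mul k a b) c = mul k a (mul k b c)) ∧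
  (∀ k u v, pos k (u ++ v) = mul k (pos k v) (pos k u)) ∧
  (∀ k o b, Ok k o → b ∈ o.1 → b ≠ [] → (up o b).2.card ≤ 15 → (low o b).2.card ≤ 15 →
    Ok k (up o b) ∧ Ok k (low o b) ∧ (up o b).1.card + (low o b).1.card = o.1.card) ∧
  (∀ k o b c, Ok k o → isCut o b → isCut o c → b = c) ∧
  (∀ k o, Ok k o → kids o = (none, none) ∨
    ∃ b, isCut o b ∧ kids o = (some (up o b), some (low o b)) ∧ Ok k (up o b) ∧ Ok k (low o b) ∧
      (up o b).1.card + (low o b).1.card = o.1.card ∧ 1 ≤ (up o b).1.card ∧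
      1 ≤ (low o b).1.card) ∧
  (∀ k o, Ok k o → o.1.card = 1 → o = pt) ∧ (∀ k, Ok k pt) ∧ kids pt = (none, none)

/-- Every object with at least two vertices has a good address. -/
def S_good : Prop := ∀ k o, Ok k o → 2 ≤ o.1.card → ∃ b, good o b

/-- The height of the decomposition of an object with a single mark. -/
def S_height : Prop := ∀ k o, Ok k o → o.2 = {[]} →
  Ht (2 * lev o.1.card) (kids o).1 ∧ Ht (2 * lev o.1.card) (kids o).2

/-- The number of size reductions is logarithmic. -/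
def S_lev : Prop := ∀ m, 1 ≤ m → 2 ^ lev m ≤ m ^ 6

/-! ### Concatenation -/

/-- The direction of a step taken backwards. -/
def dinv (k : Kind) (d : ℕ) : ℕ :=
  match k with
  | .hex => d
  | _ => if d % 2 = 0 then d + 1 else d - 1

/-- Rerooting a tree at the neighbour of the root in direction `d`. -/
def rho (k : Kind) (d : ℕ) (A : Finset (List ℕ)) : Finset (List ℕ) :=
  A.image (fun w => if [d] <:+ w then w.dropLast else w ++ [dinv k d])

/-- Rerooting a tree at the vertex with address `r`. -/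
def rrt (k : Kind) (r : List ℕ) (A : Finset (List ℕ)) : Finset (List ℕ) := r.foldr (rho k) A

/-- Rerooting is an invertible operation on trees. -/
def S_root : Prop := ∀ k r A, Tr k A → r ∈ A →
  Tr k (rrt k r A) ∧ (rrt k r A).card = A.card ∧ (r.map (dinv k)).reverse ∈ rrt k r A ∧
  rrt k (r.map (dinv k)).reverse (rrt k r A) = A ∧
  ∀ x, x ∈ (rrt k r A).image (pos k) ↔ mul k (pos k r) x ∈ A.image (pos k)

/-- The numbers of trees are supermultiplicative up to a polynomial factor. -/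
def S_concat : Prop := ∃ P : Polynomial ℕ, ∀ k a b, 1 ≤ a → 1 ≤ b →
  tn k a * tn k b ≤ P.eval (a + b) * tn k (a + b)

/-! ### Completions of patterns -/

/-- The objects `xs` are placed at the addresses `us` in `z`, disjointly. -/
def PlacedL (z : Obj) (xs : List Obj) (us : List (List ℕ)) : Prop :=
  List.Forall₂ (fun x u => Placed z x u) xs us ∧
  (xs.zip us).Pairwise (fun s t =>
    Disjoint (s.1.1.image (fun w => w ++ s.2)) (t.1.1.image (fun w => w ++ t.2)))

/-- Patterns are realised by disjointly placed objects. -/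
def S_place : Prop := ∀ (p : Pat Obj) (z : Obj), p.holds kids z → ∃ us, PlacedL z p.atoms us

/-- `A` is obtained by gluing the members of the list (the last one is the bottom one). -/
inductive Glued (q : ℕ) : List (Finset (List ℕ)) → Finset (List ℕ) → Prop
  | one (B : Finset (List ℕ)) : Glued q [B] B
  | glue (B A : Finset (List ℕ)) (Bs : List (Finset (List ℕ))) (v : List ℕ) (d : ℕ) :
      Glued q Bs A → v ∈ A → d < q → (∀ w ∈ B, w ++ d :: v ∉ A) →
      Glued q (B :: Bs) (A ∪ B.image (fun w => w ++ d :: v))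

/-- A tree with placed objects is glued from few blocks, the placed trees being among them. -/
def S_glue : Prop := ∀ k (A S : Finset (List ℕ)) (xs : List Obj) (us : List (List ℕ)),
  Ok k (A, S) → (∀ x ∈ xs, Ok k x) → xs ≠ [] → PlacedL (A, S) xs us →
  ∃ Bs : List (Finset (List ℕ)), Glued (nd k) Bs A ∧ (∀ B ∈ Bs, Tr k B) ∧
    Bs.length ≤ 100 * xs.length ∧
    ∃ is : List ℕ, is.Nodup ∧ List.Forall₂ (fun x i => Bs[i]? = some x.1) xs is

/-- The number of trees with given placed objects. -/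
def S_count : Prop := ∃ q : Polynomial ℕ, ∀ k (xs : List Obj) (m : ℕ), xs ≠ [] →
  (∀ x ∈ xs, Ok k x) → 1 ≤ m →
  ((trees k m).filter (fun A => ∃ S us, Ok k (A, S) ∧ PlacedL (A, S) xs us)).card *
    (xs.map (fun x => tn k x.1.card)).prod ≤ q.eval m ^ xs.length * tn k m

/-- The number of objects which satisfy a pattern. -/
def S_cb : Prop := ∃ q : Polynomial ℕ, (∀ m, 1 ≤ q.eval m) ∧ ∀ k (p : Pat Obj) (m : ℕ),
  (∀ x ∈ p.atoms, Ok k x) →
  ((objs k m).filter (fun z => p.holds kids z)).card *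
      (p.atoms.map (fun x => (objs k x.1.card).card)).prod ≤
    q.eval m ^ p.atoms.length * (objs k m).card ∧
  (((objs k m).filter (fun z => z.2 = {[]})).filter (fun z => p.holds kids z)).card *
      (p.atoms.map (fun x => (objs k x.1.card).card)).prod ≤
    q.eval m ^ p.atoms.length * ((objs k m).filter (fun z => z.2 = {[]})).card

/-! ### Codes -/

/-- Codes of objects, first part. -/
def S_code1 : Prop :=
  (∀ l l' : List (List ℕ), (∀ w ∈ l, ∀ d ∈ w, d < 6) → l.toFinset = l'.toFinset →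
    norm l = norm l') ∧
  (∀ l : List (List ℕ), (∀ w ∈ l, ∀ d ∈ w, d < 6) → (norm l).toFinset = l.toFinset ∧
    (norm l).Pairwise (fun v w => key v < key w)) ∧
  (∀ k c, validC k c = true ↔ ∃ o, Ok k o ∧ enc o = c) ∧
  (∀ k o o', Ok k o → Ok k o' → enc o = enc o' → o = o') ∧
  (∀ k o, Ok k o → (enc o).1.toFinset = o.1 ∧ (enc o).2.toFinset = o.2 ∧
    (enc o).1.length = o.1.card ∧ (enc o).2.length = o.2.card) ∧
  (∀ k n, 1 ≤ n → ∃ A, Tr k A ∧ A.card = n ∧ enc (A, {[]}) = lineC k n) ∧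
  enc pt = ([[]], [[]]) ∧
  (∀ k o, Ok k o → ((enc o).2 = [[]] ↔ o.2 = {[]}))

/-- Codes of objects, second part. -/
def S_code2 : Prop :=
  (∀ k o, Ok k o → kidsC k (enc o) = ((kids o).1.map enc, (kids o).2.map enc)) ∧
  (∀ k a b z, z ∈ candC k a b ↔ validC k z = true ∧ kidsC k z = (some a, some b)) ∧
  (∀ k a b, (candC k a b).Nodup) ∧
  (∀ k a b, (candC k a b).length ≤ 360) ∧
  (∀ k, validC k ([[]], [[]]) = true ∧ kidsC k ([[]], [[]]) = (none, none)) ∧
  (∀ k c a, validC k c = true → ((kidsC k c).1 = some a ∨ (kidsC k c).2 = some a) →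
    validC k a = true ∧ a.1.length < c.1.length)

/-! ### Lattice trees -/

/-- Lattice trees with `n` vertices. -/
structure IsLT (k : Kind) (n : ℕ) (H : (lattice k).Subgraph) : Prop where
  tree : H.coe.IsTree
  zero : ((0, 0) : ℤ × ℤ) ∈ H.verts
  card : H.verts.ncard = n

/-- `l` lists the edges of `H`; the vertices of `H` are the origin and the ends of the edges. -/
def EdgeList {k : Kind} (l : List ((ℤ × ℤ) × (ℤ × ℤ))) (H : (lattice k).Subgraph) : Prop :=
  (∀ v, v ∈ H.verts ↔ v = (0, 0) ∨ ∃ e ∈ l, v = e.1 ∨ v = e.2) ∧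
  ∀ u v, H.Adj u v ↔ (u, v) ∈ l ∨ (v, u) ∈ l

/-- Lattice trees correspond to sets of addresses. -/
def S_bridge : Prop := ∀ k n, 1 ≤ n → ∃ Φ : Finset (List ℕ) → (lattice k).Subgraph,
  Set.BijOn Φ {A | Tr k A ∧ A.card = n} {H | IsLT k n H} ∧
  ∀ A, Tr k A → A.card = n → ∀ l : List (List ℕ), l.toFinset = A → ∀ s,
    EdgeList (edgesC k (l, s)) (Φ A)

/-! ### Programs -/

/-- Tapes: the average over all tapes is the expectation up to a small error. -/
def S_tape : Prop := ∀ (α : Type) (p : Prog α) (W T B M : ℕ) (f : α → ℝ), p.Bd W T → T * B ≤ M →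
  (∀ a, 0 ≤ f a ∧ f a ≤ 1) →
  |(∑ t : Fin M → Bool, f (p.run B (List.ofFn t)).1) / 2 ^ M - p.E f| ≤ T * W / 2 ^ B

/-- Possible results hold for all tapes. -/
def S_run : Prop := ∀ (α : Type) (P : α → Prop) (p : Prog α) (B : ℕ) (t : List Bool),
  p.All P → P (p.run B t).1

/-- The level by level version has the same expectations. -/
def S_lvl : Prop := ∀ (O : Type) (S : Sys O) (R J : ℕ) (x : O) (f : O → ℝ),
  (S.chainL R J x).E f = (S.chain R J x).E f

/-- Bounds for the numbers and the number of draws. -/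
def S_inv : Prop := ∀ (O : Type) (S : Sys O) (P : O → Prop) (cc R J : ℕ), 1 ≤ S.n → 1 ≤ S.N →
  P S.pt → (∀ x, P x → ∀ a, (S.kids x).1 = some a ∨ (S.kids x).2 = some a → P a) →
  (∀ a b z, z ∈ S.cand a b → S.size z ≤ S.n → P z) → (∀ a b, (S.cand a b).length ≤ cc) →
  (∀ r xs, (∀ o, some o ∈ xs → P o) →
    (S.poolL r xs).All (fun l => l.length = xs.length ∧
      ∀ p ∈ l, S.PlOk P ((S.N + S.n * (1 + S.N ^ 2 * cc)) ^ (2 ^ (r + 1) - 1)) p)) ∧
  (∀ x, P x → (S.chainL R J x).Bd ((S.N + S.n * (1 + S.N ^ 2 * cc)) ^ 2 ^ (R + 2))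
    (J * (2 ^ (R + 1) * (2 * S.N + 1) + 1)) ∧ (S.chainL R J x).All P)

/-- The final objects. -/
def S_top : Prop := ∀ (O : Type) (S : Sys O) (R J : ℕ) (x : O), S.size S.pt = 1 →
  S.size x = S.n → S.top x = true →
  (S.chainL R J x).All (fun y => S.size y = S.n ∧ S.top y = true)

/-- Mixing of the chain. -/
def S_gen : Prop := ∀ (O : Type) (S : Sys O) (U : Finset O) (q : ℝ) (R J : ℕ) (x : O) (f : O → ℝ),
  S.Law U q R → x ∈ U → S.size x = S.n → S.top x = true → (∀ y, 0 ≤ f y ∧ f y ≤ 1) →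
  |(S.chain R J x).E f - (∑ y ∈ U.filter (fun z => S.size z = S.n ∧ S.top z = true), f y) /
    ((U.filter (fun z => S.size z = S.n ∧ S.top z = true)).card : ℝ)| ≤ (3 / 4) ^ J

end Pool.Agent.W955.LT
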