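import Pool.Agent.W955.LT.Ex
import Pool.Agent.W955.LT.Stm

/-!
# Bounds on the numbers and on the number of draws
-/

namespace Pool.Agent.W955.LT

open Prog

namespace Prog

variable {α β : Type}

theorem Bd.mono {W W' : ℕ} (hW : W ≤ W') : ∀ (p : Prog α) (T T' : ℕ), T ≤ T' → p.Bd W T →
    p.Bd W' T'
  | ret a, T, T', _, _ => by cases T' <;> trivial
  | draw w k, 0, T', _, h => absurd h (by simp [Bd])
  | draw w k, T + 1, 0, hT, h => absurd hT (by omega)
  | draw w k, T + 1, T' + 1, hT, h =>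
    ⟨h.1.trans hW, fun u hu => Bd.mono hW (k u) T T' (by omega) (h.2 u hu)⟩

theorem Bd_ret (W T : ℕ) (a : α) : (ret a : Prog α).Bd W T := by cases T <;> trivial

theorem Bd_bind {P : α → Prop} {W : ℕ} {g : α → Prog β} {T2 : ℕ} :
    ∀ (p : Prog α) (T1 : ℕ), p.All P → p.Bd W T1 → (∀ a, P a → (g a).Bd W T2) →
      (p.bind g).Bd W (T1 + T2)
  | ret a, T1, hp, _, hg => Bd.mono le_rfl _ T2 _ (Nat.le_add_left _ _) (hg a hp)
  | draw w k, 0, _, h, _ => absurd h (by simp [Bd])
  | draw w k, T1 + 1, hp, h, hg => by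
    rw [Nat.succ_add]
    exact ⟨h.1, fun u hu => Bd_bind (k u) T1 (hp u hu) (h.2 u hu) hg⟩

theorem Bd_rep {W T : ℕ} (p : Prog α) (hp : p.Bd W T) : ∀ n : ℕ, (rep n p).Bd W (n * T)
  | 0 => Bd_ret _ _ _
  | n + 1 => by
    have : (n + 1) * T = T + (n * T + 0) := by ring
    rw [this]
    exact Bd_bind p T (all_true p) hp fun a _ =>
      Bd_bind _ _ (all_true _) (Bd_rep p hp n) fun l _ => Bd_ret _ _ _

theorem all_rep {P : α → Prop} (p : Prog α) (hp : p.All P) : ∀ n : ℕ,
    (rep n p).All (fun l => l.length = n ∧ ∀ a ∈ l, P a)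
  | 0 => ⟨rfl, by simp⟩
  | n + 1 => all_bind p hp _ fun a ha => all_bind _ (all_rep p hp n) _ fun l hl => by
    refine ⟨by simp [hl.1], fun b hb => ?_⟩
    rcases List.mem_cons.1 hb with h | h
    · rwa [h]
    · exact hl.2 b h

theorem all_and {P Q : α → Prop} (p : Prog α) (hp : p.All P) (hq : p.All Q) :
    p.All (fun a => P a ∧ Q a) := by
  induction p with
  | ret a => exact ⟨hp, hq⟩
  | draw w k ih => intro u hu; exact ih u (hp u hu) (hq u hu)

end Prog

namespace Sys

variable {O : Type} (S : Sys O)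

theorem sel_mem : ∀ (l : List (ℕ × O)) (u : ℕ) (z : O), sel l u = some z → ∃ w, (w, z) ∈ l
  | [], u, z, h => by simp [sel] at h
  | (w, x) :: l, u, z, h => by
    rw [sel] at h
    split_ifs at h with h1
    · rw [Option.some_inj] at h
      subst h
      exact ⟨w, by simp⟩
    · obtain ⟨w', hw'⟩ := sel_mem l _ z h
      exact ⟨w', by simp [hw']⟩

theorem pick_all (l : List (ℕ × O)) :
    (pick l).All (fun e => ∀ z, e = some z → ∃ w, (w, z) ∈ l) := by
  rw [pick]
  split_ifs
  · intro z hz; simp at hz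
  · intro u _ z hz
    exact sel_mem l u z hz

theorem pick_bd (l : List (ℕ × O)) (W : ℕ) (h : total l ≤ W) : (pick l).Bd W 1 := by
  rw [pick]
  split_ifs with h0
  · exact Bd_ret _ _ _
  · exact ⟨by omega, fun u _ => Bd_ret _ _ _⟩

variable {S} {P : O → Prop} {cc : ℕ}

theorem mem_cs (p1 p2 : Pl O) (m : ℕ) (w : ℕ) (z : O) (h : (w, z) ∈ S.cs p1 p2 m) :
    (m = 1 ∧ z = S.pt) ∨ ∃ a b, z ∈ S.cand a b ∧ S.size z = m := by
  simp only [cs, List.mem_append, List.mem_flatMap] at h
  rcases h with h | ⟨x, _, y, _, h⟩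
  · split_ifs at h with hm
    · simp only [List.mem_singleton, Prod.mk.injEq] at h
      exact Or.inl ⟨hm, h.2⟩
    · simp at h
  · cases x with
    | none => simp [cxy] at h
    | some a =>
      cases y with
      | none => simp [cxy] at h
      | some b =>
        simp only [cxy, List.mem_map, List.mem_filter, decide_eq_true_eq] at h
        obtain ⟨z', ⟨h1, h2⟩, h3⟩ := h
        simp only [Prod.mk.injEq] at h3
        rw [← h3.2]
        exact Or.inr ⟨a, b, h1, h2⟩

theorem total_append (l l' : List (ℕ × O)) : total (l ++ l') = total l + total l' := by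
  simp [total]

theorem total_le_length (l : List (ℕ × O)) (D : ℕ) (h : ∀ q ∈ l, q.1 ≤ D) :
    total l ≤ l.length * D := by
  induction l with
  | nil => simp [total]
  | cons a l ih =>
    have h1 := ih fun q hq => h q (List.mem_cons_of_mem _ hq)
    have h2 := h a (by simp)
    have h3 : total (a :: l) = a.1 + total l := by simp [total]
    rw [h3, List.length_cons, Nat.succ_mul]
    omega

theorem total_flatMap {α : Type} (l : List α) (f : α → List (ℕ × O)) (D : ℕ)
    (h : ∀ a ∈ l, total (f a) ≤ D) : total (l.flatMap f) ≤ l.length * D := by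
  induction l with
  | nil => simp [total]
  | cons a l ih =>
    have h1 := ih fun q hq => h q (List.mem_cons_of_mem _ hq)
    have h2 := h a (by simp)
    rw [List.flatMap_cons, total_append, List.length_cons, Nat.succ_mul]
    omega

theorem wt_le (p : Pl O) (D : ℕ) (hp : S.PlOk P D p) (m : ℕ) : wt p m ≤ D := by
  rw [wt, List.getD_eq_getElem?_getD]
  cases h : p.2.1[m]? with
  | none => exact Nat.zero_le _
  | some w => exact hp.wt w (List.mem_of_getElem? h)

theorem total_cs_le (hcc : ∀ a b, (S.cand a b).length ≤ cc) (D : ℕ) (p1 p2 : Pl O)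
    (h1 : S.PlOk P D p1) (h2 : S.PlOk P D p2) (m : ℕ) :
    total (S.cs p1 p2 m) ≤ (1 + S.N ^ 2 * cc) * (D * D) := by
  have e1 : total (if m = 1 then [(p1.1 * p2.1, S.pt)] else []) ≤ D * D := by
    split_ifs
    · simpa [total] using Nat.mul_le_mul h1.den h2.den
    · simp [total]
  have e2 : ∀ x y, total (S.cxy p1 p2 m x y) ≤ cc * (D * D) := by
    intro x y
    match x, y with
    | none, _ => simp [cxy, total]
    | some a, none => simp [cxy, total]
    | some a, some b =>
      refine (total_le_length _ (D * D) ?_).trans (Nat.mul_le_mul_right _ ?_)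
      · intro q hq
        simp only [cxy, List.mem_map] at hq
        obtain ⟨z, _, rfl⟩ := hq
        exact Nat.mul_le_mul (wt_le p1 D h1 _) (wt_le p2 D h2 _)
      · simp only [cxy, List.length_map]
        exact (List.length_filter_le _ _).trans (hcc a b)
  have e3 := total_flatMap p1.2.2 (fun x => p2.2.2.flatMap (fun y => S.cxy p1 p2 m x y))
    (S.N * (cc * (D * D))) (fun x _ => by
      have := total_flatMap p2.2.2 (fun y => S.cxy p1 p2 m x y) (cc * (D * D))
        (fun y _ => e2 x y)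
      rwa [h2.num] at this)
  rw [h1.num] at e3
  rw [cs, total_append]
  have e4 : (1 + S.N ^ 2 * cc) * (D * D) = D * D + S.N * (S.N * (cc * (D * D))) := by ring
  rw [e4]
  omega

/-- The bound of the numbers. -/
def Gc (S : Sys O) (cc : ℕ) : ℕ := S.N + S.n * (1 + S.N ^ 2 * cc)

/-- The hypotheses. -/
structure Hyp (S : Sys O) (P : O → Prop) (cc : ℕ) : Prop where
  hn : 1 ≤ S.n
  hN : 1 ≤ S.N
  pt : P S.pt
  kids : ∀ x, P x → ∀ a, (S.kids x).1 = some a ∨ (S.kids x).2 = some a → P a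
  cand : ∀ a b z, z ∈ S.cand a b → S.size z ≤ S.n → P z
  cc : ∀ a b, (S.cand a b).length ≤ cc

theorem Hyp.G_pos (H : S.Hyp P cc) : 1 ≤ S.Gc cc := by
  have := H.hN
  unfold Gc
  omega

theorem cs_P (H : S.Hyp P cc) (p1 p2 : Pl O) (m : ℕ) (hm : m ≤ S.n) (w : ℕ) (z : O)
    (h : (w, z) ∈ S.cs p1 p2 m) : P z := by
  rcases mem_cs p1 p2 m w z h with ⟨_, rfl⟩ | ⟨a, b, h1, h2⟩
  · exact H.pt
  · exact H.cand a b z h1 (by omega)

theorem mkp_ok (H : S.Hyp P cc) (D : ℕ) (p1 p2 : Pl O) (h1 : S.PlOk P D p1)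
    (h2 : S.PlOk P D p2) (l : List (Option O)) (hl : l.length = S.N)
    (hl' : ∀ o, some o ∈ l → P o) : S.PlOk P (S.Gc cc * (D * D)) (S.mkp p1 p2 l) where
  den := by
    change S.N * p1.1 * p2.1 ≤ _
    rw [mul_assoc]
    refine Nat.mul_le_mul ?_ (Nat.mul_le_mul h1.den h2.den)
    unfold Gc
    omega
  len := by simp [mkp]
  wt := by
    intro w hw
    simp only [mkp, List.mem_map] at hw
    obtain ⟨m, _, rfl⟩ := hw
    have := Nat.mul_le_mul_left S.n (total_cs_le H.cc D p1 p2 h1 h2 m)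
    refine this.trans ?_
    rw [← mul_assoc]
    refine Nat.mul_le_mul_right _ ?_
    unfold Gc
    omega
  num := hl
  mem := hl'

theorem particle_all (H : S.Hyp P cc) (p1 p2 : Pl O) :
    (S.particle p1 p2).All (fun e => ∀ z, e = some z → P z) := by
  intro u hu
  refine all_mono _ (pick_all _) fun e he z hz => ?_
  obtain ⟨w, hw⟩ := he z hz
  have := H.hn
  exact cs_P H p1 p2 (u + 1) (by omega) w z hw

theorem comb_all (H : S.Hyp P cc) (D : ℕ) (p1 p2 : Pl O) (h1 : S.PlOk P D p1)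
    (h2 : S.PlOk P D p2) (x : Option O) (hx : ∀ o, x = some o → P o) :
    (S.comb p1 p2 x).All (S.PlOk P (S.Gc cc * (D * D))) := by
  refine all_bind _ (all_rep _ (particle_all H p1 p2) S.N) _ fun l hl => ?_
  have hl' : ∀ o, some o ∈ l → P o := fun o ho => hl.2 _ ho o rfl
  cases x with
  | none => exact mkp_ok H D p1 p2 h1 h2 l hl.1 hl'
  | some o =>
    intro j _
    refine mkp_ok H D p1 p2 h1 h2 _ (by simp [hl.1]) fun o' ho' => ?_
    rcases List.mem_or_eq_of_mem_set ho' with h | h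
    · exact hl' o' h
    · rw [Option.some_inj] at h
      rw [h]
      exact hx o rfl

theorem comb_bd (H : S.Hyp P cc) (D W : ℕ) (p1 p2 : Pl O) (h1 : S.PlOk P D p1)
    (h2 : S.PlOk P D p2) (x : Option O) (hW : (1 + S.N ^ 2 * cc) * (D * D) ≤ W)
    (hn : S.n ≤ W) (hN : S.N ≤ W) : (S.comb p1 p2 x).Bd W (2 * S.N + 1) := by
  have hn1 := H.hn
  have hN1 := H.hN
  have hp : (S.particle p1 p2).Bd W 2 :=
    ⟨by omega, fun u _ => pick_bd _ _ ((total_cs_le H.cc D p1 p2 h1 h2 _).trans hW)⟩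
  have e : 2 * S.N + 1 = S.N * 2 + 1 := by ring
  rw [e]
  refine Bd_bind _ _ (all_true _) (Bd_rep _ hp S.N) fun l _ => ?_
  cases x with
  | none => exact Bd_ret _ _ _
  | some o => exact ⟨by omega, fun j _ => Bd_ret _ _ _⟩

theorem combL_all (H : S.Hyp P cc) (D : ℕ) : ∀ (xs : List (Option O)) (ps : List (Pl O)),
    ps.length = 2 * xs.length → (∀ p ∈ ps, S.PlOk P D p) → (∀ o, some o ∈ xs → P o) →
    (S.combL ps xs).All (fun l => l.length = xs.length ∧
      ∀ p ∈ l, S.PlOk P (S.Gc cc * (D * D)) p)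
  | [], ps, hl, hp, hx => by
    have : ps = [] := List.length_eq_zero_iff.1 (by simpa using hl)
    subst this
    exact ⟨rfl, by simp⟩
  | x :: xs, [], hl, hp, hx => by simp at hl
  | x :: xs, [p], hl, hp, hx => by simp at hl; omega
  | x :: xs, p1 :: p2 :: ps, hl, hp, hx => by
    rw [combL]
    refine all_bind _ (comb_all H D p1 p2 (hp _ (by simp)) (hp _ (by simp)) x
      fun o ho => hx o (by simp [ho])) _ fun p hp' => ?_
    refine all_bind _ (combL_all H D xs ps (by simp at hl; omega)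
      (fun q hq => hp q (by simp [hq])) (fun o ho => hx o (by simp [ho]))) _ fun l hl' => ?_
    refine ⟨by simp [hl'.1], fun q hq => ?_⟩
    rcases List.mem_cons.1 hq with h | h
    · rwa [h]
    · exact hl'.2 q h

theorem combL_bd (H : S.Hyp P cc) (D W : ℕ) (hW : (1 + S.N ^ 2 * cc) * (D * D) ≤ W)
    (hn : S.n ≤ W) (hN : S.N ≤ W) : ∀ (xs : List (Option O)) (ps : List (Pl O)),
    (∀ p ∈ ps, S.PlOk P D p) → (S.combL ps xs).Bd W (xs.length * (2 * S.N + 1))
  | [], [], _ => Bd_ret _ _ _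
  | [], [p], _ => Bd_ret _ _ _
  | [], p1 :: p2 :: ps, _ => Bd_ret _ _ _
  | x :: xs, [], _ => Bd_ret _ _ _
  | x :: xs, [p], _ => Bd_ret _ _ _
  | x :: xs, p1 :: p2 :: ps, hp => by
    rw [combL]
    have e : (x :: xs).length * (2 * S.N + 1) =
        (2 * S.N + 1) + (xs.length * (2 * S.N + 1) + 0) := by
      rw [List.length_cons]; ring
    rw [e]
    refine Bd_bind _ _ (all_true _) (comb_bd H D W p1 p2 (hp _ (by simp)) (hp _ (by simp)) x hW hn
      hN) fun p _ => ?_
    exact Bd_bind _ _ (all_true _) (combL_bd H D W hW hn hN xs ps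
      fun q hq => hp q (by simp [hq])) fun l _ => Bd_ret _ _ _

theorem kdL_length (xs : List (Option O)) : (S.kdL xs).length = 2 * xs.length := by
  induction xs with
  | nil => rfl
  | cons x xs ih =>
    rw [kdL, List.flatMap_cons, List.length_append]
    change 2 + (S.kdL xs).length = _
    rw [ih, List.length_cons]
    ring

theorem kd_P (H : S.Hyp P cc) (x : Option O) (hx : ∀ o, x = some o → P o) :
    (∀ o, (S.kd x).1 = some o → P o) ∧ (∀ o, (S.kd x).2 = some o → P o) := by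
  cases x with
  | none => exact ⟨fun o h => by simp [kd] at h, fun o h => by simp [kd] at h⟩
  | some a =>
    exact ⟨fun o h => H.kids a (hx a rfl) o (Or.inl h),
      fun o h => H.kids a (hx a rfl) o (Or.inr h)⟩

theorem kdL_P (H : S.Hyp P cc) (xs : List (Option O)) (hx : ∀ o, some o ∈ xs → P o) :
    ∀ o, some o ∈ S.kdL xs → P o := by
  intro o ho
  simp only [kdL, List.mem_flatMap] at ho
  obtain ⟨x, hx', h⟩ := ho
  have := kd_P H x (fun a ha => hx a (by rw [← ha]; exact hx'))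
  simp only [List.mem_cons, List.not_mem_nil, or_false] at h
  rcases h with h | h
  · exact this.1 o h.symm
  · exact this.2 o h.symm

theorem base_plok (H : S.Hyp P cc) : S.PlOk P (S.Gc cc) S.base where
  den := by
    change S.N ≤ _
    unfold Gc; omega
  len := by simp [base]
  wt := by
    intro w hw
    have := H.G_pos
    simp only [base, List.mem_map] at hw
    obtain ⟨m, _, rfl⟩ := hw
    split_ifs <;> omega
  num := by simp [base]
  mem := by
    intro o ho
    simp only [base, List.mem_replicate] at ho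
    have := ho.2
    rw [Option.some_inj] at this
    rw [this]
    exact H.pt

theorem pow_exp (G r : ℕ) : G * (G ^ (2 ^ (r + 1) - 1) * G ^ (2 ^ (r + 1) - 1)) =
    G ^ (2 ^ (r + 2) - 1) := by
  have h : 2 ^ (r + 2) - 1 = 1 + ((2 ^ (r + 1) - 1) + (2 ^ (r + 1) - 1)) := by
    have : 1 ≤ 2 ^ (r + 1) := Nat.one_le_two_pow
    rw [pow_succ 2 (r + 1)]
    omega
  rw [h]
  ring

theorem poolL_all (H : S.Hyp P cc) : ∀ (r : ℕ) (xs : List (Option O)),
    (∀ o, some o ∈ xs → P o) → (S.poolL r xs).All (fun l => l.length = xs.length ∧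
      ∀ p ∈ l, S.PlOk P (S.Gc cc ^ (2 ^ (r + 1) - 1)) p)
  | 0, xs, _ => by
    refine ⟨by simp, fun p hp => ?_⟩
    rw [List.mem_map] at hp
    obtain ⟨_, _, rfl⟩ := hp
    have : 2 ^ (0 + 1) - 1 = 1 := rfl
    rw [this, pow_one]
    exact base_plok H
  | r + 1, xs, hx => by
    rw [poolL]
    refine all_bind _ (poolL_all H r _ (kdL_P H xs hx)) _ fun ps hps => ?_
    rw [← pow_exp]
    exact combL_all H _ xs ps (by rw [hps.1, kdL_length]) hps.2 hx

theorem poolL_bd (H : S.Hyp P cc) (R W : ℕ)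
    (hW : (1 + S.N ^ 2 * cc) * (S.Gc cc ^ (2 ^ (R + 1) - 1) * S.Gc cc ^ (2 ^ (R + 1) - 1)) ≤ W)
    (hn : S.n ≤ W) (hN : S.N ≤ W) : ∀ (r : ℕ), r ≤ R → ∀ (xs : List (Option O)),
    (∀ o, some o ∈ xs → P o) →
    (S.poolL r xs).Bd W (xs.length * ((2 ^ r - 1) * (2 * S.N + 1)))
  | 0, _, xs, _ => by rw [poolL]; exact Bd_ret _ _ _
  | r + 1, hr, xs, hx => by
    rw [poolL]
    have e : xs.length * ((2 ^ (r + 1) - 1) * (2 * S.N + 1)) =
        (S.kdL xs).length * ((2 ^ r - 1) * (2 * S.N + 1)) + xs.length * (2 * S.N + 1) := by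
      rw [kdL_length]
      have h1 : 2 ^ (r + 1) - 1 = 2 * (2 ^ r - 1) + 1 := by
        have : 1 ≤ 2 ^ r := Nat.one_le_two_pow
        rw [pow_succ]
        omega
      rw [h1]
      ring
    rw [e]
    refine Bd_bind _ _ (poolL_all H r _ (kdL_P H xs hx))
      (poolL_bd H R W hW hn hN r (by omega) _ (kdL_P H xs hx)) fun ps hps => ?_
    refine combL_bd H _ W (le_trans ?_ hW) hn hN xs ps hps.2
    refine Nat.mul_le_mul_left _ ?_
    have : S.Gc cc ^ (2 ^ (r + 1) - 1) ≤ S.Gc cc ^ (2 ^ (R + 1) - 1) := by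
      refine Nat.pow_le_pow_right H.G_pos ?_
      have : 2 ^ (r + 1) ≤ 2 ^ (R + 1) := Nat.pow_le_pow_right (by norm_num) (by omega)
      omega
    exact Nat.mul_le_mul this this

theorem ts_sublist_total (p1 p2 : Pl O) : total (S.ts p1 p2) ≤ total (S.cs p1 p2 S.n) := by
  have : ∀ l : List (ℕ × O), total (l.filter (fun q => S.top q.2)) ≤ total l := by
    intro l
    induction l with
    | nil => simp [total]
    | cons a l ih =>
      rw [List.filter_cons]
      have h3 : ∀ l' : List (ℕ × O), total (a :: l') = a.1 + total l' := by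
        intro l'; simp [total]
      split_ifs
      · rw [h3, h3]; omega
      · rw [h3]; omega
  exact this _

theorem step_all (H : S.Hyp P cc) (R : ℕ) (x : O) (hx : P x) : (S.stepL R x).All P := by
  rw [stepL]
  refine all_bind _ (all_true _) _ fun ps _ => ?_
  match ps with
  | [] => exact hx
  | [p] => exact hx
  | p1 :: p2 :: ps =>
    refine all_bind _ (pick_all _) _ fun y hy => ?_
    cases y with
    | none => exact hx
    | some z =>
      obtain ⟨w, hw⟩ := hy z rfl
      exact cs_P H p1 p2 S.n le_rfl w z (List.mem_of_mem_filter hw)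

theorem step_bd (H : S.Hyp P cc) (R : ℕ) (x : O) (hx : P x) :
    (S.stepL R x).Bd (S.Gc cc ^ 2 ^ (R + 2)) (2 ^ (R + 1) * (2 * S.N + 1) + 1) := by
  have hG := H.G_pos
  have hW : (1 + S.N ^ 2 * cc) * (S.Gc cc ^ (2 ^ (R + 1) - 1) * S.Gc cc ^ (2 ^ (R + 1) - 1)) ≤
      S.Gc cc ^ 2 ^ (R + 2) := by
    have h1 : 1 + S.N ^ 2 * cc ≤ S.Gc cc := by
      have := Nat.mul_le_mul_right (1 + S.N ^ 2 * cc) H.hn
      unfold Gc
      omega
    refine (Nat.mul_le_mul_right _ h1).trans ?_
    rw [pow_exp]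
    exact Nat.pow_le_pow_right hG (Nat.sub_le _ _)
  have hGW : S.Gc cc ≤ S.Gc cc ^ 2 ^ (R + 2) := by
    have := Nat.pow_le_pow_right hG (show 1 ≤ 2 ^ (R + 2) from Nat.one_le_two_pow)
    rwa [pow_one] at this
  have hn : S.n ≤ S.Gc cc ^ 2 ^ (R + 2) := by
    refine le_trans ?_ hGW
    have := Nat.mul_le_mul_left S.n (show 1 ≤ 1 + S.N ^ 2 * cc by omega)
    unfold Gc
    omega
  have hN : S.N ≤ S.Gc cc ^ 2 ^ (R + 2) := by
    refine le_trans ?_ hGW
    unfold Gc
    omega
  have hx' : ∀ o, some o ∈ [(S.kids x).1, (S.kids x).2] → P o := by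
    intro o ho
    simp only [List.mem_cons, List.not_mem_nil, or_false] at ho
    exact H.kids x hx o (ho.imp Eq.symm Eq.symm)
  have e : 2 * ((2 ^ R - 1) * (2 * S.N + 1)) + 1 ≤ 2 ^ (R + 1) * (2 * S.N + 1) + 1 := by
    have : 2 * ((2 ^ R - 1) * (2 * S.N + 1)) = (2 * (2 ^ R - 1)) * (2 * S.N + 1) := by ring
    rw [this]
    refine Nat.add_le_add_right (Nat.mul_le_mul_right _ ?_) 1
    rw [pow_succ]
    omega
  refine Bd.mono le_rfl _ _ _ e ?_
  rw [stepL]
  refine Bd_bind _ _ (poolL_all H R _ hx') (poolL_bd H R _ hW hn hN R le_rfl _ hx') fun ps hps => ?_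
  match ps, hps with
  | [], _ => exact Bd_ret _ _ _
  | [p], _ => exact Bd_ret _ _ _
  | p1 :: p2 :: ps, hps =>
    have h1 := hps.2 p1 (by simp)
    have h2 := hps.2 p2 (by simp)
    exact Bd_bind _ 1 (all_true _) (T2 := 0) (pick_bd _ _ (((ts_sublist_total p1 p2).trans
      (total_cs_le H.cc _ p1 p2 h1 h2 S.n)).trans hW)) fun y _ => Bd_ret _ _ _

theorem chain_all (H : S.Hyp P cc) (R : ℕ) : ∀ (J : ℕ) (x : O), P x → (S.chainL R J x).All P
  | 0, x, hx => hx
  | J + 1, x, hx => all_bind _ (step_all H R x hx) _ fun y hy => chain_all H R J y hy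

theorem chain_bd (H : S.Hyp P cc) (R : ℕ) : ∀ (J : ℕ) (x : O), P x →
    (S.chainL R J x).Bd (S.Gc cc ^ 2 ^ (R + 2)) (J * (2 ^ (R + 1) * (2 * S.N + 1) + 1))
  | 0, x, hx => Bd_ret _ _ _
  | J + 1, x, hx => by
    have e : (J + 1) * (2 ^ (R + 1) * (2 * S.N + 1) + 1) =
        (2 ^ (R + 1) * (2 * S.N + 1) + 1) + J * (2 ^ (R + 1) * (2 * S.N + 1) + 1) := by ring
    rw [e]
    exact Bd_bind _ _ (step_all H R x hx) (step_bd H R x hx) fun y hy => chain_bd H R J y hy

end Sys

/-- Bounds. -/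
theorem inv_main : S_inv := by
  intro O S P cc R J hn hN hpt hkids hcand hcc
  have H : S.Hyp P cc := ⟨hn, hN, hpt, hkids, hcand, hcc⟩
  exact ⟨fun r xs hx => Sys.poolL_all H r xs hx,
    fun x hx => ⟨Sys.chain_bd H R J x hx, Sys.chain_all H R J x hx⟩⟩

end Pool.Agent.W955.LT
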