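import Pool.Agent.W955.LT.Dom
import Pool.Agent.W955.LT.Stm

/-!
# The kernel of the chain, mixing
-/

namespace Pool.Agent.W955.LT

open Classical Prog

namespace Sys

variable {O : Type} {S : Sys O} {U : Finset O} {q : ℝ} {R : ℕ}

/-- The total measure of the final objects. -/
noncomputable def PT (S : Sys O) (U : Finset O) (p1 p2 : Pl O) : ℝ :=
  ∑ w ∈ S.Tp U, P S p1 p2 (some w)

/-- The kernel. -/
noncomputable def K (S : Sys O) (U : Finset O) (R : ℕ) (x y : O) : ℝ :=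
  S.EE R (fun p1 p2 => P S p1 p2 (some x) * P S p1 p2 (some y) / PT S U p1 p2)

theorem W_filter (l : List (ℕ × O)) (t : O → Bool) (g : O → ℝ) :
    W (l.filter (fun q => t q.2)) g = W l (fun z => if t z = true then g z else 0) := by
  induction l with
  | nil => simp [W]
  | cons a l ih =>
    simp only [W] at ih ⊢
    by_cases h : t a.2 = true
    · rw [List.filter_cons_of_pos (by simpa using h), List.map_cons, List.sum_cons, List.map_cons,
        List.sum_cons, ih, if_pos h]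
    · rw [List.filter_cons_of_neg (by simpa using h), ih, List.map_cons, List.sum_cons, if_neg h,
        mul_zero, zero_add]

theorem W_ts (hS : S.Law U q R) (p1 p2 : Pl O) (h1 : p1.1 ≠ 0) (h2 : p2.1 ≠ 0) (g : O → ℝ) :
    W (S.ts p1 p2) g = p1.1 * p2.1 * ∑ z ∈ S.Tp U, P S p1 p2 (some z) * g z := by
  rw [ts, W_filter, cs_sum hS p1 p2 h1 h2 S.n le_rfl]
  congr 1
  have e : S.Tp U = (U.filter (fun z => S.size z = S.n)).filter (fun z => S.top z = true) := by
    rw [Tp, Finset.filter_filter]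
  rw [e, Finset.sum_filter (fun z => S.top z = true)]
  refine Finset.sum_congr rfl fun z _ => ?_
  split_ifs <;> simp

theorem PT_nonneg (p1 p2 : Pl O) : 0 ≤ PT S U p1 p2 :=
  Finset.sum_nonneg fun _ _ => P_nonneg _ _ _

theorem P_zero (p1 p2 : Pl O) (h : PT S U p1 p2 = 0) (x : O) (hx : x ∈ S.Tp U) :
    P S p1 p2 (some x) = 0 :=
  (Finset.sum_eq_zero_iff_of_nonneg fun _ _ => P_nonneg _ _ _).1 h x hx

theorem pick_ts (hS : S.Law U q R) (p1 p2 : Pl O) (h1 : p1.1 ≠ 0) (h2 : p2.1 ≠ 0) (x : O)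
    (hx : x ∈ S.Tp U) (g : Option O → ℝ) :
    P S p1 p2 (some x) * (pick (S.ts p1 p2)).E g =
      ∑ y ∈ S.Tp U, P S p1 p2 (some x) * P S p1 p2 (some y) / PT S U p1 p2 * g (some y) := by
  have h3 : ((p1.1 : ℝ) * p2.1) ≠ 0 := by
    have : (p1.1 : ℝ) ≠ 0 := by exact_mod_cast h1
    have : (p2.1 : ℝ) ≠ 0 := by exact_mod_cast h2
    positivity
  by_cases h : PT S U p1 p2 = 0
  · rw [P_zero p1 p2 h x hx, zero_mul]
    symm
    apply Finset.sum_eq_zero
    intro y _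
    rw [zero_mul, zero_div, zero_mul]
  · have e1 : (total (S.ts p1 p2) : ℝ) = p1.1 * p2.1 * PT S U p1 p2 := by
      rw [← W_one, W_ts hS p1 p2 h1 h2]
      simp [PT]
    have e2 := pick_E (S.ts p1 p2) g
    rw [e1, W_ts hS p1 p2 h1 h2, mul_assoc] at e2
    have e3 := mul_left_cancel₀ h3 e2
    have e4 : (pick (S.ts p1 p2)).E g =
        (∑ z ∈ S.Tp U, P S p1 p2 (some z) * g (some z)) / PT S U p1 p2 := by
      rw [← e3]; field_simp
    rw [e4, Finset.sum_div, Finset.mul_sum]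
    refine Finset.sum_congr rfl fun y _ => ?_
    ring

theorem Tp_mem {x : O} (hx : x ∈ S.Tp U) : x ∈ U ∧ S.size x = S.n ∧ S.top x = true := by
  have := Finset.mem_filter.1 hx
  exact ⟨this.1, this.2.1, this.2.2⟩

theorem Vo_some {x : O} (hx : x ∈ U) : Vo U (some x) := by
  intro z hz
  rw [Option.some_inj] at hz
  rwa [← hz]

/-- One step of the chain. -/
theorem step_E (hS : S.Law U q R) (x : O) (hx : x ∈ S.Tp U) (f : O → ℝ) :
    (S.step R x).E f = ∑ y ∈ S.Tp U, K S U R x y * f y := by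
  obtain ⟨hxU, hxs, hxt⟩ := Tp_mem hx
  obtain ⟨v1, v2⟩ := Vo_kd hS (some x) (Vo_some hxU)
  change Vo U (S.kids x).1 at v1
  change Vo U (S.kids x).2 at v2
  obtain ⟨t1, t2⟩ := hS.ht x hxU hxs hxt
  have e1 : (S.step R x).E f = (S.pool R (S.kids x).1).E (fun p1 => (S.pool R (S.kids x).2).E
      (fun p2 => (pick (S.ts p1 p2)).E (fun y => f (y.getD x)))) := by
    simp only [step, E_bind, E_ret]
  rw [e1, pool_cond hS R _ v1 t1]
  have e2 : ∀ p1 : Pl O, S.M p1 (S.kids x).1 * (S.pool R (S.kids x).2).E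
      (fun p2 => (pick (S.ts p1 p2)).E (fun y => f (y.getD x))) =
      (S.pool R none).E (fun p2 => P S p1 p2 (some x) *
        (pick (S.ts p1 p2)).E (fun y => f (y.getD x))) := by
    intro p1
    rw [pool_cond hS R _ v2 t2, ← E_mul_left]
    congr 1
    funext p2
    simp only [P, kd]
    ring
  have e3 : (S.pool R none).E (fun p1 => S.M p1 (S.kids x).1 * (S.pool R (S.kids x).2).E
      (fun p2 => (pick (S.ts p1 p2)).E (fun y => f (y.getD x)))) =
      S.EE R (fun p1 p2 => ∑ y ∈ S.Tp U,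
        f y * (P S p1 p2 (some x) * P S p1 p2 (some y) / PT S U p1 p2)) := by
    simp only [e2]
    refine E_congr_all _ (pool_ok hS R none) fun p1 h1 => ?_
    refine E_congr_all _ (pool_ok hS R none) fun p2 h2 => ?_
    rw [pick_ts hS p1 p2 h1 h2 x hx]
    refine Finset.sum_congr rfl fun y _ => ?_
    rw [Option.getD_some]
    ring
  refine e3.trans ?_
  rw [EE_sum]
  refine Finset.sum_congr rfl fun y _ => ?_
  rw [EE_smul, K]
  ring

theorem K_symm (x y : O) : K S U R x y = K S U R y x := by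
  unfold K
  congr 1
  funext p1 p2
  rw [mul_comm (P S p1 p2 (some x))]

theorem K_sum (hS : S.Law U q R) (x : O) (hx : x ∈ S.Tp U) : ∑ y ∈ S.Tp U, K S U R x y = 1 := by
  have := step_E hS x hx (fun _ => 1)
  rw [E_const] at this
  simpa using this.symm

/-- Lower bound for the second moments. -/
theorem Q2_lower (hS : S.Law U q R) : ∀ (r : ℕ) (x y : Option O), Vo U x → Vo U y → HtG S r x →
    HtG S r y → ((1 : ℝ) - 1 / S.N) ^ (2 ^ r - 1) ≤ S.Q2 r x y
  | 0, x, y, hx, hy, tx, ty => by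
    have h1 : S.Q2 0 x y = S.M S.base x * S.M S.base y := rfl
    rw [h1, M_base_ht hS x tx, M_base_ht hS y ty]
    norm_num
  | r + 1, x, y, hx, hy, tx, ty => by
    obtain ⟨v1, v2⟩ := Vo_kd hS x hx
    obtain ⟨v3, v4⟩ := Vo_kd hS y hy
    obtain ⟨s1, s2⟩ := HtG_kd r x tx
    obtain ⟨s3, s4⟩ := HtG_kd r y ty
    have hb := b_pos hS
    have h1 := Q2_lower hS r _ _ v1 v3 s1 s3
    have h2 := Q2_lower hS r _ _ v2 v4 s2 s4
    have h3 := Q2_succ hS r x y hx hy
    have h4 : S.t2 r x y ≤ D2 S U r x y := by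
      have : 0 ≤ S.n / S.N * ex x y * ∑ w ∈ S.Uo U x, S.t2 r x (some w) := by
        have := ex_nonneg x y
        have : 0 ≤ ∑ w ∈ S.Uo U x, S.t2 r x (some w) :=
          Finset.sum_nonneg fun _ _ => t2_nonneg _ _ _
        positivity
      rw [D2]
      linarith
    have h5 : ((1 : ℝ) - 1 / S.N) ^ (2 ^ r - 1) * ((1 : ℝ) - 1 / S.N) ^ (2 ^ r - 1) ≤
        S.t2 r x y := mul_le_mul h1 h2 (by positivity) (Q2_nonneg _ _ _)
    have h6 : (2 : ℕ) ^ (r + 1) - 1 = 1 + ((2 ^ r - 1) + (2 ^ r - 1)) := by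
      have : 1 ≤ 2 ^ r := Nat.one_le_two_pow
      rw [pow_succ]
      omega
    rw [h6, pow_add, pow_one, pow_add]
    refine le_trans ?_ h3
    exact mul_le_mul_of_nonneg_left (h5.trans h4) hb.le

theorem lam_eq (S : Sys O) (q : ℝ) : ∀ r, lam S q r =
    ((1 + 2 * q * S.n / S.N) / (1 - 1 / S.N)) ^ (2 ^ r - 1)
  | 0 => by simp [lam]
  | r + 1 => by
    have h6 : (2 : ℕ) ^ (r + 1) - 1 = 1 + ((2 ^ r - 1) + (2 ^ r - 1)) := by
      have : 1 ≤ 2 ^ r := Nat.one_le_two_pow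
      rw [pow_succ]
      omega
    rw [lam, h6, pow_add, pow_one, pow_add, ← lam_eq S q r]
    ring

theorem numeric (hS : S.Law U q R) :
    (3 : ℝ) / 4 ≤ (((1 : ℝ) - 1 / S.N) ^ (2 ^ R - 1)) ^ 2 / (lam S q R) ^ 2 := by
  have hb := b_pos hS
  have hN2 := hS.hN
  have hN : (0 : ℝ) < S.N := by
    have : (2 : ℝ) ≤ S.N := by exact_mod_cast hN2
    linarith
  have hn : (1 : ℝ) ≤ S.n := by exact_mod_cast hS.hn
  have hq := hS.hq
  have hNq := hS.hNq
  set δ : ℝ := 1 / 2 ^ (R + 5) with hδ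
  have hδ0 : 0 < δ := by positivity
  have hδ1 : δ ≤ 1 / 32 := by
    rw [hδ]
    apply one_div_le_one_div_of_le (by norm_num)
    have : (1 : ℝ) ≤ 2 ^ R := one_le_pow₀ (by norm_num)
    rw [pow_add]
    linarith
  have h1 : q * S.n / S.N ≤ δ := by
    rw [hδ, div_le_div_iff₀ hN (by positivity)]
    linarith
  have h2 : 1 / (S.N : ℝ) ≤ δ := by
    refine le_trans ?_ h1
    exact div_le_div_of_nonneg_right (by nlinarith) hN.le
  set b : ℝ := 1 - 1 / S.N with hbdef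
  set a : ℝ := 1 + 2 * q * S.n / S.N with hadef
  have ha0 : 0 < a := by positivity
  have ha : a ≤ 1 + 2 * δ := by
    have : 2 * q * S.n / S.N = 2 * (q * S.n / S.N) := by ring
    rw [hadef, this]
    linarith
  have hb' : 1 - δ ≤ b := by rw [hbdef]; linarith
  have h3 : 1 - 4 * δ ≤ b ^ 2 / a := by
    rw [le_div_iff₀ ha0]
    have h4 : (1 - 4 * δ) * a ≤ (1 - 4 * δ) * (1 + 2 * δ) :=
      mul_le_mul_of_nonneg_left ha (by linarith)
    have h5 : (1 - δ) ^ 2 ≤ b ^ 2 := pow_le_pow_left₀ (by linarith) hb' 2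
    nlinarith
  rw [lam_eq, ← div_pow, ← div_pow, ← hbdef, ← hadef]
  have e : b / (a / b) = b ^ 2 / a := by field_simp
  rw [e, ← pow_mul]
  have h6 : (1 - 4 * δ) ^ ((2 ^ R - 1) * 2) ≤ (b ^ 2 / a) ^ ((2 ^ R - 1) * 2) :=
    pow_le_pow_left₀ (by linarith) h3 _
  refine le_trans ?_ h6
  have h7 := one_add_mul_le_pow (a := -(4 * δ)) (by linarith) ((2 ^ R - 1) * 2)
  have h8 : (1 : ℝ) + -(4 * δ) = 1 - 4 * δ := by ring
  rw [h8] at h7
  refine le_trans ?_ h7
  have h9 : (((2 ^ R - 1) * 2 : ℕ) : ℝ) ≤ 2 ^ R * 2 := by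
    have : (2 ^ R - 1) * 2 ≤ 2 ^ R * 2 := Nat.mul_le_mul_right _ (Nat.sub_le _ _)
    exact_mod_cast this
  have h10 : (2 : ℝ) ^ R * 2 * (4 * δ) = 1 / 4 := by
    rw [hδ, pow_add]
    field_simp
    norm_num
  have h11 : (((2 ^ R - 1) * 2 : ℕ) : ℝ) * (4 * δ) ≤ 2 ^ R * 2 * (4 * δ) :=
    mul_le_mul_of_nonneg_right h9 (by linarith)
  linarith

/-- Minorization. -/
theorem K_lower (hS : S.Law U q R) (x y : O) (hx : x ∈ S.Tp U) (hy : y ∈ S.Tp U) :
    (1 / 4) / ((S.Tp U).card : ℝ) ≤ K S U R x y := by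
  obtain ⟨hxU, hxs, hxt⟩ := Tp_mem hx
  obtain ⟨hyU, hys, hyt⟩ := Tp_mem hy
  obtain ⟨v1, v2⟩ := Vo_kd hS (some x) (Vo_some hxU)
  obtain ⟨v3, v4⟩ := Vo_kd hS (some y) (Vo_some hyU)
  obtain ⟨s1, s2⟩ := hS.ht x hxU hxs hxt
  obtain ⟨s3, s4⟩ := hS.ht y hyU hys hyt
  have hb := b_pos hS
  have hl := lam_pos hS R
  have hT : (0 : ℝ) < (S.Tp U).card := by
    exact_mod_cast Finset.card_pos.2 ⟨x, hx⟩
  set L := lam S q R with hL
  have hdom : Dom S U q (L ^ 2 * S.t2 R (some x) (some y))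
      (fun z => S.t3 R (some x) (some y) z) :=
    (Dom.prod hS (dom3 hS R _ _ v1 v3) (dom3 hS R _ _ v2 v4)
      fun z => Q3_nonneg _ _ _ _).mono (le_of_eq (by rw [t2]; ring)) fun z _ => le_rfl
  have h3 := hdom.sum_Tp hS
  set c : ℝ := 1 / (L ^ 2 * (S.Tp U).card) with hc
  have hc0 : 0 < c := by positivity
  have h4 : S.EE R (fun p1 p2 => 2 * c * (P S p1 p2 (some x) * P S p1 p2 (some y)) +
      -(c ^ 2) * ∑ z ∈ S.Tp U, P S p1 p2 (some x) * P S p1 p2 (some y) * P S p1 p2 (some z)) ≤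
      K S U R x y := by
    refine EE_mono hS R fun p1 p2 _ _ => ?_
    rw [← Finset.mul_sum]
    change _ + -(c ^ 2) * (_ * PT S U p1 p2) ≤ _
    have hA : 0 ≤ P S p1 p2 (some x) * P S p1 p2 (some y) :=
      mul_nonneg (P_nonneg _ _ _) (P_nonneg _ _ _)
    have hPT := PT_nonneg (S := S) (U := U) p1 p2
    rcases hPT.lt_or_eq with hpos | hzero
    · rw [le_div_iff₀ hpos]
      nlinarith [mul_nonneg hA (sq_nonneg (1 - c * PT S U p1 p2))]
    · rw [P_zero p1 p2 hzero.symm x hx]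
      simp
  rw [EE_add, EE_smul, EE_smul, EE_P2, EE_sum] at h4
  simp only [EE_P3] at h4
  refine le_trans ?_ h4
  have h5 : c ^ 2 * ∑ z ∈ S.Tp U, S.t3 R (some x) (some y) (some z) ≤
      c ^ 2 * (L ^ 2 * S.t2 R (some x) (some y) * (S.Tp U).card) :=
    mul_le_mul_of_nonneg_left h3 (by positivity)
  have h6 : c ^ 2 * (L ^ 2 * S.t2 R (some x) (some y) * (S.Tp U).card) =
      c * S.t2 R (some x) (some y) := by
    rw [hc]; field_simp
  have h7 : c * S.t2 R (some x) (some y) ≤ 2 * c * S.t2 R (some x) (some y) +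
      -(c ^ 2) * ∑ z ∈ S.Tp U, S.t3 R (some x) (some y) (some z) := by
    linarith
  refine le_trans ?_ h7
  have h8 : (((1 : ℝ) - 1 / S.N) ^ (2 ^ R - 1)) ^ 2 ≤ S.t2 R (some x) (some y) := by
    rw [sq]
    exact mul_le_mul (Q2_lower hS R _ _ v1 v3 s1 s3) (Q2_lower hS R _ _ v2 v4 s2 s4)
      (by positivity) (Q2_nonneg _ _ _)
  have h9 := numeric hS
  rw [← hL] at h9
  have h10 : (3 : ℝ) / 4 ≤ S.t2 R (some x) (some y) / L ^ 2 :=
    h9.trans (div_le_div_of_nonneg_right h8 (by positivity))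
  have h11 : c * S.t2 R (some x) (some y) = S.t2 R (some x) (some y) / L ^ 2 / (S.Tp U).card := by
    rw [hc]; field_simp
  rw [h11]
  exact div_le_div_of_nonneg_right (by linarith) hT.le

theorem chain_succ (J : ℕ) (x : O) (f : O → ℝ) :
    (S.chain R (J + 1) x).E f = (S.step R x).E (fun y => (S.chain R J y).E f) := by
  rw [chain, E_bind]

theorem mixing (hS : S.Law U q R) (f : O → ℝ) (hf : ∀ y, 0 ≤ f y ∧ f y ≤ 1)
    (hne : (S.Tp U).Nonempty) : ∀ J : ℕ,
    (∃ a : ℝ, ∀ x ∈ S.Tp U, a ≤ (S.chain R J x).E f ∧ (S.chain R J x).E f ≤ a + (3 / 4) ^ J) ∧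
    ∑ x ∈ S.Tp U, (S.chain R J x).E f = ∑ x ∈ S.Tp U, f x
  | 0 => ⟨⟨0, fun x _ => ⟨(hf x).1, by simpa [chain, E] using (hf x).2⟩⟩, rfl⟩
  | J + 1 => by
    obtain ⟨⟨a, ha⟩, hsum⟩ := mixing hS f hf hne J
    have hT : (0 : ℝ) < (S.Tp U).card := by exact_mod_cast hne.card_pos
    set g : O → ℝ := fun y => (S.chain R J y).E f with hg
    have hK : ∀ x ∈ S.Tp U, (S.chain R (J + 1) x).E f = ∑ y ∈ S.Tp U, K S U R x y * g y := by
      intro x hx
      rw [chain_succ, step_E hS x hx]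
    set A : ℝ := ∑ x ∈ S.Tp U, g x with hA
    set c : ℝ := (1 / 4) / ((S.Tp U).card : ℝ) with hc
    have hc1 : c * (S.Tp U).card = 1 / 4 := by rw [hc]; field_simp
    have key : ∀ x ∈ S.Tp U, (S.chain R (J + 1) x).E f =
        ∑ y ∈ S.Tp U, (K S U R x y - c) * g y + c * A := by
      intro x hx
      rw [hK x hx, hA, Finset.mul_sum, ← Finset.sum_add_distrib]
      exact Finset.sum_congr rfl fun y _ => by ring
    have hK' : ∀ x ∈ S.Tp U, ∑ y ∈ S.Tp U, (K S U R x y - c) = 3 / 4 := by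
      intro x hx
      rw [Finset.sum_sub_distrib, K_sum hS x hx, Finset.sum_const, nsmul_eq_mul]
      linarith
    refine ⟨⟨3 / 4 * a + c * A, fun x hx => ?_⟩, ?_⟩
    · rw [key x hx]
      have h1 : ∑ y ∈ S.Tp U, (K S U R x y - c) * a ≤ ∑ y ∈ S.Tp U, (K S U R x y - c) * g y :=
        Finset.sum_le_sum fun y hy => mul_le_mul_of_nonneg_left (ha y hy).1
          (by have := K_lower hS x y hx hy; linarith)
      have h2 : ∑ y ∈ S.Tp U, (K S U R x y - c) * g y ≤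
          ∑ y ∈ S.Tp U, (K S U R x y - c) * (a + (3 / 4) ^ J) :=
        Finset.sum_le_sum fun y hy => mul_le_mul_of_nonneg_left (ha y hy).2
          (by have := K_lower hS x y hx hy; linarith)
      rw [← Finset.sum_mul, hK' x hx] at h1 h2
      rw [pow_succ]
      constructor <;> linarith
    · rw [Finset.sum_congr rfl hK, Finset.sum_comm]
      rw [← hsum]
      refine Finset.sum_congr rfl fun y hy => ?_
      rw [← Finset.sum_mul]
      have : ∑ x ∈ S.Tp U, K S U R x y = 1 := by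
        rw [← K_sum hS y hy]
        exact Finset.sum_congr rfl fun x _ => K_symm x y
      rw [this, one_mul]

end Sys

/-- Mixing of the chain. -/
theorem gen_main : S_gen := by
  intro O S U q R J x f hS hx hxs hxt hf
  have hxT : x ∈ S.Tp U := Finset.mem_filter.2 ⟨hx, hxs, hxt⟩
  have hne : (S.Tp U).Nonempty := ⟨x, hxT⟩
  obtain ⟨⟨a, ha⟩, hsum⟩ := Sys.mixing hS f hf hne J
  have hT : (0 : ℝ) < (S.Tp U).card := by exact_mod_cast hne.card_pos
  obtain ⟨h1, h2⟩ := ha x hxT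
  change |(S.chain R J x).E f - (∑ y ∈ S.Tp U, f y) / ((S.Tp U).card : ℝ)| ≤ (3 / 4) ^ J
  rw [← hsum]
  have h3 : a ≤ (∑ y ∈ S.Tp U, (S.chain R J y).E f) / ((S.Tp U).card : ℝ) := by
    rw [le_div_iff₀ hT]
    have := Finset.sum_le_sum fun y (hy : y ∈ S.Tp U) => (ha y hy).1
    rw [Finset.sum_const, nsmul_eq_mul] at this
    linarith
  have h4 : (∑ y ∈ S.Tp U, (S.chain R J y).E f) / ((S.Tp U).card : ℝ) ≤ a + (3 / 4) ^ J := by
    rw [div_le_iff₀ hT]
    have := Finset.sum_le_sum fun y (hy : y ∈ S.Tp U) => (ha y hy).2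
    rw [Finset.sum_const, nsmul_eq_mul] at this
    linarith
  rw [abs_le]
  constructor <;> linarith

end Pool.Agent.W955.LT
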