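import Pool.Agent.W955.LT.Stm
import Pool.Agent.NPC.Dec

/-!
# The pieces: statements about polynomial time

(The namespace is below `Pool.Agent.NPC`, so that the lemmas `Poly.xxx` are available.)
-/

namespace Pool.Agent.NPC.LT

open Pool.Agent.W955.LT

/-- The functions on codes are polynomial-time computable. -/
def S_polyCode : Prop :=
  (∀ k, Poly (fun c : Code => validC k c)) ∧
  (∀ k, Poly (fun c : Code => kidsC k c)) ∧
  (∀ k, Poly (fun p : Code × Code => candC k p.1 p.2)) ∧
  (∀ k, Poly (fun l : List Unit => lineC k l.length)) ∧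
  (∀ k, Poly (fun c : Code => edgesC k c)) ∧
  ∃ P : Polynomial ℕ, ∀ k c, validC k c = true → sz c ≤ P.eval c.1.length

/-- The sampler is polynomial-time computable. -/
def S_samp : Prop := ∀ (k : Kind) (PN PJ PB : Polynomial ℕ), (∀ m, 1 ≤ PN.eval m) →
  ∃ F : (List Unit × List Unit) × List Bool → Code, Poly F ∧ ∀ (n e : ℕ) (t : List Bool), 1 ≤ n →
    F ((List.replicate n (), List.replicate e ()), t) =
      (((sysC k n (PN.eval n)).chainL (2 * lev n) (PJ.eval e) (lineC k n)).run
        (PB.eval (n + e)) t).1

end Pool.Agent.NPC.LT
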