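import Pool.Agent.W955.LT.Stm

/-!
# The laws of the sampler system for lattice trees
-/

namespace Pool.Agent.W955.LT

open Classical

/-- The valid codes of objects with at most `n` vertices. -/
noncomputable def codes (k : Kind) (n : ℕ) : Finset Code :=
  ((Finset.range (n + 1)).biUnion (objs k)).image enc

/-- Decoding. -/
def dec (c : Code) : Obj := (c.1.toFinset, c.2.toFinset)

/-- Patterns of codes and patterns of objects. -/
def Pat.map {α β : Type} (f : α → β) : Pat α → Pat β
  | .atom x => .atom (f x)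
  | .left p => .left (p.map f)
  | .right p => .right (p.map f)
  | .both p q => .both (p.map f) (q.map f)

theorem Pat.atoms_map {α β : Type} (f : α → β) : ∀ p : Pat α, (p.map f).atoms = p.atoms.map f
  | .atom x => rfl
  | .left p => Pat.atoms_map f p
  | .right p => Pat.atoms_map f p
  | .both p q => by simp [Pat.map, Pat.atoms, Pat.atoms_map f p, Pat.atoms_map f q]

theorem card_pos_of_ok {k : Kind} {o : Obj} (h : Ok k o) : 1 ≤ o.1.card :=
  Finset.card_pos.2 ⟨[], h.tr.nil⟩

theorem mem_codes (hT : S_trees) {k : Kind} {n : ℕ} {c : Code} :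
    c ∈ codes k n ↔ ∃ o, Ok k o ∧ o.1.card ≤ n ∧ enc o = c := by
  simp only [codes, Finset.mem_image, Finset.mem_biUnion, Finset.mem_range, hT.2]
  constructor
  · rintro ⟨o, ⟨m, hm, h1, h2⟩, h3⟩
    exact ⟨o, h1, by omega, h3⟩
  · rintro ⟨o, h1, h2, h3⟩
    exact ⟨o, ⟨_, by omega, h1, rfl⟩, h3⟩

theorem dec_enc (hC : S_code1) {k : Kind} {o : Obj} (h : Ok k o) : dec (enc o) = o := by
  obtain ⟨h1, h2, _, _⟩ := hC.2.2.2.2.1 k o h
  exact Prod.ext h1 h2

theorem enc_len (hC : S_code1) {k : Kind} {o : Obj} (h : Ok k o) : (enc o).1.length = o.1.card :=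
  (hC.2.2.2.2.1 k o h).2.2.1

theorem exists_cut {o : Obj} (h : ∃ b, good o b) : ∃ b, isCut o b := by
  obtain ⟨b, hb⟩ := h
  obtain ⟨c, hc, hmin⟩ := Finset.exists_min_image (o.1.filter (fun b => good o b)) key
    ⟨b, Finset.mem_filter.2 ⟨hb.1, hb⟩⟩
  exact ⟨c, (Finset.mem_filter.1 hc).2, fun d hd => hmin d (Finset.mem_filter.2 ⟨hd.1, hd⟩)⟩

/-- The parts of an object different from the point. -/
theorem kids_some (hK : S_kids) (hG : S_good) {k : Kind} {o : Obj} (h : Ok k o) (hne : o ≠ pt) :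
    ∃ a b, kids o = (some a, some b) ∧ Ok k a ∧ Ok k b ∧ a.1.card + b.1.card = o.1.card := by
  have hc : 2 ≤ o.1.card := by
    have h1 := card_pos_of_ok h
    by_contra h2
    exact hne (hK.2.2.2.2.2.1 k o h (by omega))
  rcases hK.2.2.2.2.1 k o h with h1 | ⟨b, h1, h2, h3, h4, h5, _⟩
  · have h2 := exists_cut (hG k o h hc)
    rw [kids, dif_pos h2] at h1
    simp at h1
  · exact ⟨_, _, h2, h3, h4, h5⟩

/-- Parts of objects are objects. -/
theorem kids_ok (hK : S_kids) {k : Kind} {o : Obj} (h : Ok k o) :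
    (∀ a, (kids o).1 = some a → Ok k a) ∧ (∀ a, (kids o).2 = some a → Ok k a) := by
  rcases hK.2.2.2.2.1 k o h with h1 | ⟨b, h1, h2, h3, h4, h5, _⟩
  · rw [h1]
    exact ⟨fun a ha => by simp at ha, fun a ha => by simp at ha⟩
  · rw [h2]
    constructor
    · intro a ha
      simp only [Option.some_inj] at ha
      rwa [← ha]
    · intro a ha
      simp only [Option.some_inj] at ha
      rwa [← ha]

/-- Heights of codes. -/
theorem ht_code (hK : S_kids) (hC1 : S_code1) (hC2 : S_code2) {k : Kind} {n N : ℕ} :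
    ∀ (r : ℕ) (x : Option Obj), (∀ o, x = some o → Ok k o) → Ht r x →
      Sys.HtG (sysC k n N) r (x.map enc)
  | r, none, _, _ => by cases r <;> trivial
  | 0, some o, hx, h => by
    have hok := hx o rfl
    have h1 : o = pt := hK.2.2.2.2.2.1 k o hok h
    change enc o = ([[]], [[]])
    rw [h1, hC1.2.2.2.2.2.2.1]
  | r + 1, some o, hx, h => by
    have hok := hx o rfl
    obtain ⟨k1, k2⟩ := kids_ok hK hok
    have h1 : (sysC k n N).kids (enc o) = ((kids o).1.map enc, (kids o).2.map enc) :=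
      hC2.1 k o hok
    change Sys.HtG (sysC k n N) r ((sysC k n N).kids (enc o)).1 ∧
      Sys.HtG (sysC k n N) r ((sysC k n N).kids (enc o)).2
    rw [h1]
    exact ⟨ht_code hK hC1 hC2 r _ k1 h.1, ht_code hK hC1 hC2 r _ k2 h.2⟩

/-- Patterns of codes. -/
theorem holds_code (hK : S_kids) (hC1 : S_code1) (hC2 : S_code2) {k : Kind} :
    ∀ (p : Pat Code), (∀ x ∈ p.atoms, ∃ o, Ok k o ∧ enc o = x) → ∀ z, Ok k z →
      (p.holds (kidsC k) (enc z) ↔ (p.map dec).holds kids z)
  | .atom x, hp, z, hz => by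
    obtain ⟨o, ho, rfl⟩ := hp x (by simp [Pat.atoms])
    simp only [Pat.holds, Pat.map]
    rw [dec_enc hC1 ho]
    exact ⟨fun h => hC1.2.2.2.1 k z o hz ho h, fun h => by rw [h]⟩
  | .left p, hp, z, hz => by
    obtain ⟨k1, k2⟩ := kids_ok hK hz
    simp only [Pat.holds, Pat.map]
    rw [hC2.1 k z hz]
    constructor
    · rintro ⟨a, b, h1, h2⟩
      rw [Prod.mk.injEq, Option.map_eq_some_iff, Option.map_eq_some_iff] at h1
      obtain ⟨⟨a', h3, rfl⟩, ⟨b', h4, rfl⟩⟩ := h1
      exact ⟨a', b', Prod.ext h3 h4,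
        (holds_code hK hC1 hC2 p hp a' (k1 a' h3)).1 h2⟩
    · rintro ⟨a, b, h1, h2⟩
      have h3 : (kids z).1 = some a := by rw [h1]
      refine ⟨enc a, enc b, ?_, (holds_code hK hC1 hC2 p hp a (k1 a h3)).2 h2⟩
      rw [h1]; rfl
  | .right p, hp, z, hz => by
    obtain ⟨k1, k2⟩ := kids_ok hK hz
    simp only [Pat.holds, Pat.map]
    rw [hC2.1 k z hz]
    constructor
    · rintro ⟨a, b, h1, h2⟩
      rw [Prod.mk.injEq, Option.map_eq_some_iff, Option.map_eq_some_iff] at h1
      obtain ⟨⟨a', h3, rfl⟩, ⟨b', h4, rfl⟩⟩ := h1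
      exact ⟨a', b', Prod.ext h3 h4,
        (holds_code hK hC1 hC2 p hp b' (k2 b' h4)).1 h2⟩
    · rintro ⟨a, b, h1, h2⟩
      have h3 : (kids z).2 = some b := by rw [h1]
      refine ⟨enc a, enc b, ?_, (holds_code hK hC1 hC2 p hp b (k2 b h3)).2 h2⟩
      rw [h1]; rfl
  | .both p p', hp, z, hz => by
    obtain ⟨k1, k2⟩ := kids_ok hK hz
    have hp1 : ∀ x ∈ p.atoms, ∃ o, Ok k o ∧ enc o = x := fun x hx =>
      hp x (by simp [Pat.atoms, hx])
    have hp2 : ∀ x ∈ p'.atoms, ∃ o, Ok k o ∧ enc o = x := fun x hx =>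
      hp x (by simp [Pat.atoms, hx])
    simp only [Pat.holds, Pat.map]
    rw [hC2.1 k z hz]
    constructor
    · rintro ⟨a, b, h1, h2, h2'⟩
      rw [Prod.mk.injEq, Option.map_eq_some_iff, Option.map_eq_some_iff] at h1
      obtain ⟨⟨a', h3, rfl⟩, ⟨b', h4, rfl⟩⟩ := h1
      exact ⟨a', b', Prod.ext h3 h4,
        (holds_code hK hC1 hC2 p hp1 a' (k1 a' h3)).1 h2,
        (holds_code hK hC1 hC2 p' hp2 b' (k2 b' h4)).1 h2'⟩
    · rintro ⟨a, b, h1, h2, h2'⟩
      have h3 : (kids z).1 = some a := by rw [h1]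
      have h4 : (kids z).2 = some b := by rw [h1]
      refine ⟨enc a, enc b, ?_, (holds_code hK hC1 hC2 p hp1 a (k1 a h3)).2 h2,
        (holds_code hK hC1 hC2 p' hp2 b (k2 b h4)).2 h2'⟩
      rw [h1]; rfl

/-- Polynomials with natural coefficients are monotone. -/
theorem eval_le (q : Polynomial ℕ) {a b : ℕ} (h : a ≤ b) : q.eval a ≤ q.eval b := by
  induction q using Polynomial.induction_on' with
  | add p q hp hq => simp only [Polynomial.eval_add]; omega
  | monomial n c =>
    simp only [Polynomial.eval_monomial]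
    exact Nat.mul_le_mul_left _ (Nat.pow_le_pow_left h _)

/-- Cardinals of sets of codes. -/
theorem card_codes (hT : S_trees) (hC1 : S_code1) {k : Kind} {n m : ℕ} (hm : m ≤ n)
    (P : Code → Prop) (Q : Obj → Prop) (h : ∀ o, Ok k o → (P (enc o) ↔ Q o)) :
    (((codes k n).filter (fun z => z.1.length = m)).filter P).card =
      ((objs k m).filter Q).card := by
  have e : ((codes k n).filter (fun z => z.1.length = m)).filter P =
      ((objs k m).filter Q).image enc := by
    ext c
    simp only [Finset.mem_filter, Finset.mem_image, mem_codes hT, hT.2]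
    constructor
    · rintro ⟨⟨⟨o, h1, h2, rfl⟩, h3⟩, h4⟩
      rw [enc_len hC1 h1] at h3
      exact ⟨o, ⟨⟨h1, h3⟩, (h o h1).1 h4⟩, rfl⟩
    · rintro ⟨o, ⟨⟨h1, h2⟩, h3⟩, rfl⟩
      exact ⟨⟨⟨o, h1, by omega, rfl⟩, by rw [enc_len hC1 h1, h2]⟩, (h o h1).2 h3⟩
  rw [e, Finset.card_image_of_injOn]
  intro o ho o' ho' heq
  rw [Finset.mem_coe, Finset.mem_filter, hT.2] at ho ho'
  exact hC1.2.2.2.1 k o o' ho.1.1 ho'.1.1 heq

theorem inst_card {α : Type} (s : Finset α) (p : α → Prop) (d1 d2 : DecidablePred p) :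
    (@Finset.filter α p d1 s).card = (@Finset.filter α p d2 s).card := by
  congr!

/-- The laws. -/
theorem law_main (hT : S_trees) (hK : S_kids) (hG : S_good) (hH : S_height) (hL : S_lev)
    (hC1 : S_code1) (hC2 : S_code2) (k : Kind) (qc : Polynomial ℕ) (hq1 : ∀ m, 1 ≤ qc.eval m)
    (hcb : ∀ (p : Pat Obj) (m : ℕ), (∀ x ∈ p.atoms, Ok k x) →
      ((objs k m).filter (fun z => p.holds kids z)).card *
          (p.atoms.map (fun x => (objs k x.1.card).card)).prod ≤
        qc.eval m ^ p.atoms.length * (objs k m).card ∧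
      (((objs k m).filter (fun z => z.2 = {[]})).filter (fun z => p.holds kids z)).card *
          (p.atoms.map (fun x => (objs k x.1.card).card)).prod ≤
        qc.eval m ^ p.atoms.length * ((objs k m).filter (fun z => z.2 = {[]})).card)
    (n N : ℕ) (hn : 1 ≤ n) (hN : 2 ≤ N) (hN' : 32 * qc.eval n * n ^ 13 ≤ N) :
    (sysC k n N).Law (codes k n) ((qc.eval n : ℕ) : ℝ) (2 * lev n) where
  hn := hn
  hN := hN
  hq := by exact_mod_cast hq1 n
  hNq := by
    have h1 := hL n hn
    have h2 : qc.eval n * n * 2 ^ (2 * lev n + 5) ≤ N := by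
      have h3 : 2 ^ (2 * lev n + 5) ≤ n ^ 12 * 32 := by
        rw [pow_add, two_mul, pow_add]
        have : 2 ^ lev n * 2 ^ lev n ≤ n ^ 6 * n ^ 6 := Nat.mul_le_mul h1 h1
        have e : n ^ 12 = n ^ 6 * n ^ 6 := by ring
        rw [e]
        omega
      calc qc.eval n * n * 2 ^ (2 * lev n + 5) ≤ qc.eval n * n * (n ^ 12 * 32) :=
            Nat.mul_le_mul_left _ h3
        _ = 32 * qc.eval n * n ^ 13 := by ring
        _ ≤ N := hN'
    exact_mod_cast h2
  size := by
    intro z hz
    obtain ⟨o, h1, h2, rfl⟩ := (mem_codes hT).1 hz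
    change 1 ≤ (enc o).1.length ∧ (enc o).1.length ≤ n
    rw [enc_len hC1 h1]
    exact ⟨card_pos_of_ok h1, h2⟩
  pt_mem := (mem_codes hT).2 ⟨pt, hK.2.2.2.2.2.2.1 k, hn, hC1.2.2.2.2.2.2.1⟩
  pt_size := rfl
  pt_kids := (hC2.2.2.2.2.1 k).2
  kids := by
    intro z hz hne
    obtain ⟨o, h1, h2, rfl⟩ := (mem_codes hT).1 hz
    have hne' : o ≠ pt := by
      rintro rfl
      exact hne hC1.2.2.2.2.2.2.1
    obtain ⟨a, b, h3, h4, h5, h6⟩ := kids_some hK hG h1 hne'
    refine ⟨enc a, enc b, ?_, (mem_codes hT).2 ⟨a, h4, by omega, rfl⟩,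
      (mem_codes hT).2 ⟨b, h5, by omega, rfl⟩⟩
    change kidsC k (enc o) = _
    rw [hC2.1 k o h1, h3]; rfl
  cand := by
    intro a b z
    change z ∈ candC k a b ∧ z.1.length ≤ n ↔ z ∈ codes k n ∧ kidsC k z = (some a, some b)
    rw [hC2.2.1 k a b z, hC1.2.2.1 k z, mem_codes hT]
    constructor
    · rintro ⟨⟨⟨o, h1, rfl⟩, h2⟩, h3⟩
      rw [enc_len hC1 h1] at h3
      exact ⟨⟨o, h1, h3, rfl⟩, h2⟩
    · rintro ⟨⟨o, h1, h3, rfl⟩, h2⟩
      exact ⟨⟨⟨o, h1, rfl⟩, h2⟩, by rw [enc_len hC1 h1]; exact h3⟩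
  nodup := hC2.2.2.1 k
  ht := by
    intro z hz hs ht
    obtain ⟨o, h1, h2, rfl⟩ := (mem_codes hT).1 hz
    change (enc o).1.length = n at hs
    rw [enc_len hC1 h1] at hs
    have ht' : (enc o).2 = [[]] := of_decide_eq_true ht
    have h3 := (hC1.2.2.2.2.2.2.2 k o h1).1 ht'
    obtain ⟨h4, h5⟩ := hH k o h1 h3
    rw [hs] at h4 h5
    obtain ⟨k1, k2⟩ := kids_ok hK h1
    change Sys.HtG (sysC k n N) (2 * lev n) (kidsC k (enc o)).1 ∧
      Sys.HtG (sysC k n N) (2 * lev n) (kidsC k (enc o)).2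
    rw [hC2.1 k o h1]
    exact ⟨ht_code hK hC1 hC2 _ _ k1 h4, ht_code hK hC1 hC2 _ _ k2 h5⟩
  cb := by
    intro p hp m
    have hp1 : ∀ x ∈ p.atoms, ∃ o, Ok k o ∧ enc o = x := fun x hx => by
      obtain ⟨o, h1, _, h3⟩ := (mem_codes hT).1 (hp x hx)
      exact ⟨o, h1, h3⟩
    have hp2 : ∀ x ∈ (p.map dec).atoms, Ok k x := by
      intro x hx
      rw [Pat.atoms_map, List.mem_map] at hx
      obtain ⟨c, hc, rfl⟩ := hx
      obtain ⟨o, h1, rfl⟩ := hp1 c hc
      rwa [dec_enc hC1 h1]
    by_cases hm : m ≤ n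
    · obtain ⟨h1, _⟩ := hcb (p.map dec) m hp2
      have e1 := card_codes hT hC1 hm (fun z => p.holds (kidsC k) z)
        (fun z => (p.map dec).holds kids z) (holds_code hK hC1 hC2 p hp1)
      have e2 := card_codes (k := k) hT hC1 hm (fun _ => True) (fun _ => True) (fun _ _ => Iff.rfl)
      rw [Finset.filter_true, Finset.filter_true] at e2
      have e3 : (p.map dec).atoms.map (fun x => (objs k x.1.card).card) =
          p.atoms.map (fun x => ((codes k n).filter (fun z => z.1.length = x.1.length)).card) := by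
        rw [Pat.atoms_map, List.map_map]
        apply List.map_congr_left
        intro x hx
        obtain ⟨o, h1, h2, rfl⟩ := (mem_codes hT).1 (hp x hx)
        have e4 := card_codes (k := k) hT hC1 h2 (fun _ => True) (fun _ => True)
          (fun _ _ => Iff.rfl)
        rw [Finset.filter_true, Finset.filter_true] at e4
        simp only [Function.comp]
        rw [dec_enc hC1 h1, enc_len hC1 h1, e4]
      rw [e3, ← e1, ← e2, Pat.atoms_map, List.length_map] at h1
      have h2 : qc.eval m ^ p.atoms.length *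
          ((codes k n).filter (fun z => z.1.length = m)).card ≤
          qc.eval n ^ p.atoms.length * ((codes k n).filter (fun z => z.1.length = m)).card :=
        Nat.mul_le_mul_right _ (Nat.pow_le_pow_left (eval_le qc hm) _)
      have h3 := h1.trans h2
      have h4 : ((((codes k n).filter (fun z => z.1.length = m)).filter
          (fun z => p.holds (kidsC k) z)).card : ℝ) *
          ((p.atoms.map (fun x =>
            ((codes k n).filter (fun z => z.1.length = x.1.length)).card)).prod : ℕ) ≤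
          ((qc.eval n : ℕ) : ℝ) ^ p.atoms.length *
            ((codes k n).filter (fun z => z.1.length = m)).card := by exact_mod_cast h3
      rw [Nat.cast_list_prod, List.map_map] at h4
      exact h4
    · have e : (codes k n).filter (fun z => (sysC k n N).size z = m) = ∅ := by
        rw [Finset.filter_eq_empty_iff]
        intro z hz h
        obtain ⟨o, h1, h2, rfl⟩ := (mem_codes hT).1 hz
        change (enc o).1.length = m at h
        rw [enc_len hC1 h1] at h
        omega
      rw [e]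
      simp
  cbt := by
    intro p hp
    have hp1 : ∀ x ∈ p.atoms, ∃ o, Ok k o ∧ enc o = x := fun x hx => by
      obtain ⟨o, h1, _, h3⟩ := (mem_codes hT).1 (hp x hx)
      exact ⟨o, h1, h3⟩
    have hp2 : ∀ x ∈ (p.map dec).atoms, Ok k x := by
      intro x hx
      rw [Pat.atoms_map, List.mem_map] at hx
      obtain ⟨c, hc, rfl⟩ := hx
      obtain ⟨o, h1, rfl⟩ := hp1 c hc
      rwa [dec_enc hC1 h1]
    obtain ⟨_, h1⟩ := hcb (p.map dec) n hp2
    have e0 : (codes k n).filter (fun z => (sysC k n N).size z = (sysC k n N).n ∧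
        (sysC k n N).top z = true) = ((codes k n).filter (fun z => z.1.length = n)).filter
          (fun z => z.2 = [[]]) := by
      rw [Finset.filter_filter]
      apply Finset.filter_congr
      intro z _
      change z.1.length = n ∧ decide (z.2 = [[]]) = true ↔ _
      rw [decide_eq_true_eq]
    have e1 := card_codes hT hC1 le_rfl (n := n) (m := n)
      (fun z => z.2 = [[]] ∧ p.holds (kidsC k) z)
      (fun z => z.2 = {[]} ∧ (p.map dec).holds kids z) (fun o ho =>
        and_congr (hC1.2.2.2.2.2.2.2 k o ho) (holds_code hK hC1 hC2 p hp1 o ho))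
    have e2 := card_codes (k := k) hT hC1 le_rfl (n := n) (m := n) (fun z => z.2 = [[]])
      (fun z => z.2 = {[]}) (fun o ho => hC1.2.2.2.2.2.2.2 k o ho)
    have e3 : (p.map dec).atoms.map (fun x => (objs k x.1.card).card) =
        p.atoms.map (fun x => ((codes k n).filter (fun z => z.1.length = x.1.length)).card) := by
      rw [Pat.atoms_map, List.map_map]
      apply List.map_congr_left
      intro x hx
      obtain ⟨o, h1, h2, rfl⟩ := (mem_codes hT).1 (hp x hx)
      have e4 := card_codes (k := k) hT hC1 h2 (fun _ => True) (fun _ => True)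
        (fun _ _ => Iff.rfl)
      rw [Finset.filter_true, Finset.filter_true] at e4
      simp only [Function.comp]
      rw [dec_enc hC1 h1, enc_len hC1 h1, e4]
    have h1' : (((codes k n).filter (fun z => z.1.length = n)).filter
        (fun z => z.2 = [[]] ∧ p.holds (kidsC k) z)).card *
        (p.atoms.map (fun x =>
          ((codes k n).filter (fun z => z.1.length = x.1.length)).card)).prod ≤
        qc.eval n ^ p.atoms.length *
          (((codes k n).filter (fun z => z.1.length = n)).filter (fun z => z.2 = [[]])).card := by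
      rw [← e3]
      rw [Finset.filter_filter, Pat.atoms_map, List.length_map] at h1
      refine (le_of_eq ?_).trans (h1.trans (le_of_eq ?_))
      · congr 1
        · convert e1
        · rw [Pat.atoms_map]
      · congr 1
        convert e2.symm
    rw [e0]
    rw [Finset.filter_filter]
    have h4 : ((((codes k n).filter (fun z => z.1.length = n)).filter
        (fun z => z.2 = [[]] ∧ p.holds (kidsC k) z)).card : ℝ) *
        ((p.atoms.map (fun x =>
          ((codes k n).filter (fun z => z.1.length = x.1.length)).card)).prod : ℕ) ≤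
        ((qc.eval n : ℕ) : ℝ) ^ p.atoms.length *
          (((codes k n).filter (fun z => z.1.length = n)).filter (fun z => z.2 = [[]])).card := by
      exact_mod_cast h1'
    rw [Nat.cast_list_prod, List.map_map] at h4
    exact le_trans (le_of_eq (congrArg₂ (· * ·) (congrArg _ (inst_card _ _ _ _)) rfl)) h4

end Pool.Agent.W955.LT
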