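import Pool.Agent.W955.LT.Gen

/-!
# Codes of objects: sorted lists of addresses
-/

namespace Pool.Agent.W955.LT

/-- Codes of objects: the sorted list of addresses, the sorted list of marks. -/
abbrev Code := List (List ℕ) × List (List ℕ)

/-- Insertion into a sorted list. -/
def ins (w : List ℕ) (l : List (List ℕ)) : List (List ℕ) :=
  l.filter (fun v => decide (key v < key w)) ++ w :: l.filter (fun v => decide (key w < key v))

/-- Sorting (without repetitions). -/
def norm (l : List (List ℕ)) : List (List ℕ) := l.foldr ins []

/-- The code of an object. -/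
noncomputable def enc (o : Obj) : Code := (norm o.1.toList, norm o.2.toList)

/-- Suffix test. -/
def isSuf (b w : List ℕ) : Bool := decide (w.drop (w.length - b.length) = b)

/-- The upper part. -/
def upC (c : Code) (b : List ℕ) : Code :=
  (norm (c.1.filter (fun w => !isSuf b w)), norm (b.tail :: c.2.filter (fun w => !isSuf b w)))

/-- Relative addresses of the members below `b`. -/
def belowC (l : List (List ℕ)) (b : List ℕ) : List (List ℕ) :=
  (l.filter (fun w => isSuf b w)).map (fun w => w.take (w.length - b.length))

/-- The lower part. -/
def lowC (c : Code) (b : List ℕ) : Code := (norm (belowC c.1 b), norm ([] :: belowC c.2 b))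

/-- Good addresses. -/
def goodC (c : Code) (b : List ℕ) : Bool :=
  !decide (b = []) &&
    if c.2.length < 15 then
      decide (7 * (upC c b).1.length ≤ 6 * c.1.length + 1) &&
        decide (7 * (lowC c b).1.length ≤ 6 * c.1.length + 1)
    else decide ((upC c b).2.length < 15) && decide ((lowC c b).2.length < 15)

/-- The canonical cut address: the first good address. -/
def cutC (c : Code) : Option (List ℕ) := (c.1.filter (fun b => goodC c b)).head?

/-- The sign at (the vertex with address) `w`, as a boolean: `true` for `-1`. -/
def sgnC (k : Kind) (w : List ℕ) : Bool :=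
  match k with
  | .hex => decide (w.length % 2 = 1)
  | _ => false

/-- Add a step to a position; positions are `(a, b, c, d)`, standing for `(a - b, c - d)`. -/
def addC (k : Kind) (s : Bool) (d : ℕ) (p : ℕ × ℕ × ℕ × ℕ) : ℕ × ℕ × ℕ × ℕ :=
  let v := stp k d
  let x := if s then -v.1 else v.1
  let y := if s then -v.2 else v.2
  (p.1 + (if x = 1 then 1 else 0), p.2.1 + (if x = -1 then 1 else 0),
    p.2.2.1 + (if y = 1 then 1 else 0), p.2.2.2 + (if y = -1 then 1 else 0))

/-- The position of an address. -/
def posC (k : Kind) : List ℕ → ℕ × ℕ × ℕ × ℕ
  | [] => (0, 0, 0, 0)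
  | d :: w => addC k (sgnC k w) d (posC k w)

/-- Equality of positions. -/
def eqC (p q : ℕ × ℕ × ℕ × ℕ) : Bool :=
  decide (p.1 + q.2.1 = q.1 + p.2.1) && decide (p.2.2.1 + q.2.2.2 = q.2.2.1 + p.2.2.2)

/-- The integral position. -/
def posZ (p : ℕ × ℕ × ℕ × ℕ) : ℤ × ℤ := ((p.1 : ℤ) - p.2.1, (p.2.2.1 : ℤ) - p.2.2.2)

/-- The test for valid codes. -/
def validC (k : Kind) (c : Code) : Bool :=
  decide ([] ∈ c.1) &&
  (c.1.all (fun w => decide (w = []) || (decide (w.tail ∈ c.1) && decide (w.headD 0 < nd k)))) &&
  (c.1.all (fun v => c.1.all (fun w => decide (v = w) || !eqC (posC k v) (posC k w)))) &&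
  decide (norm c.1 = c.1) && decide (norm c.2 = c.2) &&
  (c.2.all (fun w => decide (w ∈ c.1))) && decide ([] ∈ c.2) && decide (c.2.length ≤ 15)

/-- The two parts of an object (the empty ones if the code is not valid). -/
def kidsC (k : Kind) (c : Code) : Option Code × Option Code :=
  if validC k c then
    match cutC c with
    | none => (none, none)
    | some b => (some (upC c b), some (lowC c b))
  else (none, none)

/-- Glue the object `b` to `a` below the address `m`, in direction `d`; `s` and `t` tell whether the
attaching point `m` and the root of `b` stay marked. -/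
def glueC (a b : Code) (m : List ℕ) (d : ℕ) (s t : Bool) : Code :=
  (norm (a.1 ++ b.1.map (fun w => w ++ d :: m)),
    norm ((a.2.filter (fun w => s || !decide (w = m))) ++
      (b.2.filter (fun w => t || !decide (w = []))).map (fun w => w ++ d :: m)))

/-- All glued objects. -/
def glues (k : Kind) (a b : Code) : List Code :=
  a.2.flatMap fun m => (List.range (nd k)).flatMap fun d =>
    [glueC a b m d true true, glueC a b m d true false, glueC a b m d false true,
      glueC a b m d false false]

/-- Remove repetitions. -/
def dedupC (l : List Code) : List Code := l.foldr (fun z acc => if z ∈ acc then acc else z :: acc) []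

/-- The codes with two given parts. -/
def candC (k : Kind) (a b : Code) : List Code :=
  dedupC ((glues k a b).filter (fun z => validC k z && decide (kidsC k z = (some a, some b))))

/-- The sampler system for lattice trees. -/
def sysC (k : Kind) (n N : ℕ) : Sys Code where
  n := n
  N := N
  pt := ([[]], [[]])
  size := fun c => c.1.length
  kids := kidsC k
  cand := candC k
  top := fun c => decide (c.2 = [[]])

/-- The address of length `i` on the horizontal line. -/
def lineW (k : Kind) : ℕ → List ℕ
  | 0 => []
  | i + 1 => (match k with
      | .hex => i % 2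
      | _ => 0) :: lineW k i

/-- The horizontal path with `n` vertices. -/
def lineC (k : Kind) (n : ℕ) : Code := (norm ((List.range n).map (lineW k)), [[]])

/-- The list of edges of a tree. -/
def edgesC (k : Kind) (c : Code) : List ((ℤ × ℤ) × (ℤ × ℤ)) :=
  (c.1.filter (fun w => !decide (w = []))).map (fun w => (posZ (posC k w.tail), posZ (posC k w)))

end Pool.Agent.W955.LT
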