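import Mathlib

/-!
# Lattice trees: basic definitions

The square, hexagonal and triangular lattices as graphs on `ℤ × ℤ`; lattice trees; the description
of a lattice tree containing the origin by the set of its addresses (words of directions); objects
(trees with at most 15 marked vertices), the canonical cut of an object into two objects.
-/

namespace Pool.Agent.W955.LT

open Classical

/-- The three lattices. -/
inductive Kind : Type
  | sq : Kind
  | hex : Kind
  | tri : Kind
  deriving DecidableEq, Inhabited

/-- Adjacency: `sq` is the square lattice; `tri` is the triangular lattice (in coordinates with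
respect to two unit vectors at an angle of 60 degrees); `hex` is the hexagonal lattice (drawn as a
brick wall: all horizontal edges, and the vertical edges with an even lower end). -/
def adj : Kind → ℤ × ℤ → ℤ × ℤ → Prop
  | .sq, a, b => |a.1 - b.1| + |a.2 - b.2| = 1
  | .tri, a, b => |a.1 - b.1| + |a.2 - b.2| = 1 ∨ (b.1 = a.1 + 1 ∧ b.2 = a.2 - 1) ∨
      (b.1 = a.1 - 1 ∧ b.2 = a.2 + 1)
  | .hex, a, b => (a.2 = b.2 ∧ |a.1 - b.1| = 1) ∨
      (a.1 = b.1 ∧ ((b.2 = a.2 + 1 ∧ Even (a.1 + a.2)) ∨ (a.2 = b.2 + 1 ∧ Even (b.1 + b.2))))

/-- The lattice as a simple graph. -/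
def lattice (k : Kind) : SimpleGraph (ℤ × ℤ) where
  Adj := adj k
  symm := by
    constructor
    intro a b h
    cases k
    · simp only [adj] at h ⊢
      rw [abs_sub_comm b.1, abs_sub_comm b.2]; exact h
    · simp only [adj] at h ⊢
      rcases h with ⟨h1, h2⟩ | ⟨h1, h2 | h2⟩
      · exact Or.inl ⟨h1.symm, by rw [abs_sub_comm]; exact h2⟩
      · exact Or.inr ⟨h1.symm, Or.inr h2⟩
      · exact Or.inr ⟨h1.symm, Or.inl h2⟩
    · simp only [adj] at h ⊢
      rcases h with h | ⟨h1, h2⟩ | ⟨h1, h2⟩
      · left; rw [abs_sub_comm b.1, abs_sub_comm b.2]; exact h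
      · right; right; constructor <;> omega
      · right; left; constructor <;> omega
  loopless := by
    constructor
    intro a h
    cases k
    · simp [adj] at h
    · simp [adj] at h
    · simp [adj] at h

/-- The steps from an (even) vertex to its neighbours. -/
def dirs : Kind → List (ℤ × ℤ)
  | .sq => [(1, 0), (-1, 0), (0, 1), (0, -1)]
  | .hex => [(1, 0), (-1, 0), (0, 1)]
  | .tri => [(1, 0), (-1, 0), (0, 1), (0, -1), (1, -1), (-1, 1)]

/-- The number of directions. -/
def nd : Kind → ℕ
  | .sq => 4
  | .hex => 3
  | .tri => 6

/-- The step of direction `d`. -/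
def stp (k : Kind) (d : ℕ) : ℤ × ℤ := (dirs k).getD d (0, 0)

/-- The sign: `-1` at the odd vertices of the hexagonal lattice, `1` otherwise. -/
def sgn (k : Kind) (a : ℤ × ℤ) : ℤ :=
  match k with
  | .sq => 1
  | .tri => 1
  | .hex => if (a.1 + a.2) % 2 = 0 then 1 else -1

/-- The group operation on the vertices: `mul k a` is the automorphism of the lattice (a translation
or a point reflection) which moves the origin to `a`. -/
def mul (k : Kind) (a b : ℤ × ℤ) : ℤ × ℤ := (a.1 + sgn k a * b.1, a.2 + sgn k a * b.2)

/-- The vertex reached from the origin by a word of directions.  Words are read from the right: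
the head of the list is the last step. -/
def pos (k : Kind) : List ℕ → ℤ × ℤ
  | [] => (0, 0)
  | d :: w => mul k (pos k w) (stp k d)

/-- Sets of addresses of lattice trees containing the origin. -/
structure Tr (k : Kind) (A : Finset (List ℕ)) : Prop where
  nil : [] ∈ A
  tail : ∀ d w, d :: w ∈ A → w ∈ A
  dir : ∀ d w, d :: w ∈ A → d < nd k
  inj : Set.InjOn (pos k) (A : Set (List ℕ))

/-- The words of length at most `m` with letters smaller than `q`. -/
def words (q : ℕ) : ℕ → Finset (List ℕ)
  | 0 => {[]}
  | m + 1 => insert [] ((Finset.range q ×ˢ words q m).image (fun p => p.1 :: p.2))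

/-- The trees (sets of addresses) with `m` vertices. -/
noncomputable def trees (k : Kind) (m : ℕ) : Finset (Finset (List ℕ)) :=
  (words (nd k) m).powerset.filter (fun A => Tr k A ∧ A.card = m)

/-- The number of trees with `m` vertices containing the origin. -/
noncomputable def tn (k : Kind) (m : ℕ) : ℕ := (trees k m).card

/-- Objects: a set of addresses and a set of marks. -/
abbrev Obj := Finset (List ℕ) × Finset (List ℕ)

/-- Valid objects: a tree with at most 15 marked vertices, the root being marked. -/
structure Ok (k : Kind) (o : Obj) : Prop where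
  tr : Tr k o.1
  sub : o.2 ⊆ o.1
  nil : [] ∈ o.2
  card : o.2.card ≤ 15

/-- The valid objects with `m` vertices. -/
noncomputable def objs (k : Kind) (m : ℕ) : Finset Obj :=
  ((trees k m) ×ˢ (words (nd k) m).powerset).filter (fun o => Ok k o)

/-- The point. -/
def pt : Obj := ({[]}, {[]})

/-- The part of an object above the address `b` (everything outside the subtree at `b`); the parent
of `b` becomes marked. -/
def up (o : Obj) (b : List ℕ) : Obj :=
  (o.1.filter (fun w => ¬ b <:+ w), insert b.tail (o.2.filter (fun w => ¬ b <:+ w)))

/-- The addresses relative to `b` of the members of `A` in the subtree at `b`. -/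
def below (A : Finset (List ℕ)) (b : List ℕ) : Finset (List ℕ) :=
  (A.filter (fun w => b <:+ w)).image (fun w => w.take (w.length - b.length))

/-- The part of an object in the subtree at `b`, with its root marked. -/
def low (o : Obj) (b : List ℕ) : Obj := (below o.1 b, insert [] (below o.2 b))

/-- Good addresses for a cut: if there are less than 15 marks, both parts have at most
`(6 m + 1) / 7` vertices; if there are 15 marks, both parts have less than 15 marks. -/
def good (o : Obj) (b : List ℕ) : Prop :=
  b ∈ o.1 ∧ b ≠ [] ∧
    if o.2.card < 15 then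
      7 * (up o b).1.card ≤ 6 * o.1.card + 1 ∧ 7 * (low o b).1.card ≤ 6 * o.1.card + 1
    else (up o b).2.card < 15 ∧ (low o b).2.card < 15

/-- The key of a word (injective on words with letters at most 5; its order is the order by length,
then lexicographic). -/
def key (w : List ℕ) : ℕ := w.foldr (fun d acc => 7 * acc + (d + 1)) 0

/-- `b` is the canonical cut address of `o`: the good address with the smallest key. -/
def isCut (o : Obj) (b : List ℕ) : Prop := good o b ∧ ∀ c, good o c → key b ≤ key c

/-- The two parts of an object at its canonical cut; `none` if there is no good address. -/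
noncomputable def kids (o : Obj) : Option Obj × Option Obj :=
  if h : ∃ b, isCut o b then (some (up o h.choose), some (low o h.choose)) else (none, none)

/-- The number of size reductions. -/
def lev (m : ℕ) : ℕ := if h : m ≤ 1 then 0 else 1 + lev ((6 * m + 1) / 7)
  termination_by m
  decreasing_by omega

/-- The decomposition of the object has height at most `r`. -/
def Ht : ℕ → Option Obj → Prop
  | _, none => True
  | 0, some o => o.1.card = 1
  | r + 1, some o => Ht r (kids o).1 ∧ Ht r (kids o).2

/-- Patterns: prescriptions of components of the decomposition of an object. -/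
inductive Pat (O : Type) : Type
  | atom : O → Pat O
  | left : Pat O → Pat O
  | right : Pat O → Pat O
  | both : Pat O → Pat O → Pat O

/-- The object `z` satisfies the pattern. -/
def Pat.holds {O : Type} (kd : O → Option O × Option O) : Pat O → O → Prop
  | .atom x, z => z = x
  | .left p, z => ∃ a b, kd z = (some a, some b) ∧ p.holds kd a
  | .right p, z => ∃ a b, kd z = (some a, some b) ∧ p.holds kd b
  | .both p q, z => ∃ a b, kd z = (some a, some b) ∧ p.holds kd a ∧ q.holds kd b

/-- The list of the prescribed components. -/
def Pat.atoms {O : Type} : Pat O → List O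
  | .atom x => [x]
  | .left p => p.atoms
  | .right p => p.atoms
  | .both p q => p.atoms ++ q.atoms

/-- The object `x` is placed at the address `u` in the object `z`: it is contained, its marks
contain all the marks of `z` in it, and the children of its vertices outside it hang at marks. -/
structure Placed (z x : Obj) (u : List ℕ) : Prop where
  sub : ∀ w ∈ x.1, w ++ u ∈ z.1
  mark : ∀ w ∈ x.1, w ++ u ∈ z.2 → w ∈ x.2
  exit : ∀ w ∈ x.1, ∀ d, d :: (w ++ u) ∈ z.1 → d :: w ∉ x.1 → w ∈ x.2

end Pool.Agent.W955.LT
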