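import Pool.Agent.W955.LT.Mom2

/-!
# Domination of the third moments
-/

namespace Pool.Agent.W955.LT

open Classical Prog

namespace Sys

variable {O : Type} {S : Sys O} {U : Finset O} {q : ℝ} {R : ℕ}

/-- The cost of a pattern. -/
noncomputable def cost (S : Sys O) (U : Finset O) (q : ℝ) (p : Pat O) : ℝ :=
  (p.atoms.map (fun x => q / ((S.Um U (S.size x)).card : ℝ))).prod

/-- The indicator of a pattern. -/
noncomputable def ind (S : Sys O) (p : Pat O) (z : Option O) : ℝ :=
  if ∃ w, z = some w ∧ p.holds S.kids w then 1 else 0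

/-- Combinations of patterns, with their cost. -/
inductive Gd (S : Sys O) (U : Finset O) (q : ℝ) : ℝ → (Option O → ℝ) → Prop
  | one : Gd S U q 1 (fun _ => 1)
  | pat (p : Pat O) : (∀ x ∈ p.atoms, x ∈ U) → Gd S U q (cost S U q p) (ind S p)
  | add {a b : ℝ} {f g : Option O → ℝ} : Gd S U q a f → Gd S U q b g →
      Gd S U q (a + b) (fun z => f z + g z)
  | smul {a c : ℝ} {f : Option O → ℝ} : 0 ≤ c → Gd S U q a f →
      Gd S U q (c * a) (fun z => c * f z)

theorem cost_nonneg (hq : 0 ≤ q) (p : Pat O) : 0 ≤ cost S U q p := by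
  apply List.prod_nonneg
  intro r hr
  rw [List.mem_map] at hr
  obtain ⟨x, _, rfl⟩ := hr
  positivity

theorem ind_nonneg (p : Pat O) (z : Option O) : 0 ≤ ind S p z := by
  unfold ind; split_ifs <;> norm_num

theorem Gd.nonneg (hq : 0 ≤ q) {a : ℝ} {f : Option O → ℝ} (h : Gd S U q a f) :
    0 ≤ a ∧ ∀ z, 0 ≤ f z := by
  induction h with
  | one => exact ⟨zero_le_one, fun _ => zero_le_one⟩
  | pat p _ => exact ⟨cost_nonneg hq p, ind_nonneg p⟩
  | add _ _ h1 h2 => exact ⟨add_nonneg h1.1 h2.1, fun z => add_nonneg (h1.2 z) (h2.2 z)⟩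
  | smul hc _ h1 => exact ⟨mul_nonneg hc h1.1, fun z => mul_nonneg hc (h1.2 z)⟩

theorem Gd.congr {a b : ℝ} {f g : Option O → ℝ} (h : Gd S U q a f) (h1 : a = b)
    (h2 : ∀ z, f z = g z) : Gd S U q b g := by
  have : f = g := funext h2
  rw [← h1, ← this]
  exact h

/-- Parts of valid objects. -/
theorem kd_cases (hS : S.Law U q R) (z : Option O) (hz : Vo U z) :
    (S.kd z = (none, none) ∧ (z = none ∨ z = some S.pt)) ∨
      ∃ w a b, z = some w ∧ S.kids w = (some a, some b) ∧ a ∈ U ∧ b ∈ U := by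
  cases z with
  | none => exact Or.inl ⟨rfl, Or.inl rfl⟩
  | some w =>
    by_cases h : w = S.pt
    · subst h
      exact Or.inl ⟨hS.pt_kids, Or.inr rfl⟩
    · obtain ⟨a, b, h1, h2, h3⟩ := hS.kids w (hz w rfl) h
      exact Or.inr ⟨w, a, b, rfl, h1, h2, h3⟩

theorem Vo_kd (hS : S.Law U q R) (z : Option O) (hz : Vo U z) :
    Vo U (S.kd z).1 ∧ Vo U (S.kd z).2 := by
  rcases kd_cases hS z hz with ⟨h, _⟩ | ⟨w, a, b, rfl, h1, h2, h3⟩
  · rw [h]
    exact ⟨fun _ h => by simp at h, fun _ h => by simp at h⟩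
  · simp only [kd, h1]
    constructor
    · intro o ho
      rw [Option.some_inj] at ho
      rwa [← ho]
    · intro o ho
      rw [Option.some_inj] at ho
      rwa [← ho]

theorem ind_left (hS : S.Law U q R) (p : Pat O) (z : Option O) (hz : Vo U z) :
    ind S (.left p) z = ind S p (S.kd z).1 := by
  rcases kd_cases hS z hz with ⟨h, h'⟩ | ⟨w, a, b, rfl, h1, h2, h3⟩
  · rw [h]
    rcases h' with rfl | rfl
    · simp [ind]
    · simp [ind, Pat.holds, hS.pt_kids]
  · simp only [ind, kd, h1, Option.some_inj, exists_eq_left', Pat.holds, Prod.mk.injEq]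
    congr 1
    apply propext
    constructor
    · rintro ⟨a', b', ⟨h4, _⟩, h5⟩; rwa [h4]
    · intro h; exact ⟨a, b, ⟨rfl, rfl⟩, h⟩

theorem ind_right (hS : S.Law U q R) (p : Pat O) (z : Option O) (hz : Vo U z) :
    ind S (.right p) z = ind S p (S.kd z).2 := by
  rcases kd_cases hS z hz with ⟨h, h'⟩ | ⟨w, a, b, rfl, h1, h2, h3⟩
  · rw [h]
    rcases h' with rfl | rfl
    · simp [ind]
    · simp [ind, Pat.holds, hS.pt_kids]
  · simp only [ind, kd, h1, Option.some_inj, exists_eq_left', Pat.holds, Prod.mk.injEq]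
    congr 1
    apply propext
    constructor
    · rintro ⟨a', b', ⟨_, h4⟩, h5⟩; rwa [h4]
    · intro h; exact ⟨a, b, ⟨rfl, rfl⟩, h⟩

theorem ind_both (hS : S.Law U q R) (p p' : Pat O) (z : Option O) (hz : Vo U z) :
    ind S (.both p p') z = ind S p (S.kd z).1 * ind S p' (S.kd z).2 := by
  rcases kd_cases hS z hz with ⟨h, h'⟩ | ⟨w, a, b, rfl, h1, h2, h3⟩
  · rw [h]
    rcases h' with rfl | rfl
    · simp [ind]
    · simp [ind, Pat.holds, hS.pt_kids]
  · have e : (∃ w_1, (some w : Option O) = some w_1 ∧ (Pat.both p p').holds S.kids w_1) ↔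
        (∃ w_1, (S.kd (some w)).1 = some w_1 ∧ p.holds S.kids w_1) ∧
        (∃ w_1, (S.kd (some w)).2 = some w_1 ∧ p'.holds S.kids w_1) := by
      simp only [kd, h1, Option.some_inj, exists_eq_left', Pat.holds, Prod.mk.injEq]
      constructor
      · rintro ⟨a', b', ⟨h4, h4'⟩, h5, h6⟩
        rw [h4, h4']; exact ⟨h5, h6⟩
      · rintro ⟨h5, h6⟩; exact ⟨a, b, ⟨rfl, rfl⟩, h5, h6⟩
    unfold ind
    by_cases c1 : ∃ w_1, (S.kd (some w)).1 = some w_1 ∧ p.holds S.kids w_1
    · by_cases c2 : ∃ w_1, (S.kd (some w)).2 = some w_1 ∧ p'.holds S.kids w_1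
      · rw [if_pos (e.2 ⟨c1, c2⟩), if_pos c1, if_pos c2, mul_one]
      · rw [if_neg (fun h => c2 (e.1 h).2), if_neg c2, mul_zero]
    · rw [if_neg (fun h => c1 (e.1 h).1), if_neg c1, zero_mul]

theorem Gd.prod (hS : S.Law U q R) {a : ℝ} {f : Option O → ℝ} (hf : Gd S U q a f) :
    ∀ {b : ℝ} {g : Option O → ℝ}, Gd S U q b g →
      ∃ h, Gd S U q (a * b) h ∧ ∀ z, Vo U z → h z = f (S.kd z).1 * g (S.kd z).2 := by
  induction hf with
  | one =>
    intro b g hg
    induction hg with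
    | one => exact ⟨_, Gd.one.congr (by norm_num) (fun _ => rfl), fun z _ => by norm_num⟩
    | pat p hp =>
      refine ⟨ind S (.right p), (Gd.pat (.right p) hp).congr ?_ fun _ => rfl, fun z hz => ?_⟩
      · rw [one_mul]; rfl
      · rw [ind_right hS p z hz, one_mul]
    | add _ _ h1 h2 =>
      obtain ⟨k1, g1, e1⟩ := h1
      obtain ⟨k2, g2, e2⟩ := h2
      refine ⟨_, (g1.add g2).congr (by ring) fun _ => rfl, fun z hz => ?_⟩
      rw [e1 z hz, e2 z hz]; ring
    | smul hc _ h1 =>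
      obtain ⟨k1, g1, e1⟩ := h1
      refine ⟨_, (g1.smul hc).congr (by ring) fun _ => rfl, fun z hz => ?_⟩
      rw [e1 z hz]; ring
  | pat p hp =>
    intro b g hg
    induction hg with
    | one =>
      refine ⟨ind S (.left p), (Gd.pat (.left p) hp).congr ?_ fun _ => rfl, fun z hz => ?_⟩
      · rw [mul_one]; rfl
      · rw [ind_left hS p z hz, mul_one]
    | pat p' hp' =>
      refine ⟨ind S (.both p p'), (Gd.pat (.both p p') ?_).congr ?_ fun _ => rfl, fun z hz => ?_⟩
      · intro x hx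
        simp only [Pat.atoms, List.mem_append] at hx
        exact hx.elim (hp x) (hp' x)
      · simp only [cost, Pat.atoms, List.map_append, List.prod_append]
      · rw [ind_both hS p p' z hz]
    | add _ _ h1 h2 =>
      obtain ⟨k1, g1, e1⟩ := h1
      obtain ⟨k2, g2, e2⟩ := h2
      refine ⟨_, (g1.add g2).congr (by ring) fun _ => rfl, fun z hz => ?_⟩
      rw [e1 z hz, e2 z hz]; ring
    | smul hc _ h1 =>
      obtain ⟨k1, g1, e1⟩ := h1
      refine ⟨_, (g1.smul hc).congr (by ring) fun _ => rfl, fun z hz => ?_⟩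
      rw [e1 z hz]; ring
  | add _ _ h1 h2 =>
    intro b g hg
    obtain ⟨k1, g1, e1⟩ := h1 hg
    obtain ⟨k2, g2, e2⟩ := h2 hg
    refine ⟨_, (g1.add g2).congr (by ring) fun _ => rfl, fun z hz => ?_⟩
    rw [e1 z hz, e2 z hz]; ring
  | smul hc _ h1 =>
    intro b g hg
    obtain ⟨k1, g1, e1⟩ := h1 hg
    refine ⟨_, (g1.smul hc).congr (by ring) fun _ => rfl, fun z hz => ?_⟩
    rw [e1 z hz]; ring

/-- Domination. -/
def Dom (S : Sys O) (U : Finset O) (q : ℝ) (c : ℝ) (h : Option O → ℝ) : Prop :=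
  ∃ c' F, Gd S U q c' F ∧ c' ≤ c ∧ ∀ z, Vo U z → h z ≤ F z

theorem Dom.mono {c c' : ℝ} {h h' : Option O → ℝ} (H : Dom S U q c h) (hc : c ≤ c')
    (hh : ∀ z, Vo U z → h' z ≤ h z) : Dom S U q c' h' := by
  obtain ⟨a, F, h1, h2, h3⟩ := H
  exact ⟨a, F, h1, h2.trans hc, fun z hz => (hh z hz).trans (h3 z hz)⟩

theorem Dom.add {a b : ℝ} {f g : Option O → ℝ} (H1 : Dom S U q a f) (H2 : Dom S U q b g) :
    Dom S U q (a + b) (fun z => f z + g z) := by
  obtain ⟨a', F, h1, h2, h3⟩ := H1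
  obtain ⟨b', G, h4, h5, h6⟩ := H2
  exact ⟨_, _, h1.add h4, by linarith, fun z hz => add_le_add (h3 z hz) (h6 z hz)⟩

theorem Dom.smul {a c : ℝ} {f : Option O → ℝ} (hc : 0 ≤ c) (h1 : Dom S U q a f) :
    Dom S U q (c * a) (fun z => c * f z) := by
  obtain ⟨a', F, h1, h2, h3⟩ := h1
  exact ⟨_, _, h1.smul hc, mul_le_mul_of_nonneg_left h2 hc,
    fun z hz => mul_le_mul_of_nonneg_left (h3 z hz) hc⟩

theorem Dom.one : Dom S U q 1 (fun _ => 1) := ⟨_, _, Gd.one, le_rfl, fun _ _ => le_rfl⟩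

theorem Dom.zero : Dom S U q 0 (fun _ => 0) :=
  (Dom.one.smul le_rfl).mono (by norm_num) fun _ _ => by norm_num

theorem Dom.sum {ι : Type} (s : Finset ι) (c : ι → ℝ) (h : ι → Option O → ℝ)
    (H : ∀ i ∈ s, Dom S U q (c i) (h i)) : Dom S U q (∑ i ∈ s, c i) (fun z => ∑ i ∈ s, h i z) := by
  induction s using Finset.induction_on with
  | empty => simpa using Dom.zero
  | insert i s hi ih =>
    simp only [Finset.sum_insert hi]
    exact (H i (Finset.mem_insert_self i s)).add
      (ih fun j hj => H j (Finset.mem_insert_of_mem hj))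

theorem Dom.prod (hS : S.Law U q R) {a b : ℝ} {f g : Option O → ℝ} (hf : Dom S U q a f)
    (hg : Dom S U q b g) (hg0 : ∀ z, 0 ≤ g z) :
    Dom S U q (a * b) (fun z => f (S.kd z).1 * g (S.kd z).2) := by
  have hq : 0 ≤ q := zero_le_one.trans hS.hq
  obtain ⟨a', F, h1, h2, h3⟩ := hf
  obtain ⟨b', G, h4, h5, h6⟩ := hg
  obtain ⟨H, h7, h8⟩ := Gd.prod hS h1 h4
  obtain ⟨n1, n2⟩ := h1.nonneg hq
  obtain ⟨n3, n4⟩ := h4.nonneg hq
  refine ⟨_, _, h7, mul_le_mul h2 h5 n3 (n1.trans h2), fun z hz => ?_⟩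
  obtain ⟨v1, v2⟩ := Vo_kd hS z hz
  rw [h8 z hz]
  exact mul_le_mul (h3 _ v1) (h6 _ v2) (hg0 _) (n2 _)

theorem Um_pos (x : O) (hx : x ∈ U) : 0 < (S.Um U (S.size x)).card :=
  Finset.card_pos.2 ⟨x, Finset.mem_filter.2 ⟨hx, rfl⟩⟩

theorem cost_bound (p : Pat O) (hp : ∀ x ∈ p.atoms, x ∈ U) (a b : ℝ)
    (h : a * ((p.atoms.map (fun x => (((U.filter (fun z => S.size z = S.size x)).card : ℝ)))).prod) ≤
      q ^ p.atoms.length * b) : a ≤ cost S U q p * b := by
  have key : ∀ l : List O, (∀ x ∈ l, x ∈ U) →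
      0 < (l.map (fun x => (((U.filter (fun z => S.size z = S.size x)).card : ℝ)))).prod ∧
      (l.map (fun x => q / ((S.Um U (S.size x)).card : ℝ))).prod *
      (l.map (fun x => (((U.filter (fun z => S.size z = S.size x)).card : ℝ)))).prod =
      q ^ l.length := by
    intro l
    induction l with
    | nil => intro _; simp
    | cons x l ih =>
      intro hl
      obtain ⟨i1, i2⟩ := ih fun y hy => hl y (List.mem_cons_of_mem _ hy)
      have h1 : (0 : ℝ) < ((S.Um U (S.size x)).card : ℝ) := by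
        exact_mod_cast Um_pos x (hl x (by simp))
      have h2 : (S.Um U (S.size x)).card = (U.filter (fun z => S.size z = S.size x)).card := rfl
      constructor
      · rw [List.map_cons, List.prod_cons]
        exact mul_pos h1 i1
      · rw [List.map_cons, List.prod_cons, List.map_cons, List.prod_cons, List.length_cons, pow_succ,
          ← i2, ← h2]
        field_simp
  obtain ⟨k1, k2⟩ := key p.atoms hp
  rw [← k2] at h
  refine le_of_mul_le_mul_right ?_ k1
  refine h.trans (le_of_eq ?_)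
  rw [cost]
  ring

theorem sum_ind_le (p : Pat O) (s : Finset O) :
    ∑ w ∈ s, ind S p (some w) = ((s.filter (fun z => p.holds S.kids z)).card : ℝ) := by
  rw [Finset.card_filter]
  push_cast
  refine Finset.sum_congr rfl fun w _ => ?_
  simp [ind]

theorem Gd.sum_le (s : Finset O) (hs : ∀ p : Pat O, (∀ x ∈ p.atoms, x ∈ U) →
    ((s.filter (fun z => p.holds S.kids z)).card : ℝ) ≤ cost S U q p * s.card) {c : ℝ}
    {f : Option O → ℝ} (h : Gd S U q c f) : ∑ w ∈ s, f (some w) ≤ c * s.card := by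
  induction h with
  | one => simp
  | pat p hp => rw [sum_ind_le]; exact hs p hp
  | add _ _ h1 h2 => rw [Finset.sum_add_distrib]; linarith
  | smul hc _ h1 =>
    rw [← Finset.mul_sum, mul_assoc]
    exact mul_le_mul_of_nonneg_left h1 hc

theorem Dom.sum_le (s : Finset O) (hsU : s ⊆ U) (hs : ∀ p : Pat O, (∀ x ∈ p.atoms, x ∈ U) →
    ((s.filter (fun z => p.holds S.kids z)).card : ℝ) ≤ cost S U q p * s.card) {c : ℝ}
    {f : Option O → ℝ} (h : Dom S U q c f) : ∑ w ∈ s, f (some w) ≤ c * s.card := by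
  obtain ⟨c', F, h1, h2, h3⟩ := h
  refine (Finset.sum_le_sum fun w hw => h3 (some w) ?_).trans ((h1.sum_le s hs).trans ?_)
  · intro z hz
    rw [Option.some_inj] at hz
    rw [← hz]
    exact hsU hw
  · exact mul_le_mul_of_nonneg_right h2 (by positivity)

theorem Dom.sum_Um (hS : S.Law U q R) (m : ℕ) {c : ℝ} {f : Option O → ℝ} (h : Dom S U q c f) :
    ∑ w ∈ S.Um U m, f (some w) ≤ c * (S.Um U m).card :=
  h.sum_le _ (Finset.filter_subset _ _) fun p hp => cost_bound p hp _ _ (hS.cb p hp m)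

/-- The set of final objects. -/
noncomputable def Tp (S : Sys O) (U : Finset O) : Finset O :=
  U.filter (fun z => S.size z = S.n ∧ S.top z = true)

theorem Dom.sum_Tp (hS : S.Law U q R) {c : ℝ} {f : Option O → ℝ} (h : Dom S U q c f) :
    ∑ w ∈ S.Tp U, f (some w) ≤ c * (S.Tp U).card :=
  h.sum_le _ (Finset.filter_subset _ _) fun p hp => cost_bound p hp _ _ (hS.cbt p hp)

theorem Dom.atom (x : O) (hx : x ∈ U) :
    Dom S U q (q / ((S.Um U (S.size x)).card : ℝ)) (fun z => ex z (some x)) := by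
  refine ⟨_, _, Gd.pat (.atom x) (by simpa [Pat.atoms] using hx), ?_, fun z _ => ?_⟩
  · simp [cost, Pat.atoms]
  · have h1 := ind_nonneg (S := S) (.atom x) z
    by_cases h : z = some x
    · have h2 : ind S (.atom x) z = 1 := by
        unfold ind
        rw [if_pos ⟨x, h, rfl⟩]
      rw [h2]
      change ex z (some x) ≤ 1
      unfold ex
      split_ifs <;> norm_num
    · have h2 : ex z (some x) = 0 := by
        unfold ex
        rw [if_neg (fun e => h e.1)]
      change ex z (some x) ≤ _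
      rw [h2]
      exact h1

/-! ### Pools -/

theorem base_ok (hS : S.Law U q R) : (S.base).1 ≠ 0 := by
  have := hS.hN
  change S.N ≠ 0
  omega

theorem comb_ok (hS : S.Law U q R) (p1 p2 : Pl O) (h1 : p1.1 ≠ 0) (h2 : p2.1 ≠ 0)
    (x : Option O) : (S.comb p1 p2 x).All (fun p => p.1 ≠ 0) := by
  have := hS.hN
  have h : ∀ l, (S.mkp p1 p2 l).1 ≠ 0 := by
    intro l
    change S.N * p1.1 * p2.1 ≠ 0
    have : S.N ≠ 0 := by omega
    positivity
  refine all_bind _ (all_true _) _ fun l _ => ?_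
  cases x with
  | none => exact h l
  | some o => intro u _; exact h _

theorem pool_ok (hS : S.Law U q R) : ∀ (r : ℕ) (x : Option O),
    (S.pool r x).All (fun p => p.1 ≠ 0)
  | 0, _ => base_ok hS
  | r + 1, x => all_bind _ (pool_ok hS r _) _ fun p1 h1 =>
      all_bind _ (pool_ok hS r _) _ fun p2 h2 => comb_ok hS p1 p2 h1 h2 x

theorem E_pool_succ (r : ℕ) (F : Pl O → ℝ) : (S.pool (r + 1) none).E F =
    (S.pool r none).E (fun p1 => (S.pool r none).E (fun p2 => (S.comb p1 p2 none).E F)) := by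
  simp only [pool, kd, E_bind]

theorem M_base (hS : S.Law U q R) (x : O) : S.M S.base (some x) = if x = S.pt then 1 else 0 := by
  have hN2 := hS.hN
  have hn := hS.hn
  have hN : (S.N : ℝ) ≠ 0 := by
    have : 0 < S.N := by omega
    positivity
  by_cases h : x = S.pt
  · subst h
    have e1 : wt S.base (S.size S.pt) = 1 := by
      rw [hS.pt_size]
      simp only [wt, base]
      rw [List.getD_eq_getElem?_getD, List.getElem?_map, List.getElem?_range (by omega)]
      rfl
    have e2 : cnt S.base.2.2 (some S.pt) = S.N := by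
      simp [cnt, base, List.countP_replicate]
    rw [if_pos rfl]
    simp only [M, e1, e2]
    change (((1 : ℕ) : ℝ) * S.N) / S.N = 1
    rw [Nat.cast_one, one_mul]
    exact div_self hN
  · have e2 : cnt S.base.2.2 (some x) = 0 := by
      have : ¬ S.pt = x := fun e => h e.symm
      simp [cnt, base, List.countP_replicate, this]
    rw [if_neg h]
    simp [M, e2]

theorem HtG_kd (r : ℕ) (x : Option O) (h : HtG S (r + 1) x) :
    HtG S r (S.kd x).1 ∧ HtG S r (S.kd x).2 := by
  cases x with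
  | none =>
    have : ∀ r, HtG S r none := fun r => by cases r <;> trivial
    exact ⟨this r, this r⟩
  | some o => exact h

theorem M_base_ht (hS : S.Law U q R) (x : Option O) (h : HtG S 0 x) : S.M S.base x = 1 := by
  cases x with
  | none => rfl
  | some o =>
    have h' : o = S.pt := h
    rw [M_base hS, if_pos h']

/-- Conditioning for pools. -/
theorem pool_cond (hS : S.Law U q R) : ∀ (r : ℕ) (x : Option O), Vo U x → HtG S r x →
    ∀ F : Pl O → ℝ, (S.pool r x).E F = (S.pool r none).E (fun p => S.M p x * F p)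
  | 0, x, _, h, F => by
    change F S.base = S.M S.base x * F S.base
    rw [M_base_ht hS x h, one_mul]
  | r + 1, x, hx, h, F => by
    obtain ⟨v1, v2⟩ := Vo_kd hS x hx
    obtain ⟨t1, t2⟩ := HtG_kd r x h
    rw [E_pool_succ]
    have e1 : (S.pool (r + 1) x).E F = (S.pool r (S.kd x).1).E (fun p1 =>
        (S.pool r (S.kd x).2).E (fun p2 => (S.comb p1 p2 x).E F)) := by
      simp only [pool, E_bind]
    rw [e1, pool_cond hS r _ v1 t1]
    refine E_congr_all _ (pool_ok hS r none) fun p1 h1 => ?_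
    rw [pool_cond hS r _ v2 t2, ← E_mul_left]
    refine E_congr_all _ (pool_ok hS r none) fun p2 h2 => ?_
    rw [← comb_cond hS p1 p2 h1 h2 x hx F, P]
    ring

/-- Second moments. -/
noncomputable def Q2 (S : Sys O) (r : ℕ) (x y : Option O) : ℝ :=
  (S.pool r none).E (fun p => S.M p x * S.M p y)

/-- Third moments. -/
noncomputable def Q3 (S : Sys O) (r : ℕ) (x y z : Option O) : ℝ :=
  (S.pool r none).E (fun p => S.M p x * S.M p y * S.M p z)

/-- Second moments of the parts. -/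
noncomputable def t2 (S : Sys O) (r : ℕ) (x y : Option O) : ℝ :=
  S.Q2 r (S.kd x).1 (S.kd y).1 * S.Q2 r (S.kd x).2 (S.kd y).2

/-- Third moments of the parts. -/
noncomputable def t3 (S : Sys O) (r : ℕ) (x y z : Option O) : ℝ :=
  S.Q3 r (S.kd x).1 (S.kd y).1 (S.kd z).1 * S.Q3 r (S.kd x).2 (S.kd y).2 (S.kd z).2

/-- Expectation over two independent pools. -/
noncomputable def EE (S : Sys O) (r : ℕ) (F : Pl O → Pl O → ℝ) : ℝ :=
  (S.pool r none).E (fun p1 => (S.pool r none).E (fun p2 => F p1 p2))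

theorem EE_mul (r : ℕ) (f g : Pl O → ℝ) :
    S.EE r (fun p1 p2 => f p1 * g p2) = (S.pool r none).E f * (S.pool r none).E g := by
  unfold EE
  simp only [E_mul_left, E_mul_right]

theorem EE_add (r : ℕ) (f g : Pl O → Pl O → ℝ) :
    S.EE r (fun p1 p2 => f p1 p2 + g p1 p2) = S.EE r f + S.EE r g := by
  unfold EE
  simp only [E_add]

theorem EE_smul (r : ℕ) (c : ℝ) (f : Pl O → Pl O → ℝ) :
    S.EE r (fun p1 p2 => c * f p1 p2) = c * S.EE r f := by
  unfold EE
  simp only [E_mul_left]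

theorem EE_sum {ι : Type} (r : ℕ) (s : Finset ι) (f : ι → Pl O → Pl O → ℝ) :
    S.EE r (fun p1 p2 => ∑ i ∈ s, f i p1 p2) = ∑ i ∈ s, S.EE r (f i) := by
  unfold EE
  simp only [E_sum]

theorem EE_mono (hS : S.Law U q R) (r : ℕ) {f g : Pl O → Pl O → ℝ}
    (h : ∀ p1 p2 : Pl O, p1.1 ≠ 0 → p2.1 ≠ 0 → f p1 p2 ≤ g p1 p2) : S.EE r f ≤ S.EE r g :=
  E_mono_all _ (pool_ok hS r none) fun p1 h1 => E_mono_all _ (pool_ok hS r none) fun p2 h2 =>
    h p1 p2 h1 h2

theorem EE_P2 (r : ℕ) (x y : Option O) :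
    S.EE r (fun p1 p2 => P S p1 p2 x * P S p1 p2 y) = S.t2 r x y := by
  have : ∀ p1 p2 : Pl O, P S p1 p2 x * P S p1 p2 y =
      (S.M p1 (S.kd x).1 * S.M p1 (S.kd y).1) * (S.M p2 (S.kd x).2 * S.M p2 (S.kd y).2) := by
    intro p1 p2; simp only [P]; ring
  simp only [this]
  rw [EE_mul]; rfl

theorem EE_P3 (r : ℕ) (x y z : Option O) :
    S.EE r (fun p1 p2 => P S p1 p2 x * P S p1 p2 y * P S p1 p2 z) = S.t3 r x y z := by
  have : ∀ p1 p2 : Pl O, P S p1 p2 x * P S p1 p2 y * P S p1 p2 z =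
      (S.M p1 (S.kd x).1 * S.M p1 (S.kd y).1 * S.M p1 (S.kd z).1) *
        (S.M p2 (S.kd x).2 * S.M p2 (S.kd y).2 * S.M p2 (S.kd z).2) := by
    intro p1 p2; simp only [P]; ring
  simp only [this]
  rw [EE_mul]; rfl

/-- The objects of the same size. -/
noncomputable def Uo (S : Sys O) (U : Finset O) : Option O → Finset O
  | none => ∅
  | some z => S.Um U (S.size z)

theorem Zo_eq (p1 p2 : Pl O) (x : Option O) :
    Zo S U p1 p2 x = ∑ w ∈ S.Uo U x, P S p1 p2 (some w) := by
  cases x <;> simp [Zo, Uo, Z]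

/-- The second moments with the diagonal term. -/
noncomputable def D2 (S : Sys O) (U : Finset O) (r : ℕ) (x y : Option O) : ℝ :=
  S.t2 r x y + S.n / S.N * ex x y * ∑ w ∈ S.Uo U x, S.t2 r x (some w)

theorem Q2_nonneg (r : ℕ) (x y : Option O) : 0 ≤ S.Q2 r x y :=
  E_nonneg _ fun p => mul_nonneg (S.M_nonneg p x) (S.M_nonneg p y)

theorem Q3_nonneg (r : ℕ) (x y z : Option O) : 0 ≤ S.Q3 r x y z :=
  E_nonneg _ fun p => mul_nonneg (mul_nonneg (S.M_nonneg p x) (S.M_nonneg p y)) (S.M_nonneg p z)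

theorem t2_nonneg (r : ℕ) (x y : Option O) : 0 ≤ S.t2 r x y :=
  mul_nonneg (Q2_nonneg _ _ _) (Q2_nonneg _ _ _)

theorem t3_nonneg (r : ℕ) (x y z : Option O) : 0 ≤ S.t3 r x y z :=
  mul_nonneg (Q3_nonneg _ _ _ _) (Q3_nonneg _ _ _ _)

theorem Q2_succ (hS : S.Law U q R) (r : ℕ) (x y : Option O) (hx : Vo U x) (hy : Vo U y) :
    (1 - 1 / S.N) * D2 S U r x y ≤ S.Q2 (r + 1) x y := by
  have h1 : S.Q2 (r + 1) x y = S.EE r (fun p1 p2 =>
      (S.comb p1 p2 none).E (fun p => S.M p x * S.M p y)) := by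
    rw [Q2, E_pool_succ]; rfl
  rw [h1]
  refine le_trans (le_of_eq ?_) (EE_mono hS r fun p1 p2 h1 h2 => mom2 hS p1 p2 h1 h2 x y hx hy)
  rw [EE_smul, EE_add, EE_P2]
  have e : ∀ p1 p2 : Pl O, S.n / S.N * ex x y * Zo S U p1 p2 x * P S p1 p2 x =
      S.n / S.N * ex x y * ∑ w ∈ S.Uo U x, P S p1 p2 x * P S p1 p2 (some w) := by
    intro p1 p2
    rw [Zo_eq, Finset.mul_sum, Finset.sum_mul, Finset.mul_sum]
    exact Finset.sum_congr rfl fun w _ => by ring
  simp only [e]
  rw [EE_smul, EE_sum]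
  simp only [EE_P2, D2]

theorem Q3_succ (hS : S.Law U q R) (r : ℕ) (x y z : Option O) (hx : Vo U x) (hy : Vo U y)
    (hz : Vo U z) : S.Q3 (r + 1) x y z ≤ S.t3 r x y z +
      S.n / S.N * ex x y * (∑ w ∈ S.Uo U x, S.t3 r x (some w) z) +
      S.n / S.N * ex z x * (∑ w ∈ S.Uo U x, S.t3 r x y (some w)) +
      S.n / S.N * ex z y * (∑ w ∈ S.Uo U y, S.t3 r x y (some w)) +
      S.n / S.N * ex z x * (S.n / S.N * ex x y *
        (∑ w ∈ S.Uo U x, ∑ w' ∈ S.Uo U x, S.t3 r x (some w) (some w'))) := by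
  have h1 : S.Q3 (r + 1) x y z = S.EE r (fun p1 p2 =>
      (S.comb p1 p2 none).E (fun p => S.M p x * S.M p y * S.M p z)) := by
    rw [Q3, E_pool_succ]; rfl
  rw [h1]
  refine (EE_mono hS r fun p1 p2 h1 h2 => mom3 hS p1 p2 h1 h2 x y z hx hy hz).trans
    (le_of_eq ?_)
  simp only [B3]
  rw [EE_add, EE_add, EE_add, EE_add, EE_P3, EE_smul, EE_smul, EE_smul, EE_smul, EE_smul]
  have e1 : S.EE r (fun p1 p2 => Zo S U p1 p2 x * P S p1 p2 x * P S p1 p2 z) =
      ∑ w ∈ S.Uo U x, S.t3 r x (some w) z := by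
    simp only [← EE_P3]
    rw [← EE_sum]
    congr 1
    funext p1 p2
    rw [Zo_eq, Finset.sum_mul, Finset.sum_mul]
    exact Finset.sum_congr rfl fun w _ => by ring
  have e2 : S.EE r (fun p1 p2 => Zo S U p1 p2 x * P S p1 p2 x * P S p1 p2 y) =
      ∑ w ∈ S.Uo U x, S.t3 r x y (some w) := by
    simp only [← EE_P3]
    rw [← EE_sum]
    congr 1
    funext p1 p2
    rw [Zo_eq, Finset.sum_mul, Finset.sum_mul]
    exact Finset.sum_congr rfl fun w _ => by ring
  have e3 : S.EE r (fun p1 p2 => Zo S U p1 p2 y * P S p1 p2 y * P S p1 p2 x) =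
      ∑ w ∈ S.Uo U y, S.t3 r x y (some w) := by
    simp only [← EE_P3]
    rw [← EE_sum]
    congr 1
    funext p1 p2
    rw [Zo_eq, Finset.sum_mul, Finset.sum_mul]
    exact Finset.sum_congr rfl fun w _ => by ring
  have e4 : S.EE r (fun p1 p2 => Zo S U p1 p2 x ^ 2 * P S p1 p2 x) =
      ∑ w ∈ S.Uo U x, ∑ w' ∈ S.Uo U x, S.t3 r x (some w) (some w') := by
    simp only [← EE_P3]
    simp only [← EE_sum]
    congr 1
    funext p1 p2
    rw [Zo_eq, sq, Finset.sum_mul_sum, Finset.sum_mul]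
    refine Finset.sum_congr rfl fun w _ => ?_
    rw [Finset.sum_mul]
    exact Finset.sum_congr rfl fun w' _ => by ring
  rw [e1, e2, e3, e4]

/-- The growth of the constants. -/
noncomputable def lam (S : Sys O) (q : ℝ) : ℕ → ℝ
  | 0 => 1
  | r + 1 => lam S q r ^ 2 * (1 + 2 * q * S.n / S.N) / (1 - 1 / S.N)

theorem b_pos (hS : S.Law U q R) : (0 : ℝ) < 1 - 1 / S.N := by
  have hN2 := hS.hN
  have hN : (2 : ℝ) ≤ S.N := by exact_mod_cast hN2
  have : (1 : ℝ) / S.N ≤ 1 / 2 := one_div_le_one_div_of_le (by norm_num) hN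
  linarith

theorem lam_pos (hS : S.Law U q R) : ∀ r, 0 < lam S q r
  | 0 => one_pos
  | r + 1 => by
    have h1 := lam_pos hS r
    have h2 := b_pos hS
    have h3 : 0 < q := zero_lt_one.trans_le hS.hq
    rw [lam]
    positivity

/-- Domination of the third moments. -/
theorem dom3 (hS : S.Law U q R) : ∀ (r : ℕ) (x y : Option O), Vo U x → Vo U y →
    Dom S U q (lam S q r * S.Q2 r x y) (fun z => S.Q3 r x y z)
  | 0, x, y, hx, hy => by
    have h1 : S.Q2 0 x y = S.M S.base x * S.M S.base y := rfl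
    refine (Dom.one.smul (Q2_nonneg (S := S) 0 x y)).mono (by simp [lam]) fun z hz => ?_
    have h2 : S.Q3 0 x y z = S.M S.base x * S.M S.base y * S.M S.base z := rfl
    rw [h1, h2]
    refine mul_le_mul_of_nonneg_left ?_ (mul_nonneg (S.M_nonneg _ _) (S.M_nonneg _ _))
    cases z with
    | none => exact le_rfl
    | some o => rw [M_base hS]; split_ifs <;> norm_num
  | r + 1, x, y, hx, hy => by
    have hb := b_pos hS
    have hl := lam_pos hS r
    have hq0 : 0 < q := zero_lt_one.trans_le hS.hq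
    have hnN : (0 : ℝ) ≤ S.n / S.N := by positivity
    set L := lam S q r with hL
    -- the products
    have hprod : ∀ x y : Option O, Vo U x → Vo U y →
        Dom S U q (L ^ 2 * S.t2 r x y) (fun z => S.t3 r x y z) := by
      intro x y hx hy
      obtain ⟨v1, v2⟩ := Vo_kd hS x hx
      obtain ⟨v3, v4⟩ := Vo_kd hS y hy
      exact (Dom.prod hS (dom3 hS r _ _ v1 v3) (dom3 hS r _ _ v2 v4)
        fun z => Q3_nonneg _ _ _ _).mono (le_of_eq (by rw [t2]; ring)) fun z _ => le_rfl
    have hUo : ∀ w ∈ S.Uo U x, Vo U (some w) := by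
      intro w hw z hz
      rw [Option.some_inj] at hz
      subst hz
      cases x with
      | none => simp [Uo] at hw
      | some x => exact (Finset.mem_filter.1 hw).1
    have hex := ex_nonneg x y
    set D := L ^ 2 * D2 S U r x y with hD
    have hDexp : D = L ^ 2 * S.t2 r x y + S.n / S.N * ex x y *
        ∑ w ∈ S.Uo U x, L ^ 2 * S.t2 r x (some w) := by
      rw [hD, D2, ← Finset.mul_sum]; ring
    have hsum0 : 0 ≤ ∑ w ∈ S.Uo U x, L ^ 2 * S.t2 r x (some w) :=
      Finset.sum_nonneg fun w _ => mul_nonneg (by positivity) (t2_nonneg _ _ _)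
    have hD1 : L ^ 2 * S.t2 r x y ≤ D := by
      rw [hDexp]
      have : 0 ≤ S.n / S.N * ex x y * ∑ w ∈ S.Uo U x, L ^ 2 * S.t2 r x (some w) := by positivity
      linarith
    have hD0 : 0 ≤ D := by
      refine le_trans ?_ hD1
      exact mul_nonneg (by positivity) (t2_nonneg _ _ _)
    -- the first two terms
    have d1 : Dom S U q D (fun z => S.t3 r x y z + S.n / S.N * ex x y *
        (∑ w ∈ S.Uo U x, S.t3 r x (some w) z)) := by
      rw [hDexp]
      refine (hprod x y hx hy).add (Dom.smul (by positivity) ?_)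
      exact Dom.sum _ _ _ fun w hw => hprod x (some w) hx (hUo w hw)
    -- sums over sizes
    have hs : ∀ (y : Option O), Vo U y → ∀ m, ∑ w ∈ S.Um U m, S.t3 r x y (some w) ≤
        L ^ 2 * S.t2 r x y * (S.Um U m).card := fun y hy m => (hprod x y hx hy).sum_Um hS m
    -- atoms
    have d2 : ∀ x : Option O, Vo U x → Dom S U q (S.n / S.N * q * D)
        (fun z => S.n / S.N * ex z x * ((S.Uo U x).card * D)) := by
      intro x hx
      cases x with
      | none =>
        refine Dom.zero.mono (by positivity) fun z _ => ?_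
        rw [ex_none_right]; simp
      | some o =>
        have ho := hx o rfl
        have hpos : (0 : ℝ) < (S.Um U (S.size o)).card := by exact_mod_cast Um_pos o ho
        refine ((Dom.atom (S := S) (q := q) o ho).smul
          (c := S.n / S.N * ((S.Um U (S.size o)).card * D)) (by positivity)).mono
            (le_of_eq ?_) fun z _ => le_of_eq ?_
        · field_simp
        · simp only [Uo]; ring
    refine ((d1.add (d2 x hx)).add (d2 y hy)).mono ?_ fun z hz => ?_
    · -- the cost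
      have h1 := Q2_succ hS r x y hx hy
      have h2 : D2 S U r x y ≤ S.Q2 (r + 1) x y / (1 - 1 / S.N) := by
        rw [le_div_iff₀ hb]; linarith
      have h3 : D + S.n / S.N * q * D + S.n / S.N * q * D =
          L ^ 2 * (1 + 2 * q * S.n / S.N) * D2 S U r x y := by
        rw [hD]; ring
      rw [h3, lam, ← hL]
      have h4 : 0 ≤ L ^ 2 * (1 + 2 * q * S.n / S.N) := by positivity
      refine (mul_le_mul_of_nonneg_left h2 h4).trans (le_of_eq ?_)
      field_simp
    · -- the bound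
      refine (Q3_succ hS r x y z hx hy hz).trans ?_
      have hzx := ex_nonneg z x
      have hzy := ex_nonneg z y
      have k1 : ∑ w ∈ S.Uo U x, S.t3 r x y (some w) ≤ L ^ 2 * S.t2 r x y * (S.Uo U x).card := by
        cases x with
        | none => simp [Uo]
        | some x => exact hs y hy _
      have k2 : ∑ w ∈ S.Uo U y, S.t3 r x y (some w) ≤ D * (S.Uo U y).card := by
        cases y with
        | none => simp [Uo]
        | some y => exact (hs _ hy _).trans (mul_le_mul_of_nonneg_right hD1 (by positivity))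
      have k3 : ∑ w ∈ S.Uo U x, ∑ w' ∈ S.Uo U x, S.t3 r x (some w) (some w') ≤
          (∑ w ∈ S.Uo U x, L ^ 2 * S.t2 r x (some w)) * (S.Uo U x).card := by
        rw [Finset.sum_mul]
        refine Finset.sum_le_sum fun w hw => ?_
        have hw' := hUo w hw
        cases x with
        | none => simp [Uo]
        | some x => exact hs (some w) hw' _
      have m1 := mul_le_mul_of_nonneg_left k1 (mul_nonneg hnN hzx)
      have m2 := mul_le_mul_of_nonneg_left k2 (mul_nonneg hnN hzy)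
      have m3 := mul_le_mul_of_nonneg_left k3 (mul_nonneg (mul_nonneg hnN hzx)
        (mul_nonneg hnN hex))
      have e : S.n / S.N * ex z x * ((S.Uo U x).card * D) =
          S.n / S.N * ex z x * (L ^ 2 * S.t2 r x y * (S.Uo U x).card) +
          S.n / S.N * ex z x * (S.n / S.N * ex x y) *
            ((∑ w ∈ S.Uo U x, L ^ 2 * S.t2 r x (some w)) * (S.Uo U x).card) := by
        rw [hDexp]; ring
      rw [e]
      linarith

end Sys

end Pool.Agent.W955.LT
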