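import Pool.Agent.W955.LT.Gen

/-!
# Expectations of random programs
-/

namespace Pool.Agent.W955.LT

namespace Prog

variable {α β : Type}

theorem E_ret (a : α) (f : α → ℝ) : (ret a : Prog α).E f = f a := rfl

theorem E_draw (w : ℕ) (k : ℕ → Prog α) (f : α → ℝ) :
    (draw w k).E f = (∑ u ∈ Finset.range (w + 1), (k u).E f) / (w + 1) := rfl

theorem E_bind (p : Prog α) (g : α → Prog β) (f : β → ℝ) :
    (p.bind g).E f = p.E (fun a => (g a).E f) := by
  induction p with
  | ret a => rfl
  | draw w k ih =>
    simp only [bind, E]
    congr 1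
    exact Finset.sum_congr rfl fun u _ => ih u

theorem E_add (p : Prog α) (f g : α → ℝ) : p.E (fun a => f a + g a) = p.E f + p.E g := by
  induction p with
  | ret a => rfl
  | draw w k ih =>
    simp only [E]
    rw [← add_div, ← Finset.sum_add_distrib]
    congr 1
    exact Finset.sum_congr rfl fun u _ => ih u

theorem E_mul_left (p : Prog α) (c : ℝ) (f : α → ℝ) : p.E (fun a => c * f a) = c * p.E f := by
  induction p with
  | ret a => rfl
  | draw w k ih =>
    simp only [E]
    rw [← mul_div_assoc, Finset.mul_sum]
    congr 1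
    exact Finset.sum_congr rfl fun u _ => ih u

theorem E_mul_right (p : Prog α) (c : ℝ) (f : α → ℝ) : p.E (fun a => f a * c) = p.E f * c := by
  rw [mul_comm, ← E_mul_left]
  congr 1
  funext a
  ring

theorem E_const (p : Prog α) (c : ℝ) : p.E (fun _ => c) = c := by
  induction p with
  | ret a => rfl
  | draw w k ih =>
    simp only [E]
    rw [Finset.sum_congr rfl fun u _ => ih u, Finset.sum_const, Finset.card_range, nsmul_eq_mul]
    have : ((w : ℝ) + 1) ≠ 0 := by positivity
    push_cast
    field_simp

theorem E_sum {ι : Type} (p : Prog α) (s : Finset ι) (f : ι → α → ℝ) :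
    p.E (fun a => ∑ i ∈ s, f i a) = ∑ i ∈ s, p.E (f i) := by
  classical
  induction s using Finset.induction_on with
  | empty => simp only [Finset.sum_empty]; exact E_const p 0
  | insert i s hi ih =>
    simp only [Finset.sum_insert hi]
    rw [E_add, ih]

theorem E_mono_all {P : α → Prop} (p : Prog α) (hp : p.All P) {f g : α → ℝ}
    (h : ∀ a, P a → f a ≤ g a) : p.E f ≤ p.E g := by
  induction p with
  | ret a => exact h a hp
  | draw w k ih =>
    simp only [E]
    refine div_le_div_of_nonneg_right (Finset.sum_le_sum fun u hu => ih u (hp u ?_)) (by positivity)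
    exact Finset.mem_range.1 hu

theorem E_congr_all {P : α → Prop} (p : Prog α) (hp : p.All P) {f g : α → ℝ}
    (h : ∀ a, P a → f a = g a) : p.E f = p.E g :=
  le_antisymm (E_mono_all p hp fun a ha => (h a ha).le) (E_mono_all p hp fun a ha => (h a ha).ge)

theorem all_true (p : Prog α) : p.All (fun _ => True) := by
  induction p with
  | ret a => trivial
  | draw w k ih => intro u _; exact ih u

theorem E_mono (p : Prog α) {f g : α → ℝ} (h : ∀ a, f a ≤ g a) : p.E f ≤ p.E g :=
  E_mono_all p (all_true p) fun a _ => h a

theorem E_nonneg (p : Prog α) {f : α → ℝ} (h : ∀ a, 0 ≤ f a) : 0 ≤ p.E f := by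
  have := E_mono p (f := fun _ => 0) (g := f) h
  rwa [E_const] at this

theorem all_bind {P : α → Prop} {Q : β → Prop} (p : Prog α) (hp : p.All P) (g : α → Prog β)
    (hg : ∀ a, P a → (g a).All Q) : (p.bind g).All Q := by
  induction p with
  | ret a => exact hg a hp
  | draw w k ih => intro u hu; exact ih u (hp u hu)

theorem all_mono {P Q : α → Prop} (p : Prog α) (hp : p.All P) (h : ∀ a, P a → Q a) : p.All Q := by
  induction p with
  | ret a => exact h a hp
  | draw w k ih => intro u hu; exact ih u (hp u hu)

/-! ### Independent repetitions -/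

theorem E_rep_succ (n : ℕ) (p : Prog α) (f : List α → ℝ) :
    (rep (n + 1) p).E f = p.E (fun a => (rep n p).E (fun l => f (a :: l))) := by
  simp only [rep, E_bind]
  rfl

/-- The sum of a function over a list. -/
def lsum (f : α → ℝ) (l : List α) : ℝ := (l.map f).sum

@[simp] theorem lsum_nil (f : α → ℝ) : lsum f [] = 0 := rfl

@[simp] theorem lsum_cons (f : α → ℝ) (a : α) (l : List α) : lsum f (a :: l) = f a + lsum f l := by
  simp [lsum]

theorem rep_one (p : Prog α) (f : α → ℝ) : ∀ n : ℕ, (rep n p).E (lsum f) = n * p.E f
  | 0 => by simp [rep, E]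
  | n + 1 => by
    rw [E_rep_succ]
    simp only [lsum_cons, E_add, E_const, rep_one p f n]
    push_cast
    ring

theorem rep_two (p : Prog α) (f g : α → ℝ) : ∀ n : ℕ,
    (rep n p).E (fun l => lsum f l * lsum g l) =
      n * (n - 1) * (p.E f * p.E g) + n * p.E (fun a => f a * g a)
  | 0 => by simp [rep, E]
  | n + 1 => by
    rw [E_rep_succ]
    have h1 : ∀ a, (rep n p).E (fun l => lsum f (a :: l) * lsum g (a :: l)) =
        f a * g a + f a * (n * p.E g) + g a * (n * p.E f) +
          (n * (n - 1) * (p.E f * p.E g) + n * p.E (fun a => f a * g a)) := by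
      intro a
      rw [← rep_two p f g n, ← rep_one p g n, ← rep_one p f n, ← E_mul_left, ← E_mul_left]
      rw [← E_const (rep n p) (f a * g a), ← E_add, ← E_add, ← E_add]
      congr 1
      funext l
      simp only [lsum_cons]
      ring
    rw [funext h1]
    simp only [E_add, E_mul_right, E_const]
    push_cast
    ring

theorem rep_three (p : Prog α) (f g h : α → ℝ) : ∀ n : ℕ,
    (rep n p).E (fun l => lsum f l * lsum g l * lsum h l) =
      n * (n - 1) * (n - 2) * (p.E f * p.E g * p.E h) +
      n * (n - 1) * (p.E (fun a => f a * g a) * p.E h + p.E (fun a => f a * h a) * p.E g +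
        p.E (fun a => g a * h a) * p.E f) +
      n * p.E (fun a => f a * g a * h a)
  | 0 => by simp [rep, E]
  | n + 1 => by
    rw [E_rep_succ]
    have h1 : ∀ a, (rep n p).E (fun l => lsum f (a :: l) * lsum g (a :: l) * lsum h (a :: l)) =
        f a * g a * h a + f a * g a * (n * p.E h) + f a * h a * (n * p.E g) +
          g a * h a * (n * p.E f) +
          f a * (n * (n - 1) * (p.E g * p.E h) + n * p.E (fun a => g a * h a)) +
          g a * (n * (n - 1) * (p.E f * p.E h) + n * p.E (fun a => f a * h a)) +
          h a * (n * (n - 1) * (p.E f * p.E g) + n * p.E (fun a => f a * g a)) +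
          (n * (n - 1) * (n - 2) * (p.E f * p.E g * p.E h) +
      n * (n - 1) * (p.E (fun a => f a * g a) * p.E h + p.E (fun a => f a * h a) * p.E g +
        p.E (fun a => g a * h a) * p.E f) +
      n * p.E (fun a => f a * g a * h a)) := by
      intro a
      rw [← rep_three p f g h n, ← rep_two p g h n, ← rep_two p f h n, ← rep_two p f g n,
        ← rep_one p g n, ← rep_one p f n, ← rep_one p h n]
      simp only [← E_mul_left]
      rw [← E_const (rep n p) (f a * g a * h a), ← E_add, ← E_add, ← E_add, ← E_add, ← E_add,
        ← E_add, ← E_add]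
      congr 1
      funext l
      simp only [lsum_cons]
      ring
    rw [funext h1]
    simp only [E_add, E_mul_right, E_const]
    push_cast
    ring

/-- Independence of the `j`-th entry from the others. -/
theorem rep_set (p : Prog α) (x : α) (h : α → ℝ) : ∀ (n j : ℕ) (_ : j < n) (F : List α → ℝ),
    (rep n p).E (fun l => ((l[j]?).elim 0 h) * F (l.set j x)) =
      p.E h * (rep n p).E (fun l => F (l.set j x))
  | 0, j, hj, F => absurd hj (Nat.not_lt_zero _)
  | n + 1, 0, _, F => by
    rw [E_rep_succ, E_rep_succ]
    simp only [List.getElem?_cons_zero, List.set_cons_zero, Option.elim_some, E_mul_left,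
      E_mul_right, E_const]
  | n + 1, j + 1, hj, F => by
    rw [E_rep_succ, E_rep_succ]
    simp only [List.getElem?_cons_succ, List.set_cons_succ]
    rw [← E_mul_left]
    congr 1
    funext a
    exact rep_set p x h n j (by omega) (fun l => F (a :: l))

theorem rep_len (n : ℕ) (p : Prog α) : (rep n p).All (fun l => l.length = n) := by
  induction n with
  | zero => rfl
  | succ n ih =>
    refine all_bind p (all_true p) _ fun a _ => ?_
    refine all_bind _ ih _ fun l hl => ?_
    simp [All, hl]

end Prog

end Pool.Agent.W955.LT
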