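import Pool.Agent.W955.LT.PStm
import Pool.Agent.W955.LT.Asm

/-!
# The sampler: statement, and assembly of the pieces
-/

namespace Pool.Agent.NPC.LT

open Pool.Agent.W955.LT Classical

/-- With the random bits `t`, on the input `(n, e)` (in unary), the algorithm `S` outputs (the code
of) a list of edges of `H`. -/
def Outputs {k : Kind} (S : List Bool → List Bool) (n e : ℕ) (t : List Bool)
    (H : (lattice k).Subgraph) : Prop :=
  ∃ l : List ((ℤ × ℤ) × (ℤ × ℤ)), EdgeList l H ∧
    S (bits ((List.replicate n (), List.replicate e ()), t)) = bits l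

/-- There is a polynomial-time almost uniform sampler for the lattice trees of the lattice `k`:
on the input `n`, `e` (in unary), and with `p (n + e)` random bits, it outputs (the list of edges of)
a lattice tree with `n` vertices, whose law is within total variation distance `2 ^ (-e)` of the
uniform law. -/
def Samplable (k : Kind) : Prop :=
  ∃ (S : List Bool → List Bool) (p : Polynomial ℕ), PolyTime S ∧ ∀ n e : ℕ, 1 ≤ n →
    {H : (lattice k).Subgraph | IsLT k n H}.Finite ∧
    (∀ t : Fin (p.eval (n + e)) → Bool, ∃ H : (lattice k).Subgraph, IsLT k n H ∧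
      Outputs S n e (List.ofFn t) H ∧
      ∀ H' : (lattice k).Subgraph, Outputs S n e (List.ofFn t) H' → H' = H) ∧
    ∀ 𝒜 : Set (lattice k).Subgraph,
      |({t : Fin (p.eval (n + e)) → Bool | ∃ H ∈ 𝒜, Outputs S n e (List.ofFn t) H}.ncard : ℝ) /
          2 ^ p.eval (n + e) -
        ({H : (lattice k).Subgraph | IsLT k n H ∧ H ∈ 𝒜}.ncard : ℝ) /
          ({H : (lattice k).Subgraph | IsLT k n H}.ncard : ℝ)| ≤ 1 / 2 ^ e

theorem edgeList_unique {k : Kind} {l : List ((ℤ × ℤ) × (ℤ × ℤ))} {H H' : (lattice k).Subgraph}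
    (h : EdgeList l H) (h' : EdgeList l H') : H' = H := by
  have e1 : H'.verts = H.verts := by
    ext v
    rw [h'.1 v, h.1 v]
  have e2 : H'.Adj = H.Adj := by
    funext u v
    exact propext ((h'.2 u v).trans (h.2 u v).symm)
  exact SimpleGraph.Subgraph.ext e1 e2

/-- The number of bits of a polynomially bounded number of draws. -/
theorem bits_bound (T G s r : ℕ) (e : ℕ) (W : ℝ) (B : ℕ) (hW : W = (G : ℝ) ^ r)
    (hB : T + G * r + e + 1 ≤ B) (hs : s = e) : (T : ℝ) * W / 2 ^ B ≤ 1 / 2 ^ (s + 1) := by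
  subst hs hW
  have h1 : (T : ℝ) ≤ 2 ^ T := by exact_mod_cast (Nat.lt_two_pow_self).le
  have h2 : (G : ℝ) ≤ 2 ^ G := by exact_mod_cast (Nat.lt_two_pow_self).le
  have h3 : (G : ℝ) ^ r ≤ 2 ^ (G * r) := by
    rw [pow_mul]
    exact pow_le_pow_left₀ (by positivity) h2 r
  rw [div_le_div_iff₀ (by positivity) (by positivity)]
  calc (T : ℝ) * (G : ℝ) ^ r * 2 ^ (s + 1) ≤ 2 ^ T * 2 ^ (G * r) * 2 ^ (s + 1) := by gcongr
    _ = 2 ^ (T + G * r + s + 1) := by rw [← pow_add, ← pow_add]; congr 1
    _ ≤ 2 ^ B := pow_le_pow_right₀ (by norm_num) hB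
    _ = 1 * 2 ^ B := (one_mul _).symm

theorem final (hT : S_trees) (hK : S_kids) (hG : S_good) (hH : S_height) (hL : S_lev)
    (hC1 : S_code1) (hC2 : S_code2) (hCB : S_cb) (hBr : S_bridge) (hTp : S_tape) (hRn : S_run)
    (hLv : S_lvl) (hI : S_inv) (hTop : S_top) (hGn : S_gen) (hPC : S_polyCode) (hSm : S_samp)
    (k : Kind) : Samplable k := by
  obtain ⟨qc, hq1, hcb⟩ := hCB
  -- parameters
  set PN : Polynomial ℕ := Polynomial.C 32 * qc * Polynomial.X ^ 13 + Polynomial.C 2 with hPN
  set PJ : Polynomial ℕ := Polynomial.C 3 * Polynomial.X + Polynomial.C 3 with hPJ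
  set PG : Polynomial ℕ := PN + Polynomial.X * (Polynomial.C 1 + PN ^ 2 * Polynomial.C 360) with hPG
  set PT : Polynomial ℕ := PJ * (Polynomial.C 2 * Polynomial.X ^ 12 * (Polynomial.C 2 * PN +
    Polynomial.C 1) + Polynomial.C 1) with hPT
  set PB : Polynomial ℕ := PT + PG * (Polynomial.C 4 * Polynomial.X ^ 12) + Polynomial.X +
    Polynomial.C 1 with hPB
  have hPN1 : ∀ m, 1 ≤ PN.eval m := by
    intro m
    simp only [hPN, Polynomial.eval_add, Polynomial.eval_C]
    omega
  obtain ⟨F, hF, hF'⟩ := hSm k PN PJ PB hPN1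
  obtain ⟨_, _, _, _, hedge, _⟩ := hPC
  set S : List Bool → List Bool := fun x => bits
    (match unbits ((List Unit × List Unit) × List Bool) x with
      | none => ([] : List ((ℤ × ℤ) × (ℤ × ℤ)))
      | some a => edgesC k (F a)) with hS
  have hpoly : PolyTime S := by
    apply polyTime_bits
    refine (Poly.optCases (h := fun _ a => edgesC k (F a)) poly_unbits
      (Poly.const ([] : List ((ℤ × ℤ) × (ℤ × ℤ))))
      (Poly.comp (hedge k) (Poly.comp hF (Poly.snd Poly.id)))).congr fun x => ?_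
    cases unbits ((List Unit × List Unit) × List Bool) x <;> rfl
  have hSval : ∀ a, S (bits a) = bits (edgesC k (F a)) := by
    intro a
    simp only [hS, unbits_bits]
  refine ⟨S, PT * PB, hpoly, fun n e hn => ?_⟩
  set s := n + e with hs
  set M := (PT * PB).eval s with hM
  set N := PN.eval n with hN
  set J := PJ.eval e with hJ
  set B := PB.eval s with hB
  set R := 2 * lev n with hR
  -- the result of a run
  set y : (Fin M → Bool) → Code := fun t =>
    (((sysC k n N).chainL R J (lineC k n)).run B (List.ofFn t)).1 with hy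
  have hyF : ∀ t, F ((List.replicate n (), List.replicate e ()), List.ofFn t) = y t :=
    fun t => hF' n e (List.ofFn t) hn
  have hSy : ∀ t, S (bits ((List.replicate n (), List.replicate e ()), List.ofFn t)) =
      bits (edgesC k (y t)) := fun t => by rw [hSval, hyF]
  -- the initial code
  obtain ⟨A0, hA0, hA0c, hA0e⟩ := hC1.2.2.2.2.2.1 k n hn
  have hok0 : Ok k (A0, {[]}) := ⟨hA0, by simpa using hA0.nil, by simp, by simp⟩
  have hN2 : 2 ≤ N := by
    simp only [hN, hPN, Polynomial.eval_add, Polynomial.eval_C]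
    omega
  have hlaw := law_main hT hK hG hH hL hC1 hC2 k qc hq1 (hcb k) n N hn hN2 (by
    simp only [hN, hPN, Polynomial.eval_add, Polynomial.eval_mul, Polynomial.eval_pow,
      Polynomial.eval_C, Polynomial.eval_X]
    omega)
  have hx0 : lineC k n ∈ codes k n := (mem_codes hT).2 ⟨_, hok0, hA0c.le, hA0e⟩
  have hx0s : (sysC k n N).size (lineC k n) = (sysC k n N).n := by
    change (lineC k n).1.length = n
    rw [← hA0e, enc_len hC1 hok0, hA0c]
  have hx0t : (sysC k n N).top (lineC k n) = true := by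
    change decide ((lineC k n).2 = [[]]) = true
    rw [decide_eq_true_eq, ← hA0e]
    exact (hC1.2.2.2.2.2.2.2 k _ hok0).2 rfl
  -- invariants
  set P : Code → Prop := fun c => validC k c = true ∧ c.1.length ≤ n with hP
  have hinv := hI Code (sysC k n N) P 360 R J hn (show 1 ≤ N by omega)
    ⟨(hC2.2.2.2.2.1 k).1, hn⟩
    (fun x hx a ha => by
      obtain ⟨h1, h2⟩ := hC2.2.2.2.2.2 k x a hx.1 ha
      exact ⟨h1, by have := hx.2; omega⟩)
    (fun a b z hz hsz => ⟨((hC2.2.1 k a b z).1 hz).1, hsz⟩) (hC2.2.2.2.1 k)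
  have hx0P : P (lineC k n) := by
    refine ⟨(hC1.2.2.1 k _).2 ⟨_, hok0, hA0e⟩, ?_⟩
    exact hx0s.le
  obtain ⟨hbd, hall⟩ := hinv.2 (lineC k n) hx0P
  have htop := hTop Code (sysC k n N) R J (lineC k n) rfl hx0s hx0t
  have hyprop : ∀ t, ∃ A, Tr k A ∧ A.card = n ∧ enc (A, {[]}) = y t := by
    intro t
    obtain ⟨h1, h2⟩ := hRn Code P _ B (List.ofFn t) hall
    obtain ⟨h3, h4⟩ := hRn Code _ _ B (List.ofFn t) htop
    obtain ⟨o, ho, hoe⟩ := (hC1.2.2.1 k _).1 h1
    have h5 : (enc o).2 = [[]] := by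
      rw [hoe]
      exact of_decide_eq_true h4
    have h6 := (hC1.2.2.2.2.2.2.2 k o ho).1 h5
    have h7 : (o.1, ({[]} : Finset (List ℕ))) = o := Prod.ext rfl h6.symm
    refine ⟨o.1, ho.tr, ?_, ?_⟩
    · rw [← enc_len hC1 ho, hoe]
      exact h3
    · rw [h7]
      exact hoe
  -- the bridge
  obtain ⟨Φ, hΦ, hΦe⟩ := hBr k n hn
  have hedgeL : ∀ A, Tr k A → A.card = n → EdgeList (edgesC k (enc (A, {[]}))) (Φ A) := by
    intro A hA hAc
    have hok : Ok k (A, {[]}) := ⟨hA, by simpa using hA.nil, by simp, by simp⟩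
    exact hΦe A hA hAc _ (hC1.2.2.2.2.1 k _ hok).1 _
  have hLT : ∀ A, Tr k A → A.card = n → IsLT k n (Φ A) := fun A hA hAc => hΦ.mapsTo ⟨hA, hAc⟩
  have hfinA : {A : Finset (List ℕ) | Tr k A ∧ A.card = n} = (trees k n : Set (Finset (List ℕ))) := by
    ext A
    rw [Finset.mem_coe, hT.1]
    rfl
  have hfin : {H : (lattice k).Subgraph | IsLT k n H}.Finite := by
    rw [← hΦ.image_eq, hfinA]
    exact (Finset.finite_toSet _).image _
  refine ⟨hfin, ?_, ?_⟩
  · intro t
    obtain ⟨A, hA, hAc, hAe⟩ := hyprop t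
    have h1 := hedgeL A hA hAc
    refine ⟨Φ A, hLT A hA hAc, ⟨_, h1, ?_⟩, ?_⟩
    · rw [hSy t, hAe]
    · rintro H' ⟨l, hl, hl'⟩
      rw [hSy t] at hl'
      have := bits_injective hl'
      rw [← this, ← hAe] at hl
      exact edgeList_unique h1 hl
  · intro 𝒜
    set f : Code → ℝ := fun c => if ∃ H ∈ 𝒜, EdgeList (edgesC k c) H then 1 else 0 with hf
    have hf01 : ∀ c, 0 ≤ f c ∧ f c ≤ 1 := by
      intro c
      simp only [hf]
      split_ifs <;> norm_num
    -- the empirical average
    have e1 : ({t : Fin M → Bool | ∃ H ∈ 𝒜, Outputs S n e (List.ofFn t) H}.ncard : ℝ) =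
        ∑ t : Fin M → Bool, f (y t) := by
      have : {t : Fin M → Bool | ∃ H ∈ 𝒜, Outputs S n e (List.ofFn t) H} =
          ((Finset.univ.filter (fun t : Fin M → Bool => ∃ H ∈ 𝒜, EdgeList (edgesC k (y t)) H) :
            Finset (Fin M → Bool)) : Set (Fin M → Bool)) := by
        ext t
        simp only [Finset.coe_filter, Finset.mem_univ, true_and]
        constructor
        · rintro ⟨H, hH, l, hl, hl'⟩
          rw [hSy t] at hl'
          have := bits_injective hl'
          rw [← this] at hl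
          exact ⟨H, hH, hl⟩
        · rintro ⟨H, hH, hl⟩
          exact ⟨H, hH, _, hl, hSy t⟩
      rw [this, Set.ncard_coe_finset, Finset.card_filter]
      push_cast
      rfl
    -- the uniform average
    have e2 : ({H : (lattice k).Subgraph | IsLT k n H}.ncard : ℝ) = (trees k n).card := by
      rw [← hΦ.image_eq, hfinA, Set.InjOn.ncard_image (by rw [← hfinA]; exact hΦ.injOn),
        Set.ncard_coe_finset]
    have e3 : ({H : (lattice k).Subgraph | IsLT k n H ∧ H ∈ 𝒜}.ncard : ℝ) =
        ∑ A ∈ trees k n, f (enc (A, {[]})) := by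
      have h1 : {H : (lattice k).Subgraph | IsLT k n H ∧ H ∈ 𝒜} =
          Φ '' ((trees k n).filter (fun A => Φ A ∈ 𝒜) : Finset (Finset (List ℕ))) := by
        ext H
        constructor
        · rintro ⟨h1, h2⟩
          obtain ⟨A, hA, rfl⟩ := hΦ.surjOn h1
          refine ⟨A, ?_, rfl⟩
          rw [Finset.mem_coe, Finset.mem_filter, hT.1]
          exact ⟨hA, h2⟩
        · rintro ⟨A, hA, rfl⟩
          rw [Finset.mem_coe, Finset.mem_filter, hT.1] at hA
          exact ⟨hΦ.mapsTo hA.1, hA.2⟩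
      have hinj : Set.InjOn Φ ((trees k n).filter (fun A => Φ A ∈ 𝒜) : Finset (Finset (List ℕ))) := by
        intro A hA A' hA' h
        rw [Finset.mem_coe, Finset.mem_filter, hT.1] at hA hA'
        exact hΦ.injOn hA.1 hA'.1 h
      rw [h1, Set.InjOn.ncard_image hinj, Set.ncard_coe_finset, Finset.card_filter]
      push_cast
      refine Finset.sum_congr rfl fun A hA => ?_
      rw [hT.1] at hA
      have h2 := hedgeL A hA.1 hA.2
      simp only [hf]
      by_cases h3 : Φ A ∈ 𝒜
      · rw [if_pos h3, if_pos ⟨_, h3, h2⟩]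
      · rw [if_neg h3, if_neg]
        rintro ⟨H, hH, hl⟩
        rw [edgeList_unique h2 hl] at hH
        exact h3 hH
    -- the set of final codes
    have hset : (codes k n).filter (fun z => (sysC k n N).size z = (sysC k n N).n ∧
        (sysC k n N).top z = true) = (trees k n).image (fun A => enc (A, {[]})) := by
      ext c
      rw [Finset.mem_filter, mem_codes hT, Finset.mem_image]
      constructor
      · rintro ⟨⟨o, ho, hoc, rfl⟩, h1, h2⟩
        change (enc o).1.length = n at h1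
        rw [enc_len hC1 ho] at h1
        have h3 : (enc o).2 = [[]] := of_decide_eq_true h2
        have h4 := (hC1.2.2.2.2.2.2.2 k o ho).1 h3
        have h7 : (o.1, ({[]} : Finset (List ℕ))) = o := Prod.ext rfl h4.symm
        exact ⟨o.1, (hT.1 k n o.1).2 ⟨ho.tr, h1⟩, by rw [h7]⟩
      · rintro ⟨A, hA, rfl⟩
        rw [hT.1] at hA
        have hok : Ok k (A, {[]}) := ⟨hA.1, by simpa using hA.1.nil, by simp, by simp⟩
        refine ⟨⟨_, hok, hA.2.le, rfl⟩, ?_, ?_⟩
        · change (enc (A, {[]})).1.length = n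
          rw [enc_len hC1 hok]
          exact hA.2
        · change decide ((enc (A, {[]})).2 = [[]]) = true
          rw [decide_eq_true_eq]
          exact (hC1.2.2.2.2.2.2.2 k _ hok).2 rfl
    have hinjE : Set.InjOn (fun A : Finset (List ℕ) => enc (A, {[]})) (trees k n) := by
      intro A hA A' hA' h
      rw [Finset.mem_coe, hT.1] at hA hA'
      have hok : Ok k (A, {[]}) := ⟨hA.1, by simpa using hA.1.nil, by simp, by simp⟩
      have hok' : Ok k (A', {[]}) := ⟨hA'.1, by simpa using hA'.1.nil, by simp, by simp⟩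
      exact congrArg Prod.fst (hC1.2.2.2.1 k _ _ hok hok' h)
    have hgen := hGn Code (sysC k n N) (codes k n) _ R J (lineC k n) f hlaw hx0 hx0s hx0t hf01
    rw [hset, Finset.card_image_of_injOn hinjE, Finset.sum_image hinjE, ← hLv] at hgen
    -- the tape
    have hMeq : M = PT.eval s * B := by simp [hM, hB]
    have hn6 : 2 ^ lev n ≤ n ^ 6 := hL n hn
    have hns : n ≤ s := by omega
    have hes : e ≤ s := by omega
    have h2R : 2 ^ R ≤ s ^ 12 := by
      rw [hR, two_mul, pow_add]
      have : 2 ^ lev n * 2 ^ lev n ≤ n ^ 6 * n ^ 6 := Nat.mul_le_mul hn6 hn6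
      have e : s ^ 12 = s ^ 6 * s ^ 6 := by ring
      have h6 : n ^ 6 ≤ s ^ 6 := Nat.pow_le_pow_left hns 6
      rw [e]
      exact this.trans (Nat.mul_le_mul h6 h6)
    have hNs : N ≤ PN.eval s := eval_le PN hns
    have hJs : J ≤ PJ.eval s := eval_le PJ hes
    have hTle : J * (2 ^ (R + 1) * (2 * (sysC k n N).N + 1) + 1) ≤ PT.eval s := by
      change J * (2 ^ (R + 1) * (2 * N + 1) + 1) ≤ _
      have h1 : 2 ^ (R + 1) ≤ 2 * s ^ 12 := by
        rw [pow_succ]; omega
      simp only [hPT, Polynomial.eval_mul, Polynomial.eval_add, Polynomial.eval_C,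
        Polynomial.eval_pow, Polynomial.eval_X]
      refine Nat.mul_le_mul hJs (Nat.add_le_add_right (Nat.mul_le_mul h1 ?_) 1)
      omega
    have hGle : (sysC k n N).N + (sysC k n N).n * (1 + (sysC k n N).N ^ 2 * 360) ≤ PG.eval s := by
      change N + n * (1 + N ^ 2 * 360) ≤ _
      simp only [hPG, Polynomial.eval_mul, Polynomial.eval_add, Polynomial.eval_C,
        Polynomial.eval_pow, Polynomial.eval_X]
      have h1 : N ^ 2 ≤ (PN.eval s) ^ 2 := Nat.pow_le_pow_left hNs 2
      have h2 : n * (1 + N ^ 2 * 360) ≤ s * (1 + (PN.eval s) ^ 2 * 360) :=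
        Nat.mul_le_mul hns (by omega)
      omega
    have htape := hTp Code ((sysC k n N).chainL R J (lineC k n)) _ _ B M f hbd (by
      rw [hMeq]
      exact Nat.mul_le_mul_right _ hTle) hf01
    have herr1 : ((J * (2 ^ (R + 1) * (2 * (sysC k n N).N + 1) + 1) : ℕ) : ℝ) *
        (((sysC k n N).N + (sysC k n N).n * (1 + (sysC k n N).N ^ 2 * 360)) ^ 2 ^ (R + 2) : ℕ) /
        2 ^ B ≤ 1 / 2 ^ (e + 1) := by
      refine bits_bound _ ((sysC k n N).N + (sysC k n N).n * (1 + (sysC k n N).N ^ 2 * 360)) e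
        (2 ^ (R + 2)) e _ B (by push_cast; rfl) ?_ rfl
      have h1 : 2 ^ (R + 2) ≤ 4 * s ^ 12 := by
        rw [pow_add]; omega
      have h2 := Nat.mul_le_mul hGle h1
      have h3 : B = PT.eval s + PG.eval s * (4 * s ^ 12) + s + 1 := by
        simp only [hB, hPB, Polynomial.eval_mul, Polynomial.eval_add, Polynomial.eval_C,
          Polynomial.eval_pow, Polynomial.eval_X]
      rw [h3]
      omega
    have herr2 : ((3 : ℝ) / 4) ^ J ≤ 1 / 2 ^ (e + 1) := by
      have h1 : J = 3 * (e + 1) := by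
        simp only [hJ, hPJ, Polynomial.eval_mul, Polynomial.eval_add, Polynomial.eval_C,
          Polynomial.eval_X]
        ring
      rw [h1, pow_mul]
      have h2 : ((3 : ℝ) / 4) ^ 3 ≤ 1 / 2 := by norm_num
      have h3 := pow_le_pow_left₀ (by positivity) h2 (e + 1)
      rwa [one_div_pow] at h3
    have hsum : (1 : ℝ) / 2 ^ (e + 1) + 1 / 2 ^ (e + 1) = 1 / 2 ^ e := by
      rw [pow_succ]
      field_simp
      norm_num
    rw [e1, e2, e3]
    have t1 := htape.trans herr1
    have t2 := hgen.trans herr2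
    have t3 := abs_sub_le ((∑ t : Fin M → Bool, f (y t)) / 2 ^ M)
      (((sysC k n N).chainL R J (lineC k n)).E f)
      ((∑ A ∈ trees k n, f (enc (A, {[]}))) / ((trees k n).card : ℝ))
    refine t3.trans ?_
    rw [← hsum]
    exact add_le_add t1 t2

end Pool.Agent.NPC.LT
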