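import Pool.Agent.W955.LT.Defs

/-!
# Random programs and the divide-and-conquer sampler (generic part)
-/

namespace Pool.Agent.W955.LT

/-- Programs which draw numbers: `draw w k` draws a uniform member `u` of `{0, …, w}` and continues
with `k u`. -/
inductive Prog (α : Type) : Type
  | ret : α → Prog α
  | draw : ℕ → (ℕ → Prog α) → Prog α

namespace Prog

variable {α β : Type}

/-- Sequential composition. -/
def bind : Prog α → (α → Prog β) → Prog β
  | ret a, g => g a
  | draw w k, g => draw w (fun u => (k u).bind g)

/-- Expectation of a function of the result. -/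
noncomputable def E : Prog α → (α → ℝ) → ℝ
  | ret a, f => f a
  | draw w k, f => (∑ u ∈ Finset.range (w + 1), (k u).E f) / (w + 1)

/-- The number with the given binary digits, least significant first. -/
def bval : List Bool → ℕ
  | [] => 0
  | b :: l => (if b then 1 else 0) + 2 * bval l

/-- The program run with random bits taken from a tape, `B` bits for each draw. -/
def run (B : ℕ) : Prog α → List Bool → α × List Bool
  | ret a, t => (a, t)
  | draw w k, t => (k (bval (t.take B) * (w + 1) / 2 ^ B)).run B (t.drop B)

/-- All draws are from at most `W` numbers, and there are at most `T` of them. -/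
def Bd (W : ℕ) : Prog α → ℕ → Prop
  | ret _, _ => True
  | draw _ _, 0 => False
  | draw w k, T + 1 => w + 1 ≤ W ∧ ∀ u, u < w + 1 → Bd W (k u) T

/-- All possible results satisfy `P`. -/
def All (P : α → Prop) : Prog α → Prop
  | ret a => P a
  | draw w k => ∀ u, u < w + 1 → All P (k u)

/-- `N` independent repetitions. -/
def rep : ℕ → Prog α → Prog (List α)
  | 0, _ => ret []
  | n + 1, p => p.bind fun a => (rep n p).bind fun l => ret (a :: l)

end Prog

open Prog

/-- The data of the sampler: the greatest size `n`, the number `N` of particles, the point, the size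
of objects, the two parts of objects, the list of the objects with two given parts, the test for the
objects which are sampled in the end. -/
structure Sys (O : Type) where
  /-- greatest size -/
  n : ℕ
  /-- number of particles -/
  N : ℕ
  /-- the point -/
  pt : O
  /-- size -/
  size : O → ℕ
  /-- the two parts of an object -/
  kids : O → Option O × Option O
  /-- the objects with two given parts -/
  cand : O → O → List O
  /-- the objects to be sampled -/
  top : O → Bool

/-- Pools: a common denominator, a list of weights (indexed by the sizes), a list of entries. -/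
abbrev Pl (O : Type) := ℕ × List ℕ × List (Option O)

namespace Sys

variable {O : Type} (S : Sys O)

/-- The weight of the entries of size `m`. -/
def wt (p : Pl O) (m : ℕ) : ℕ := p.2.1.getD m 0

/-- The initial pool. -/
def base : Pl O :=
  (S.N, (List.range (S.n + 1)).map (fun m => if m = 1 then 1 else 0), List.replicate S.N (some S.pt))

/-- The weighted candidates of size `m` made of entries `x` and `y`. -/
def cxy (p1 p2 : Pl O) (m : ℕ) (x y : Option O) : List (ℕ × O) :=
  match x, y with
  | some a, some b =>
      ((S.cand a b).filter (fun z => S.size z = m)).map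
        (fun z => (wt p1 (S.size a) * wt p2 (S.size b), z))
  | _, _ => []

/-- The weighted candidates of size `m`. -/
def cs (p1 p2 : Pl O) (m : ℕ) : List (ℕ × O) :=
  (if m = 1 then [(p1.1 * p2.1, S.pt)] else []) ++
    p1.2.2.flatMap (fun x => p2.2.2.flatMap (fun y => S.cxy p1 p2 m x y))

/-- The total weight of a list. -/
def total (l : List (ℕ × O)) : ℕ := (l.map Prod.fst).sum

/-- The member of the list selected by the number `u`. -/
def sel : List (ℕ × O) → ℕ → Option O
  | [], _ => none
  | (w, z) :: l, u => if u < w then some z else sel l (u - w)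

/-- Choose a member of the list with probability proportional to the weight. -/
def pick (l : List (ℕ × O)) : Prog (Option O) :=
  if total l = 0 then ret none else draw (total l - 1) (fun u => ret (sel l u))

/-- A random size and a random candidate of this size. -/
def particle (p1 p2 : Pl O) : Prog (Option O) :=
  draw (S.n - 1) (fun m => pick (S.cs p1 p2 (m + 1)))

/-- The new pool with entries `l`. -/
def mkp (p1 p2 : Pl O) (l : List (Option O)) : Pl O :=
  (S.N * p1.1 * p2.1, (List.range (S.n + 1)).map (fun m => S.n * total (S.cs p1 p2 m)), l)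

/-- The new pool, with the object `x` (if any) forced into a random place. -/
def comb (p1 p2 : Pl O) (x : Option O) : Prog (Pl O) :=
  (rep S.N (S.particle p1 p2)).bind fun l =>
    match x with
    | none => ret (S.mkp p1 p2 l)
    | some o => draw (S.N - 1) fun j => ret (S.mkp p1 p2 (l.set j (some o)))

/-- The two parts, for optional objects. -/
def kd : Option O → Option O × Option O
  | none => (none, none)
  | some o => S.kids o

/-- The random pool of height `r`, conditioned on `x`. -/
def pool : ℕ → Option O → Prog (Pl O)
  | 0, _ => ret S.base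
  | r + 1, x => (pool r (S.kd x).1).bind fun p1 => (pool r (S.kd x).2).bind fun p2 => S.comb p1 p2 x

/-- The final candidates. -/
def ts (p1 p2 : Pl O) : List (ℕ × O) := (S.cs p1 p2 S.n).filter (fun q => S.top q.2)

/-- One step of the chain. -/
def step (R : ℕ) (x : O) : Prog O :=
  (pool S R (S.kids x).1).bind fun p1 => (pool S R (S.kids x).2).bind fun p2 =>
    (pick (S.ts p1 p2)).bind fun y => ret (y.getD x)

/-- The chain: `J` steps. -/
def chain (R : ℕ) : ℕ → O → Prog O
  | 0, x => ret x
  | J + 1, x => (S.step R x).bind fun y => chain R J y

/-! ### The same, level by level -/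

/-- Combine consecutive pairs of pools. -/
def combL : List (Pl O) → List (Option O) → Prog (List (Pl O))
  | p1 :: p2 :: ps, x :: xs => (S.comb p1 p2 x).bind fun p => (combL ps xs).bind fun l =>
      ret (p :: l)
  | _, _ => ret []

/-- The parts of all members of a list. -/
def kdL (xs : List (Option O)) : List (Option O) := xs.flatMap fun x => [(S.kd x).1, (S.kd x).2]

/-- The random pools of height `r` conditioned on the members of a list. -/
def poolL : ℕ → List (Option O) → Prog (List (Pl O))
  | 0, xs => ret (xs.map fun _ => S.base)
  | r + 1, xs => (poolL r (S.kdL xs)).bind fun ps => S.combL ps xs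

/-- One step of the chain. -/
def stepL (R : ℕ) (x : O) : Prog O :=
  (S.poolL R [(S.kids x).1, (S.kids x).2]).bind fun ps =>
    match ps with
    | p1 :: p2 :: _ => (pick (S.ts p1 p2)).bind fun y => ret (y.getD x)
    | _ => ret x

/-- The chain: `J` steps. -/
def chainL (R : ℕ) : ℕ → O → Prog O
  | 0, x => ret x
  | J + 1, x => (S.stepL R x).bind fun y => chainL R J y

/-! ### Laws -/

/-- The decomposition of the object has height at most `r`. -/
def HtG : ℕ → Option O → Prop
  | _, none => True
  | 0, some o => o = S.pt
  | r + 1, some o => HtG r (S.kids o).1 ∧ HtG r (S.kids o).2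

open Classical in
/-- The laws of the data with respect to the set `U` of valid objects of size at most `n` and the
real number `q`; `R` is the height. -/
structure Law (U : Finset O) (q : ℝ) (R : ℕ) : Prop where
  hn : 1 ≤ S.n
  hN : 2 ≤ S.N
  hq : 1 ≤ q
  hNq : q * S.n * 2 ^ (R + 5) ≤ S.N
  size : ∀ z ∈ U, 1 ≤ S.size z ∧ S.size z ≤ S.n
  pt_mem : S.pt ∈ U
  pt_size : S.size S.pt = 1
  pt_kids : S.kids S.pt = (none, none)
  kids : ∀ z ∈ U, z ≠ S.pt → ∃ a b, S.kids z = (some a, some b) ∧ a ∈ U ∧ b ∈ U
  cand : ∀ a b z, z ∈ S.cand a b ∧ S.size z ≤ S.n ↔ z ∈ U ∧ S.kids z = (some a, some b)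
  nodup : ∀ a b, (S.cand a b).Nodup
  ht : ∀ z ∈ U, S.size z = S.n → S.top z = true → HtG S R (S.kids z).1 ∧ HtG S R (S.kids z).2
  cb : ∀ p : Pat O, (∀ x ∈ p.atoms, x ∈ U) → ∀ m,
    (((U.filter (fun z => S.size z = m)).filter (fun z => p.holds S.kids z)).card : ℝ) *
      ((p.atoms.map (fun x => (((U.filter (fun z => S.size z = S.size x)).card : ℝ)))).prod) ≤
    q ^ p.atoms.length * (U.filter (fun z => S.size z = m)).card
  cbt : ∀ p : Pat O, (∀ x ∈ p.atoms, x ∈ U) →
    (((U.filter (fun z => S.size z = S.n ∧ S.top z = true)).filter
        (fun z => p.holds S.kids z)).card : ℝ) *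
      ((p.atoms.map (fun x => (((U.filter (fun z => S.size z = S.size x)).card : ℝ)))).prod) ≤
    q ^ p.atoms.length * (U.filter (fun z => S.size z = S.n ∧ S.top z = true)).card

/-- Bounded pools. -/
structure PlOk (P : O → Prop) (D : ℕ) (p : Pl O) : Prop where
  den : p.1 ≤ D
  len : p.2.1.length = S.n + 1
  wt : ∀ w ∈ p.2.1, w ≤ D
  num : p.2.2.length = S.N
  mem : ∀ o, some o ∈ p.2.2 → P o

end Sys

end Pool.Agent.W955.LT
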