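import Pool.Agent.W955.LT.Ex

/-!
# Random measures: conditional moments
-/

namespace Pool.Agent.W955.LT

open Classical Prog

namespace Sys

variable {O : Type} (S : Sys O)

/-- The number of occurrences. -/
noncomputable def cnt {α : Type} (l : List α) (x : α) : ℕ := l.countP (fun y => decide (y = x))

/-- The measure of a pool. -/
noncomputable def M (p : Pl O) : Option O → ℝ
  | none => 1
  | some o => (wt p (S.size o) : ℝ) * cnt p.2.2 (some o) / p.1

theorem M_nonneg (p : Pl O) (x : Option O) : 0 ≤ S.M p x := by
  cases x with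
  | none => exact zero_le_one
  | some o => unfold M; positivity

/-- The weighted sum of a function over a weighted list. -/
noncomputable def W (l : List (ℕ × O)) (g : O → ℝ) : ℝ := (l.map (fun q => (q.1 : ℝ) * g q.2)).sum

theorem W_append (l l' : List (ℕ × O)) (g : O → ℝ) : W (l ++ l') g = W l g + W l' g := by
  simp [W]

theorem W_flatMap {α : Type} (l : List α) (f : α → List (ℕ × O)) (g : O → ℝ) :
    W (l.flatMap f) g = (l.map (fun a => W (f a) g)).sum := by
  induction l with
  | nil => simp [W]
  | cons a l ih => rw [List.flatMap_cons, W_append, ih]; simp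

theorem W_one (l : List (ℕ × O)) : W l (fun _ => 1) = total l := by
  induction l with
  | nil => simp [W, total]
  | cons a l ih => simp [W, total] at ih ⊢; rw [ih]

theorem sum_ind {α : Type} [DecidableEq α] (l : List α) (x : α) (c : ℝ) :
    (l.map (fun y => if x = y then c else 0)).sum = cnt l x * c := by
  induction l with
  | nil => simp [cnt]
  | cons a l ih =>
    simp only [List.map_cons, List.sum_cons, ih, cnt, List.countP_cons]
    by_cases h : x = a
    · subst h; simp; ring
    · have h' : ¬ a = x := fun e => h e.symm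
      simp [h, h']

theorem sum_finset {α ι : Type} (l : List α) (s : Finset ι) (f : α → ι → ℝ) :
    (l.map (fun a => ∑ i ∈ s, f a i)).sum = ∑ i ∈ s, (l.map (fun a => f a i)).sum := by
  induction l with
  | nil => simp
  | cons a l ih => simp [ih, Finset.sum_add_distrib]

/-- The weight of an optional object. -/
def wo (p : Pl O) : Option O → ℕ
  | none => 0
  | some a => wt p (S.size a)

variable {S} {U : Finset O} {q : ℝ} {R : ℕ}

theorem W_cxy (hS : S.Law U q R) (p1 p2 : Pl O) (m : ℕ) (hm : m ≤ S.n) (x y : Option O)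
    (g : O → ℝ) :
    W (S.cxy p1 p2 m x y) g = ∑ z ∈ (U.filter (fun z => S.size z = m)).filter (fun z => z ≠ S.pt),
      if S.kids z = (x, y) then (S.wo p1 x : ℝ) * S.wo p2 y * g z else 0 := by
  have hz : ∀ z ∈ (U.filter (fun z => S.size z = m)).filter (fun z => z ≠ S.pt),
      ∃ a b, S.kids z = (some a, some b) := by
    intro z hz
    simp only [Finset.mem_filter] at hz
    obtain ⟨a, b, h, _⟩ := hS.kids z hz.1.1 hz.2
    exact ⟨a, b, h⟩
  match x, y with
  | none, y =>
    rw [Finset.sum_eq_zero]
    · simp [cxy, W]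
    · intro z h
      obtain ⟨a, b, h⟩ := hz z h
      rw [h]; simp
  | some a, none =>
    rw [Finset.sum_eq_zero]
    · simp [cxy, W]
    · intro z h
      obtain ⟨a, b, h⟩ := hz z h
      rw [h]; simp
  | some a, some b =>
    rw [← Finset.sum_filter]
    have hset : (((U.filter (fun z => S.size z = m)).filter (fun z => z ≠ S.pt)).filter
        (fun z => S.kids z = (some a, some b))) =
        ((S.cand a b).filter (fun z => S.size z = m)).toFinset := by
      ext z
      simp only [Finset.mem_filter, List.mem_toFinset, List.mem_filter, decide_eq_true_eq]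
      constructor
      · rintro ⟨⟨⟨h1, h2⟩, h3⟩, h4⟩
        exact ⟨((hS.cand a b z).2 ⟨h1, h4⟩).1, h2⟩
      · rintro ⟨h1, h2⟩
        obtain ⟨h3, h4⟩ := (hS.cand a b z).1 ⟨h1, by omega⟩
        refine ⟨⟨⟨h3, h2⟩, ?_⟩, h4⟩
        rintro rfl
        rw [hS.pt_kids] at h4
        simp at h4
    rw [hset, List.sum_toFinset _ ((hS.nodup a b).filter _)]
    simp only [W, cxy, List.map_map, wo]
    congr 1
    apply List.map_congr_left
    intro z _
    simp [Function.comp]

/-- The measure of the parts. -/
noncomputable def P (S : Sys O) (p1 p2 : Pl O) (x : Option O) : ℝ :=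
  S.M p1 (S.kd x).1 * S.M p2 (S.kd x).2

theorem P_nonneg (p1 p2 : Pl O) (x : Option O) : 0 ≤ P S p1 p2 x :=
  mul_nonneg (S.M_nonneg _ _) (S.M_nonneg _ _)

theorem wo_cnt (p : Pl O) (hp : p.1 ≠ 0) (a : O) :
    (S.wo p (some a) : ℝ) * cnt p.2.2 (some a) = p.1 * S.M p (some a) := by
  have : (p.1 : ℝ) ≠ 0 := by exact_mod_cast hp
  simp only [wo, M]
  field_simp

theorem cs_sum (hS : S.Law U q R) (p1 p2 : Pl O) (h1 : p1.1 ≠ 0) (h2 : p2.1 ≠ 0) (m : ℕ)
    (hm : m ≤ S.n) (g : O → ℝ) :
    W (S.cs p1 p2 m) g =
      p1.1 * p2.1 * ∑ z ∈ U.filter (fun z => S.size z = m), P S p1 p2 (some z) * g z := by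
  rw [cs, W_append, W_flatMap]
  have e1 : ∀ x, W (p2.2.2.flatMap (fun y => S.cxy p1 p2 m x y)) g =
      ∑ z ∈ (U.filter (fun z => S.size z = m)).filter (fun z => z ≠ S.pt),
        if x = (S.kids z).1 then (S.wo p1 (S.kids z).1 : ℝ) *
          (S.wo p2 (S.kids z).2 * cnt p2.2.2 (S.kids z).2) * g z else 0 := by
    intro x
    rw [W_flatMap]
    simp only [W_cxy hS p1 p2 m hm]
    rw [sum_finset]
    refine Finset.sum_congr rfl fun z _ => ?_
    by_cases hx : x = (S.kids z).1
    · rw [if_pos hx, hx]
      have : ∀ y, (if S.kids z = ((S.kids z).1, y) then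
          (S.wo p1 (S.kids z).1 : ℝ) * S.wo p2 y * g z else 0) =
          if (S.kids z).2 = y then (S.wo p1 (S.kids z).1 : ℝ) * S.wo p2 (S.kids z).2 * g z
            else 0 := by
        intro y
        by_cases hy : (S.kids z).2 = y
        · rw [if_pos hy, if_pos (by rw [← hy]), hy]
        · rw [if_neg hy, if_neg]
          intro e
          exact hy (by rw [e])
      simp only [this]
      rw [sum_ind]
      ring
    · rw [if_neg hx]
      apply List.sum_eq_zero
      intro r hr
      rw [List.mem_map] at hr
      obtain ⟨y, _, rfl⟩ := hr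
      rw [if_neg]
      intro e
      exact hx (by rw [e])
  simp only [e1]
  rw [sum_finset]
  have e2 : ∀ z ∈ (U.filter (fun z => S.size z = m)).filter (fun z => z ≠ S.pt),
      (p1.2.2.map (fun x => if x = (S.kids z).1 then (S.wo p1 (S.kids z).1 : ℝ) *
          (S.wo p2 (S.kids z).2 * cnt p2.2.2 (S.kids z).2) * g z else 0)).sum =
      p1.1 * p2.1 * (P S p1 p2 (some z) * g z) := by
    intro z hz
    simp only [Finset.mem_filter] at hz
    obtain ⟨a, b, h, _⟩ := hS.kids z hz.1.1 hz.2
    have : ∀ x, (if x = (S.kids z).1 then (S.wo p1 (S.kids z).1 : ℝ) *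
          (S.wo p2 (S.kids z).2 * cnt p2.2.2 (S.kids z).2) * g z else 0) =
        if (S.kids z).1 = x then (S.wo p1 (S.kids z).1 : ℝ) *
          (S.wo p2 (S.kids z).2 * cnt p2.2.2 (S.kids z).2) * g z else 0 := by
      intro x
      by_cases hx : x = (S.kids z).1
      · rw [if_pos hx, if_pos hx.symm]
      · rw [if_neg hx, if_neg (fun e => hx e.symm)]
    simp only [this]
    rw [sum_ind]
    simp only [P, kd, h]
    have f1 := wo_cnt (S := S) p1 h1 a
    have f2 := wo_cnt (S := S) p2 h2 b
    linear_combination (S.wo p2 (some b) * cnt p2.2.2 (some b) * g z) * f1 +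
      (p1.1 * S.M p1 (some a) * g z) * f2
  rw [Finset.sum_congr rfl e2, ← Finset.mul_sum]
  have e3 : W (if m = 1 then [(p1.1 * p2.1, S.pt)] else []) g =
      p1.1 * p2.1 * ∑ z ∈ (U.filter (fun z => S.size z = m)).filter (fun z => ¬ z ≠ S.pt),
        P S p1 p2 (some z) * g z := by
    by_cases hm1 : m = 1
    · have : (U.filter (fun z => S.size z = m)).filter (fun z => ¬ z ≠ S.pt) = {S.pt} := by
        ext z
        simp only [Finset.mem_filter, Finset.mem_singleton, not_not]
        constructor
        · exact fun h => h.2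
        · rintro rfl
          exact ⟨⟨hS.pt_mem, by rw [hS.pt_size, hm1]⟩, rfl⟩
      rw [this, Finset.sum_singleton, if_pos hm1]
      simp [W, P, kd, hS.pt_kids, M]
    · have : (U.filter (fun z => S.size z = m)).filter (fun z => ¬ z ≠ S.pt) = ∅ := by
        rw [Finset.filter_eq_empty_iff]
        intro z hz
        simp only [Finset.mem_filter] at hz
        rw [not_not]
        rintro rfl
        rw [hS.pt_size] at hz
        exact hm1 hz.2.symm
      rw [this, if_neg hm1]
      simp [W]
  rw [e3, ← mul_add]
  congr 1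
  rw [add_comm]
  exact Finset.sum_filter_add_sum_filter_not _ _ _

theorem pick_sel : ∀ (l : List (ℕ × O)) (f : Option O → ℝ),
    ∑ u ∈ Finset.range (total l), f (sel l u) = W l (fun z => f (some z))
  | [], f => by simp [total, W]
  | (w, z) :: l, f => by
    have h : total ((w, z) :: l) = w + total l := by simp [total]
    rw [h, Finset.sum_range_add]
    have h1 : ∑ u ∈ Finset.range w, f (sel ((w, z) :: l) u) = w * f (some z) := by
      rw [Finset.sum_congr rfl (g := fun _ => f (some z))]
      · simp
      · intro u hu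
        rw [Finset.mem_range] at hu
        simp [sel, hu]
    have h2 : ∑ u ∈ Finset.range (total l), f (sel ((w, z) :: l) (w + u)) =
        W l (fun z => f (some z)) := by
      rw [← pick_sel l f]
      refine Finset.sum_congr rfl fun u _ => ?_
      simp [sel]
    rw [h1, h2]
    simp [W]

/-- The expectation for a random choice. -/
theorem pick_E (l : List (ℕ × O)) (f : Option O → ℝ) :
    total l * (pick l).E f = W l (fun z => f (some z)) := by
  rw [← pick_sel, pick]
  split_ifs with h
  · rw [h]; simp
  · rw [E_draw]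
    have h1 : total l - 1 + 1 = total l := by omega
    have h2 : ((total l - 1 : ℕ) : ℝ) + 1 = total l := by
      exact_mod_cast h1
    rw [h1, h2]
    simp only [E_ret]
    have h3 : (total l : ℝ) ≠ 0 := by exact_mod_cast h
    field_simp

end Sys

end Pool.Agent.W955.LT
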