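import Pool.Agent.W955.LT.Mom

/-!
# Random measures: conditional moments, second part
-/

namespace Pool.Agent.W955.LT

open Classical Prog

namespace Sys

variable {O : Type} {S : Sys O} {U : Finset O} {q : ℝ} {R : ℕ}

/-- The objects of size `m`. -/
noncomputable def Um (S : Sys O) (U : Finset O) (m : ℕ) : Finset O :=
  U.filter (fun z => S.size z = m)

/-- The total measure of the objects of size `m`. -/
noncomputable def Z (S : Sys O) (U : Finset O) (p1 p2 : Pl O) (m : ℕ) : ℝ :=
  ∑ w ∈ S.Um U m, P S p1 p2 (some w)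

theorem Z_nonneg (p1 p2 : Pl O) (m : ℕ) : 0 ≤ Z S U p1 p2 m :=
  Finset.sum_nonneg fun _ _ => P_nonneg _ _ _

theorem total_cs (hS : S.Law U q R) (p1 p2 : Pl O) (h1 : p1.1 ≠ 0) (h2 : p2.1 ≠ 0) (m : ℕ)
    (hm : m ≤ S.n) : (total (S.cs p1 p2 m) : ℝ) = p1.1 * p2.1 * Z S U p1 p2 m := by
  rw [← W_one, cs_sum hS p1 p2 h1 h2 m hm]
  simp [Z, Um]

theorem pick_ind (hS : S.Law U q R) (p1 p2 : Pl O) (h1 : p1.1 ≠ 0) (h2 : p2.1 ≠ 0) (m : ℕ)
    (hm : m ≤ S.n) (z : O) (hz : z ∈ U) :
    Z S U p1 p2 m * (pick (S.cs p1 p2 m)).E (fun e => if e = some z then 1 else 0) =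
      if S.size z = m then P S p1 p2 (some z) else 0 := by
  have h := pick_E (S.cs p1 p2 m) (fun e => if e = some z then 1 else 0)
  rw [total_cs hS p1 p2 h1 h2 m hm, cs_sum hS p1 p2 h1 h2 m hm] at h
  have h3 : ((p1.1 : ℝ) * p2.1) ≠ 0 := by
    have : (p1.1 : ℝ) ≠ 0 := by exact_mod_cast h1
    have : (p2.1 : ℝ) ≠ 0 := by exact_mod_cast h2
    positivity
  have h4 : ∑ w ∈ U.filter (fun z => S.size z = m), P S p1 p2 (some w) *
      (if (some w : Option O) = some z then (1 : ℝ) else 0) =
      if S.size z = m then P S p1 p2 (some z) else 0 := by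
    by_cases hzm : S.size z = m
    · rw [if_pos hzm, Finset.sum_eq_single z]
      · simp
      · intro w _ hw
        rw [if_neg (by simpa using hw), mul_zero]
      · intro h
        exact absurd (Finset.mem_filter.2 ⟨hz, hzm⟩) h
    · rw [if_neg hzm]
      apply Finset.sum_eq_zero
      intro w hw
      rw [Finset.mem_filter] at hw
      rw [if_neg, mul_zero]
      intro e
      rw [Option.some_inj] at e
      rw [e] at hw
      exact hzm hw.2
  rw [h4] at h
  exact mul_left_cancel₀ h3 (by rw [← h]; ring)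

theorem pick_ind_ne (hS : S.Law U q R) (p1 p2 : Pl O) (h1 : p1.1 ≠ 0) (h2 : p2.1 ≠ 0) (m : ℕ)
    (hm : m ≤ S.n) (z : O) (hz : z ∈ U) (hzm : S.size z ≠ m) :
    (pick (S.cs p1 p2 m)).E (fun e => if e = some z then (1 : ℝ) else 0) = 0 := by
  have h := pick_ind hS p1 p2 h1 h2 m hm z hz
  rw [if_neg hzm] at h
  rcases mul_eq_zero.1 h with h | h
  · have h3 := total_cs hS p1 p2 h1 h2 m hm
    rw [h, mul_zero] at h3
    have h4 : total (S.cs p1 p2 m) = 0 := by exact_mod_cast h3
    rw [pick, if_pos h4]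
    simp [E]
  · exact h

/-- The scaled indicator of an object. -/
noncomputable def phi (S : Sys O) (U : Finset O) (p1 p2 : Pl O) (z : O) (e : Option O) : ℝ :=
  if e = some z then S.n * Z S U p1 p2 (S.size z) else 0

theorem particle_phi (hS : S.Law U q R) (p1 p2 : Pl O) (h1 : p1.1 ≠ 0) (h2 : p2.1 ≠ 0) (z : O)
    (hz : z ∈ U) : (S.particle p1 p2).E (phi S U p1 p2 z) = P S p1 p2 (some z) := by
  have hn := hS.hn
  obtain ⟨hs1, hs2⟩ := hS.size z hz
  have e0 : phi S U p1 p2 z = fun e => (S.n * Z S U p1 p2 (S.size z)) *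
      (if e = some z then 1 else 0) := by
    funext e
    simp [phi]
  rw [e0, E_mul_left, particle, E_draw]
  have h3 : S.n - 1 + 1 = S.n := by omega
  have h4 : ((S.n - 1 : ℕ) : ℝ) + 1 = S.n := by exact_mod_cast h3
  rw [h3, h4]
  have h5 : ∑ u ∈ Finset.range S.n, (pick (S.cs p1 p2 (u + 1))).E
      (fun e => if e = some z then (1 : ℝ) else 0) =
      (pick (S.cs p1 p2 (S.size z))).E (fun e => if e = some z then (1 : ℝ) else 0) := by
    rw [Finset.sum_eq_single (S.size z - 1)]
    · rw [Nat.sub_add_cancel hs1]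
    · intro m hm hne
      rw [Finset.mem_range] at hm
      exact pick_ind_ne hS p1 p2 h1 h2 (m + 1) (by omega) z hz (by omega)
    · intro h
      exact absurd (Finset.mem_range.2 (by omega)) h
  rw [h5]
  have h6 := pick_ind hS p1 p2 h1 h2 (S.size z) hs2 z hz
  rw [if_pos rfl] at h6
  have h7 : (S.n : ℝ) ≠ 0 := by
    have : 0 < S.n := by omega
    positivity
  rw [← h6]
  field_simp

theorem phi_mul (p1 p2 : Pl O) (z z' : O) (e : Option O) :
    phi S U p1 p2 z e * phi S U p1 p2 z' e =
      (if z = z' then S.n * Z S U p1 p2 (S.size z) else 0) * phi S U p1 p2 z e := by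
  unfold phi
  by_cases h : e = some z
  · by_cases h' : z = z'
    · subst h'; simp [h]
    · have : ¬ e = some z' := by rw [h, Option.some_inj]; exact h'
      simp [h', this]
  · simp [h]

theorem M_mkp (hS : S.Law U q R) (p1 p2 : Pl O) (h1 : p1.1 ≠ 0) (h2 : p2.1 ≠ 0)
    (l : List (Option O)) (z : O) (hz : z ∈ U) :
    S.M (S.mkp p1 p2 l) (some z) = lsum (phi S U p1 p2 z) l / S.N := by
  obtain ⟨hs1, hs2⟩ := hS.size z hz
  have e1 : lsum (phi S U p1 p2 z) l = S.n * Z S U p1 p2 (S.size z) * cnt l (some z) := by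
    induction l with
    | nil => simp [cnt]
    | cons a l ih =>
      rw [lsum_cons, ih]
      simp only [phi, cnt, List.countP_cons]
      by_cases h : a = some z
      · simp [h]; ring
      · simp [h]
  have e2 : wt (S.mkp p1 p2 l) (S.size z) = S.n * total (S.cs p1 p2 (S.size z)) := by
    simp only [wt, mkp]
    rw [List.getD_eq_getElem?_getD, List.getElem?_map, List.getElem?_range (by omega)]
    rfl
  simp only [M, e2]
  have e3 : (S.mkp p1 p2 l).1 = S.N * p1.1 * p2.1 := rfl
  have e4 : (S.mkp p1 p2 l).2.2 = l := rfl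
  rw [e3, e4, e1]
  push_cast
  rw [total_cs hS p1 p2 h1 h2 _ hs2]
  have h3 : (p1.1 : ℝ) ≠ 0 := by exact_mod_cast h1
  have h4 : (p2.1 : ℝ) ≠ 0 := by exact_mod_cast h2
  have h5 : (S.N : ℝ) ≠ 0 := by
    have := hS.hN
    have : 0 < S.N := by omega
    positivity
  field_simp

theorem comb_none (p1 p2 : Pl O) (F : Pl O → ℝ) :
    (S.comb p1 p2 none).E F = (rep S.N (S.particle p1 p2)).E (fun l => F (S.mkp p1 p2 l)) := by
  rw [comb, E_bind]
  rfl

/-- Equality of objects. -/
noncomputable def ex (x y : Option O) : ℝ := if x = y ∧ x ≠ none then 1 else 0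

/-- The total measure of the objects of the same size. -/
noncomputable def Zo (S : Sys O) (U : Finset O) (p1 p2 : Pl O) : Option O → ℝ
  | none => 0
  | some z => Z S U p1 p2 (S.size z)

/-- Valid optional objects. -/
def Vo (U : Finset O) (x : Option O) : Prop := ∀ z, x = some z → z ∈ U

theorem P_none (p1 p2 : Pl O) : P S p1 p2 none = 1 := by simp [P, kd, M]

theorem mom1 (hS : S.Law U q R) (p1 p2 : Pl O) (h1 : p1.1 ≠ 0) (h2 : p2.1 ≠ 0) (x : Option O)
    (hx : Vo U x) : (S.comb p1 p2 none).E (fun p => S.M p x) = P S p1 p2 x := by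
  cases x with
  | none => rw [P_none]; exact E_const _ _
  | some z =>
    have hN : (S.N : ℝ) ≠ 0 := by
      have := hS.hN
      have : 0 < S.N := by omega
      positivity
    rw [comb_none]
    simp only [M_mkp hS p1 p2 h1 h2 _ z (hx z rfl), div_eq_mul_inv, E_mul_right]
    rw [rep_one, particle_phi hS p1 p2 h1 h2 z (hx z rfl)]
    field_simp

theorem mom2_some (hS : S.Law U q R) (p1 p2 : Pl O) (h1 : p1.1 ≠ 0) (h2 : p2.1 ≠ 0) (x y : O)
    (hx : x ∈ U) (hy : y ∈ U) :
    (S.comb p1 p2 none).E (fun p => S.M p (some x) * S.M p (some y)) =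
      (1 - 1 / S.N) * (P S p1 p2 (some x) * P S p1 p2 (some y)) +
        S.n / S.N * ex (some x) (some y) * Zo S U p1 p2 (some x) * P S p1 p2 (some x) := by
  have hN : (S.N : ℝ) ≠ 0 := by
    have := hS.hN
    have : 0 < S.N := by omega
    positivity
  rw [comb_none]
  have e1 : ∀ l, S.M (S.mkp p1 p2 l) (some x) * S.M (S.mkp p1 p2 l) (some y) =
      lsum (phi S U p1 p2 x) l * lsum (phi S U p1 p2 y) l * (1 / S.N ^ 2) := by
    intro l
    rw [M_mkp hS p1 p2 h1 h2 _ x hx, M_mkp hS p1 p2 h1 h2 _ y hy]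
    field_simp
  simp only [e1, E_mul_right]
  rw [rep_two]
  simp only [phi_mul, E_mul_left, particle_phi hS p1 p2 h1 h2 x hx,
    particle_phi hS p1 p2 h1 h2 y hy]
  have e2 : (if x = y then (S.n : ℝ) * Z S U p1 p2 (S.size x) else 0) =
      ex (some x) (some y) * (S.n * Z S U p1 p2 (S.size x)) := by
    by_cases h : x = y <;> simp [ex, h]
  rw [e2]
  simp only [Zo]
  field_simp

theorem ex_nonneg (x y : Option O) : 0 ≤ ex x y := by unfold ex; split_ifs <;> norm_num

theorem ex_none_left (y : Option O) : ex none y = 0 := by simp [ex]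

theorem ex_none_right (x : Option O) : ex x none = 0 := by
  unfold ex
  rw [if_neg]
  rintro ⟨rfl, h⟩
  exact h rfl

theorem Zo_nonneg (p1 p2 : Pl O) (x : Option O) : 0 ≤ Zo S U p1 p2 x := by
  cases x with
  | none => exact le_rfl
  | some z => exact Z_nonneg _ _ _

theorem mom2 (hS : S.Law U q R) (p1 p2 : Pl O) (h1 : p1.1 ≠ 0) (h2 : p2.1 ≠ 0) (x y : Option O)
    (hx : Vo U x) (hy : Vo U y) :
    (1 - 1 / S.N) * (P S p1 p2 x * P S p1 p2 y + S.n / S.N * ex x y * Zo S U p1 p2 x *
      P S p1 p2 x) ≤ (S.comb p1 p2 none).E (fun p => S.M p x * S.M p y) := by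
  have hN2 := hS.hN
  have hN : (2 : ℝ) ≤ S.N := by exact_mod_cast hN2
  have h3 : (1 : ℝ) - 1 / S.N ≤ 1 := by
    have : (0 : ℝ) ≤ 1 / S.N := by positivity
    linarith
  have P0 := P_nonneg (S := S) p1 p2
  cases x with
  | none =>
    have : ∀ p, S.M p none * S.M p y = S.M p y := fun p => by simp [M]
    simp only [this, mom1 hS p1 p2 h1 h2 y hy, P_none, ex_none_left]
    nlinarith [P0 y]
  | some x =>
    cases y with
    | none =>
      have : ∀ p, S.M p (some x) * S.M p none = S.M p (some x) := fun p => by simp [M]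
      simp only [this, mom1 hS p1 p2 h1 h2 _ hx, P_none, ex_none_right]
      nlinarith [P0 (some x)]
    | some y =>
      rw [mom2_some hS p1 p2 h1 h2 x y (hx x rfl) (hy y rfl)]
      have h4 : 0 ≤ S.n / S.N * ex (some x) (some y) * Zo S U p1 p2 (some x) *
          P S p1 p2 (some x) := by
        have := Zo_nonneg (S := S) (U := U) p1 p2 (some x)
        have := ex_nonneg (some x) (some y)
        have := P0 (some x)
        positivity
      nlinarith

theorem mom2_le (hS : S.Law U q R) (p1 p2 : Pl O) (h1 : p1.1 ≠ 0) (h2 : p2.1 ≠ 0)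
    (x y : Option O) (hx : Vo U x) (hy : Vo U y) :
    (S.comb p1 p2 none).E (fun p => S.M p x * S.M p y) ≤
    (P S p1 p2 x * P S p1 p2 y + S.n / S.N * ex x y * Zo S U p1 p2 x * P S p1 p2 x) := by
  have hN2 := hS.hN
  have hN : (2 : ℝ) ≤ S.N := by exact_mod_cast hN2
  have h3 : (1 : ℝ) - 1 / S.N ≤ 1 := by
    have : (0 : ℝ) ≤ 1 / S.N := by positivity
    linarith
  have P0 := P_nonneg (S := S) p1 p2
  cases x with
  | none =>
    have : ∀ p, S.M p none * S.M p y = S.M p y := fun p => by simp [M]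
    simp only [this, mom1 hS p1 p2 h1 h2 y hy, P_none, ex_none_left]
    nlinarith [P0 y]
  | some x =>
    cases y with
    | none =>
      have : ∀ p, S.M p (some x) * S.M p none = S.M p (some x) := fun p => by simp [M]
      simp only [this, mom1 hS p1 p2 h1 h2 _ hx, P_none, ex_none_right]
      nlinarith [P0 (some x)]
    | some y =>
      rw [mom2_some hS p1 p2 h1 h2 x y (hx x rfl) (hy y rfl)]
      have h4 : 0 ≤ P S p1 p2 (some x) * P S p1 p2 (some y) := mul_nonneg (P0 _) (P0 _)
      nlinarith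

/-- The bound for the third moments. -/
noncomputable def B3 (S : Sys O) (U : Finset O) (p1 p2 : Pl O) (x y z : Option O) : ℝ :=
  P S p1 p2 x * P S p1 p2 y * P S p1 p2 z +
  S.n / S.N * ex x y * (Zo S U p1 p2 x * P S p1 p2 x * P S p1 p2 z) +
  S.n / S.N * ex z x * (Zo S U p1 p2 x * P S p1 p2 x * P S p1 p2 y) +
  S.n / S.N * ex z y * (Zo S U p1 p2 y * P S p1 p2 y * P S p1 p2 x) +
  S.n / S.N * ex z x * (S.n / S.N * ex x y * (Zo S U p1 p2 x ^ 2 * P S p1 p2 x))

theorem mom3_some (hS : S.Law U q R) (p1 p2 : Pl O) (h1 : p1.1 ≠ 0) (h2 : p2.1 ≠ 0) (x y z : O)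
    (hx : x ∈ U) (hy : y ∈ U) (hz : z ∈ U) :
    (S.comb p1 p2 none).E (fun p => S.M p (some x) * S.M p (some y) * S.M p (some z)) ≤
      B3 S U p1 p2 (some x) (some y) (some z) := by
  have hN2 := hS.hN
  have hN2' : (2 : ℝ) ≤ S.N := by exact_mod_cast hN2
  have hN : (S.N : ℝ) ≠ 0 := by positivity
  rw [comb_none]
  have e1 : ∀ l, S.M (S.mkp p1 p2 l) (some x) * S.M (S.mkp p1 p2 l) (some y) *
      S.M (S.mkp p1 p2 l) (some z) =
      lsum (phi S U p1 p2 x) l * lsum (phi S U p1 p2 y) l * lsum (phi S U p1 p2 z) l *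
        (1 / S.N ^ 3) := by
    intro l
    rw [M_mkp hS p1 p2 h1 h2 _ x hx, M_mkp hS p1 p2 h1 h2 _ y hy, M_mkp hS p1 p2 h1 h2 _ z hz]
    field_simp
  simp only [e1, E_mul_right]
  rw [rep_three]
  have e3 : ∀ a, phi S U p1 p2 x a * phi S U p1 p2 y a * phi S U p1 p2 z a =
      (if x = y then (S.n : ℝ) * Z S U p1 p2 (S.size x) else 0) *
        ((if x = z then (S.n : ℝ) * Z S U p1 p2 (S.size x) else 0) * phi S U p1 p2 x a) := by
    intro a
    rw [phi_mul, mul_assoc, phi_mul]
  simp only [e3]
  simp only [phi_mul, E_mul_left, particle_phi hS p1 p2 h1 h2 x hx,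
    particle_phi hS p1 p2 h1 h2 y hy, particle_phi hS p1 p2 h1 h2 z hz]
  have e2 : ∀ x y : O, (if x = y then (S.n : ℝ) * Z S U p1 p2 (S.size x) else 0) =
      ex (some x) (some y) * (S.n * Z S U p1 p2 (S.size x)) := by
    intro x y
    by_cases h : x = y <;> simp [ex, h]
  have e4 : ∀ x y : Option O, ex x y = ex y x := by
    intro x y
    unfold ex
    by_cases h : x = y
    · subst h; rfl
    · rw [if_neg (fun e => h e.1), if_neg (fun e => h e.1.symm)]
  simp only [e2]
  simp only [B3, Zo]
  rw [e4 (some z) (some x), e4 (some z) (some y)]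
  have g1 := P_nonneg (S := S) p1 p2 (some x)
  have g2 := P_nonneg (S := S) p1 p2 (some y)
  have g3 := P_nonneg (S := S) p1 p2 (some z)
  have g4 := Z_nonneg (S := S) (U := U) p1 p2 (S.size x)
  have g5 := Z_nonneg (S := S) (U := U) p1 p2 (S.size y)
  have g6 := ex_nonneg (some x) (some y)
  have g7 := ex_nonneg (some x) (some z)
  have g8 := ex_nonneg (some y) (some z)
  generalize ex (some x) (some y) = a at *
  generalize ex (some x) (some z) = b at *
  generalize ex (some y) (some z) = c at *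
  generalize Z S U p1 p2 (S.size x) = zx at *
  generalize Z S U p1 p2 (S.size y) = zy at *
  generalize P S p1 p2 (some x) = px at *
  generalize P S p1 p2 (some y) = py at *
  generalize P S p1 p2 (some z) = pz at *
  have hn0 : (0 : ℝ) ≤ S.n := by positivity
  generalize (S.n : ℝ) = n at *
  generalize (S.N : ℝ) = N at *
  have hN0 : 0 < N := by linarith
  have k1 : N * (N - 1) * (N - 2) ≤ N ^ 3 := by nlinarith
  have k2 : N * (N - 1) ≤ N ^ 2 := by nlinarith
  have t1 : 0 ≤ px * py * pz := by positivity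
  have t2 : 0 ≤ a * (n * zx) * px * pz + b * (n * zx) * px * py + c * (n * zy) * py * px := by
    positivity
  have hfin : (N * (N - 1) * (N - 2) * (px * py * pz) +
      N * (N - 1) * (a * (n * zx) * px * pz + b * (n * zx) * px * py + c * (n * zy) * py * px) +
      N * (a * (n * zx) * (b * (n * zx) * px))) * (1 / N ^ 3) ≤
      (N ^ 3 * (px * py * pz) +
      N ^ 2 * (a * (n * zx) * px * pz + b * (n * zx) * px * py + c * (n * zy) * py * px) +
      N * (a * (n * zx) * (b * (n * zx) * px))) * (1 / N ^ 3) := by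
    refine mul_le_mul_of_nonneg_right ?_ (by positivity)
    have := mul_le_mul_of_nonneg_right k1 t1
    have := mul_le_mul_of_nonneg_right k2 t2
    linarith
  refine hfin.trans (le_of_eq ?_)
  field_simp
  ring

theorem mom3 (hS : S.Law U q R) (p1 p2 : Pl O) (h1 : p1.1 ≠ 0) (h2 : p2.1 ≠ 0)
    (x y z : Option O) (hx : Vo U x) (hy : Vo U y) (hz : Vo U z) :
    (S.comb p1 p2 none).E (fun p => S.M p x * S.M p y * S.M p z) ≤ B3 S U p1 p2 x y z := by
  cases z with
  | none =>
    have : ∀ p, S.M p x * S.M p y * S.M p none = S.M p x * S.M p y := fun p => by simp [M]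
    simp only [this]
    refine (mom2_le hS p1 p2 h1 h2 x y hx hy).trans (le_of_eq ?_)
    simp only [B3, P_none, ex_none_left]
    ring
  | some z =>
    cases x with
    | none =>
      have : ∀ p, S.M p none * S.M p y * S.M p (some z) = S.M p (some z) * S.M p y :=
        fun p => by simp only [M]; ring
      simp only [this]
      refine (mom2_le hS p1 p2 h1 h2 _ _ hz hy).trans (le_of_eq ?_)
      simp only [B3, P_none, ex_none_left, ex_none_right]
      by_cases h : (some z : Option O) = y
      · subst h; ring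
      · have : ex (some z) y = 0 := by simp [ex, h]
        rw [this]; ring
    | some x =>
      cases y with
      | none =>
        have : ∀ p, S.M p (some x) * S.M p none * S.M p (some z) =
            S.M p (some z) * S.M p (some x) := fun p => by simp only [M]; ring
        simp only [this]
        refine (mom2_le hS p1 p2 h1 h2 _ _ hz hx).trans (le_of_eq ?_)
        simp only [B3, P_none, ex_none_right]
        by_cases h : (some z : Option O) = some x
        · rw [h]; ring
        · have : ex (some z) (some x) = 0 := by simp only [ex]; rw [if_neg (fun e => h e.1)]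
          rw [this]; ring
      | some y =>
        exact mom3_some hS p1 p2 h1 h2 x y z (hx x rfl) (hy y rfl) (hz z rfl)

theorem lsum_range {α : Type} (f : α → ℝ) : ∀ l : List α,
    lsum f l = ∑ j ∈ Finset.range l.length, (l[j]?).elim 0 f
  | [] => by simp
  | a :: l => by
    rw [lsum_cons, List.length_cons, Finset.sum_range_succ', lsum_range f l]
    simp only [List.getElem?_cons_succ, List.getElem?_cons_zero, Option.elim_some]
    ring

/-- Conditioning. -/
theorem comb_cond (hS : S.Law U q R) (p1 p2 : Pl O) (h1 : p1.1 ≠ 0) (h2 : p2.1 ≠ 0)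
    (x : Option O) (hx : Vo U x) (F : Pl O → ℝ) :
    P S p1 p2 x * (S.comb p1 p2 x).E F = (S.comb p1 p2 none).E (fun p => S.M p x * F p) := by
  cases x with
  | none => rw [P_none, one_mul]; simp only [M, one_mul]
  | some z =>
    have hN2 := hS.hN
    have h3 : S.N - 1 + 1 = S.N := by omega
    have h4 : ((S.N - 1 : ℕ) : ℝ) + 1 = S.N := by exact_mod_cast h3
    have hz := hx z rfl
    have e1 : (S.comb p1 p2 (some z)).E F = (rep S.N (S.particle p1 p2)).E (fun l =>
        (∑ j ∈ Finset.range S.N, F (S.mkp p1 p2 (l.set j (some z)))) / S.N) := by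
      rw [comb, E_bind]
      congr 1
      funext l
      rw [E_draw, h3, h4]
      rfl
    rw [e1, comb_none]
    simp only [M_mkp hS p1 p2 h1 h2 _ z hz]
    have e2 : (rep S.N (S.particle p1 p2)).E (fun l =>
        lsum (phi S U p1 p2 z) l / S.N * F (S.mkp p1 p2 l)) =
        (rep S.N (S.particle p1 p2)).E (fun l => ∑ j ∈ Finset.range S.N,
          ((l[j]?).elim 0 (phi S U p1 p2 z)) * (F (S.mkp p1 p2 (l.set j (some z))) / S.N)) := by
      refine E_congr_all _ (rep_len _ _) fun l hl => ?_
      rw [lsum_range, hl, Finset.sum_div, Finset.sum_mul]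
      refine Finset.sum_congr rfl fun j hj => ?_
      rw [Finset.mem_range] at hj
      have hj' : j < l.length := by omega
      rw [List.getElem?_eq_getElem hj', Option.elim_some]
      by_cases h : l[j] = some z
      · have : l.set j (some z) = l := by
          rw [← h]
          exact List.set_getElem_self hj'
        rw [this]
        ring
      · simp [phi, h]
    rw [e2, E_sum]
    have e3 : ∀ j ∈ Finset.range S.N, (rep S.N (S.particle p1 p2)).E (fun l =>
        ((l[j]?).elim 0 (phi S U p1 p2 z)) * (F (S.mkp p1 p2 (l.set j (some z))) / S.N)) =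
        P S p1 p2 (some z) * (rep S.N (S.particle p1 p2)).E (fun l =>
          F (S.mkp p1 p2 (l.set j (some z))) / S.N) := by
      intro j hj
      rw [rep_set _ (some z) (phi S U p1 p2 z) S.N j (Finset.mem_range.1 hj)
        (fun l => F (S.mkp p1 p2 l) / S.N), particle_phi hS p1 p2 h1 h2 z hz]
    rw [Finset.sum_congr rfl e3, ← Finset.mul_sum, ← E_sum]
    simp only [Finset.sum_div]

end Sys

end Pool.Agent.W955.LT
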